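import Mathlib

/-!
Monochromatic tree covers of edge-coloured graphs: definitions and basic facts.
-/

set_option autoImplicit false

namespace Pool.Agent.Lib.MP_6f811f_co

open SimpleGraph

variable {V : Type} {r : ℕ}

/-- `H` is a monochromatic tree of the edge-coloured graph `(G, c)`: a subgraph of `G` which is a
tree, all of whose edges have the same colour. -/
def IsMonoTree (G : SimpleGraph V) (c : G.edgeSet → Fin r) (H : G.Subgraph) : Prop :=
  H.coe.IsTree ∧ ∃ i : Fin r, ∀ e : G.edgeSet, (e : Sym2 V) ∈ H.edgeSet → c e = i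

/-- `𝒯` is a family of monochromatic trees whose vertex sets together contain every vertex. -/
def IsTreeCover (G : SimpleGraph V) (c : G.edgeSet → Fin r) (𝒯 : Finset G.Subgraph) : Prop :=
  (∀ H ∈ 𝒯, IsMonoTree G c H) ∧ ∀ v : V, ∃ H ∈ 𝒯, v ∈ H.verts

/-- `t(G, c)`: the least number of monochromatic trees covering all vertices. -/
noncomputable def coverNum (G : SimpleGraph V) (c : G.edgeSet → Fin r) : ℕ :=
  sInf {k : ℕ | ∃ 𝒯 : Finset G.Subgraph, 𝒯.card = k ∧ IsTreeCover G c 𝒯}

/-- `tc_r(G)`: the maximum of `t(G, c)` over all `r`-edge-colourings `c` of `G`. -/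
noncomputable def tc (r : ℕ) (G : SimpleGraph V) : ℕ :=
  sSup (Set.range (fun c : G.edgeSet → Fin r => coverNum G c))

/-- The graph of the edges of colour `i`. -/
def colG (G : SimpleGraph V) (c : G.edgeSet → Fin r) (i : Fin r) : SimpleGraph V where
  Adj u w := ∃ h : G.Adj u w, c ⟨s(u, w), h⟩ = i
  symm := ⟨fun u w h => by
    obtain ⟨h1, h2⟩ := h
    refine ⟨h1.symm, ?_⟩
    have : (⟨s(w, u), h1.symm⟩ : G.edgeSet) = ⟨s(u, w), h1⟩ := by
      apply Subtype.ext
      exact Sym2.eq_swap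
    rw [this]
    exact h2⟩
  loopless := ⟨fun u h => by
    obtain ⟨h1, _⟩ := h
    exact h1.ne rfl⟩

theorem colG_adj {G : SimpleGraph V} {c : G.edgeSet → Fin r} {i : Fin r} {u w : V} :
    (colG G c i).Adj u w ↔ ∃ h : G.Adj u w, c ⟨s(u, w), h⟩ = i := Iff.rfl

/-- A monochromatic tree lies in a component of one colour. -/
theorem IsMonoTree.reach {G : SimpleGraph V} {c : G.edgeSet → Fin r} {H : G.Subgraph}
    (h : IsMonoTree G c H) :
    ∃ i : Fin r, ∃ v ∈ H.verts, ∀ w ∈ H.verts, (colG G c i).Reachable v w := by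
  obtain ⟨hT, i, hi⟩ := h
  have hc := hT.connected
  obtain ⟨v⟩ := hc.nonempty
  refine ⟨i, v.1, v.2, ?_⟩
  intro w hw
  have h1 := hc.preconnected v ⟨w, hw⟩
  let φ : H.coe →g colG G c i :=
    { toFun := Subtype.val
      map_rel' := by
        intro a b hab
        have hab' : H.Adj a.1 b.1 := hab
        refine ⟨hab'.adj_sub, ?_⟩
        exact hi ⟨s(a.1, b.1), hab'.adj_sub⟩ hab' }
  exact h1.map φ

/-- Every component of the graph of one colour is contained in a monochromatic tree. -/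
theorem exists_monoTree (G : SimpleGraph V) (c : G.edgeSet → Fin r) (i : Fin r) (v : V) :
    ∃ H : G.Subgraph, IsMonoTree G c H ∧ ∀ w, (colG G c i).Reachable v w → w ∈ H.verts := by
  obtain ⟨T, hT, hTree⟩ := ((colG G c i).connectedComponentMk v).connected_toSimpleGraph.exists_isTree_le
  let S := ((colG G c i).connectedComponentMk v).supp
  let H : G.Subgraph :=
    { verts := S
      Adj := fun u w => ∃ (hu : u ∈ S) (hw : w ∈ S), T.Adj ⟨u, hu⟩ ⟨w, hw⟩
      adj_sub := by
        rintro u w ⟨hu, hw, h⟩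
        have h1 := hT h
        have h2 : (colG G c i).Adj u w := h1
        exact h2.1
      edge_vert := by
        rintro u w ⟨hu, hw, h⟩
        exact hu
      symm := ⟨by
        rintro u w ⟨hu, hw, h⟩
        exact ⟨hw, hu, h.symm⟩⟩ }
  refine ⟨H, ⟨?_, i, ?_⟩, ?_⟩
  · have e : H.coe ≃g T :=
      { toFun := fun x => ⟨x.1, x.2⟩
        invFun := fun x => ⟨x.1, x.2⟩
        left_inv := fun x => rfl
        right_inv := fun x => rfl
        map_rel_iff' := by
          intro a b
          constructor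
          · intro h
            exact ⟨a.2, b.2, h⟩
          · rintro ⟨_, _, h⟩
            exact h }
    exact e.isTree_iff.2 hTree
  · rintro ⟨e, he⟩ heH
    induction e using Sym2.ind with
    | _ u w =>
      obtain ⟨hu, hw, h⟩ := (heH : H.Adj u w)
      have h1 := hT h
      have h2 : (colG G c i).Adj u w := h1
      exact h2.2
  · intro w hw
    show w ∈ S
    rw [ConnectedComponent.mem_supp_iff, ConnectedComponent.eq]
    exact hw.symm

/-- A cover by monochromatic components gives a cover by monochromatic trees. -/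
theorem coverNum_le_of_comp {G : SimpleGraph V} {c : G.edgeSet → Fin r}
    (T : Finset (Fin r × V)) (hT : ∀ w, ∃ p ∈ T, (colG G c p.1).Reachable p.2 w) :
    coverNum G c ≤ T.card := by
  classical
  choose H hH using fun p : Fin r × V => exists_monoTree G c p.1 p.2
  have hmem : (T.image H).card ∈
      {k : ℕ | ∃ 𝒯 : Finset G.Subgraph, 𝒯.card = k ∧ IsTreeCover G c 𝒯} := by
    refine ⟨T.image H, rfl, ?_, ?_⟩
    · intro K hK
      obtain ⟨p, _, rfl⟩ := Finset.mem_image.1 hK
      exact (hH p).1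
    · intro w
      obtain ⟨p, hp, hr⟩ := hT w
      exact ⟨H p, Finset.mem_image_of_mem _ hp, (hH p).2 w hr⟩
  exact (Nat.sInf_le hmem).trans Finset.card_image_le

/-- A minimum cover by monochromatic trees gives a cover by as many components. -/
theorem exists_comp_cover [Finite V] (G : SimpleGraph V) (c : G.edgeSet → Fin r) (i₀ : Fin r) :
    ∃ T : Finset (Fin r × V), T.card ≤ coverNum G c ∧
      ∀ w, ∃ p ∈ T, (colG G c p.1).Reachable p.2 w := by
  classical
  have := Fintype.ofFinite V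
  have hne : {k : ℕ | ∃ 𝒯 : Finset G.Subgraph, 𝒯.card = k ∧ IsTreeCover G c 𝒯}.Nonempty := by
    choose H hH using fun v : V => exists_monoTree G c i₀ v
    refine ⟨_, Finset.univ.image H, rfl, ?_, ?_⟩
    · intro K hK
      obtain ⟨p, _, rfl⟩ := Finset.mem_image.1 hK
      exact (hH p).1
    · intro w
      exact ⟨H w, Finset.mem_image_of_mem _ (Finset.mem_univ _), (hH w).2 w (Reachable.refl _)⟩
  obtain ⟨𝒯, hcard, hmono, hcov⟩ := Nat.sInf_mem hne
  choose i v hv hr using fun H : {H // H ∈ 𝒯} => (hmono H.1 H.2).reach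
  refine ⟨𝒯.attach.image (fun H => (i H, v H)), ?_, ?_⟩
  · refine Finset.card_image_le.trans ?_
    rw [Finset.card_attach]
    exact hcard.le
  · intro w
    obtain ⟨H, hH, hw⟩ := hcov w
    exact ⟨(i ⟨H, hH⟩, v ⟨H, hH⟩),
      Finset.mem_image_of_mem (fun H => (i H, v H)) (Finset.mem_attach _ ⟨H, hH⟩), hr ⟨H, hH⟩ w hw⟩

theorem coverNum_le_card [Fintype V] (G : SimpleGraph V) (c : G.edgeSet → Fin r) (i₀ : Fin r) :
    coverNum G c ≤ Fintype.card V := by
  classical
  refine (coverNum_le_of_comp (Finset.univ.image (fun v => (i₀, v))) ?_).trans ?_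
  · intro w
    exact ⟨(i₀, w), Finset.mem_image_of_mem _ (Finset.mem_univ _), Reachable.refl _⟩
  · exact Finset.card_image_le.trans le_rfl

theorem bddAbove_coverNum [Fintype V] (G : SimpleGraph V) (i₀ : Fin r) :
    BddAbove (Set.range (fun c : G.edgeSet → Fin r => coverNum G c)) := by
  refine ⟨Fintype.card V, ?_⟩
  rintro k ⟨c, rfl⟩
  exact coverNum_le_card G c i₀

theorem tc_le {G : SimpleGraph V} {k : ℕ} (h : ∀ c : G.edgeSet → Fin r, coverNum G c ≤ k) :
    tc r G ≤ k := by
  apply csSup_le'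
  rintro _ ⟨c, rfl⟩
  exact h c

theorem coverNum_le_tc [Fintype V] {G : SimpleGraph V} (c : G.edgeSet → Fin r) (i₀ : Fin r) :
    coverNum G c ≤ tc r G :=
  le_csSup (bddAbove_coverNum G i₀) ⟨c, rfl⟩

/-- The supremum in the definition of `tc` is attained: it is the maximum. -/
theorem tc_isGreatest [Fintype V] (G : SimpleGraph V) (i₀ : Fin r) :
    IsGreatest (Set.range (fun c : G.edgeSet → Fin r => coverNum G c)) (tc r G) :=
  ⟨Nat.sSup_mem ⟨_, ⟨fun _ => i₀, rfl⟩⟩ (bddAbove_coverNum G i₀),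
    fun _ ⟨c, hc⟩ => hc ▸ coverNum_le_tc c i₀⟩

/-- Lower bound via labels: if every edge `uw` of colour `i` has `lab i u = lab i w` and no set
of fewer than `k` pairs (colour, label) meets every vertex, then `k ≤ t(G, c)`. -/
theorem le_coverNum_of_labels [Fintype V] {G : SimpleGraph V} {c : G.edgeSet → Fin r}
    (i₀ : Fin r) {L : Type} (lab : Fin r → V → L)
    (hlab : ∀ (u w : V) (h : G.Adj u w), lab (c ⟨s(u, w), h⟩) u = lab (c ⟨s(u, w), h⟩) w)
    (k : ℕ) (hk : ∀ T : Finset (Fin r × L), T.card < k → ∃ v, ∀ i, (i, lab i v) ∉ T) :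
    k ≤ coverNum G c := by
  classical
  obtain ⟨T, hT, hcov⟩ := exists_comp_cover G c i₀
  by_contra hlt
  push Not at hlt
  obtain ⟨v, hv⟩ := hk (T.image (fun p => (p.1, lab p.1 p.2)))
    ((Finset.card_image_le.trans hT).trans_lt hlt)
  obtain ⟨p, hp, hr⟩ := hcov v
  have hconst : ∀ x y, (colG G c p.1).Reachable x y → lab p.1 x = lab p.1 y := by
    intro x y hxy
    obtain ⟨w⟩ := hxy
    induction w with
    | nil => rfl
    | cons h _ ih =>
      obtain ⟨h1, h2⟩ := h
      rw [← ih, ← h2]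
      exact hlab _ _ h1
  apply hv p.1
  rw [Finset.mem_image]
  exact ⟨p, hp, by rw [hconst _ _ hr]⟩

/-- The complete bipartite graph `K_{n,m}`. -/
abbrev K (n m : ℕ) : SimpleGraph (Fin n ⊕ Fin m) := completeBipartiteGraph (Fin n) (Fin m)

theorem adj_K {n m : ℕ} (a : Fin n) (b : Fin m) : (K n m).Adj (Sum.inl a) (Sum.inr b) := by
  simp [K]

/-- Lower bound for complete bipartite graphs via labels. -/
theorem le_tc_of_labels {n m r k : ℕ} (i₀ : Fin r) {L : Type} (f : Fin r → Fin n → L)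
    (g : Fin r → Fin m → L) (hfg : ∀ a b, ∃ i, f i a = g i b)
    (hk : ∀ T : Finset (Fin r × L), T.card < k →
      (∃ a, ∀ i, (i, f i a) ∉ T) ∨ (∃ b, ∀ i, (i, g i b) ∉ T)) :
    k ≤ tc r (K n m) := by
  classical
  let lab : Fin r → Fin n ⊕ Fin m → L := fun i => Sum.elim (f i) (g i)
  have hex : ∀ e : (K n m).edgeSet, ∃ i : Fin r, ∀ u w, s(u, w) = (e : Sym2 _) →
      lab i u = lab i w := by
    rintro ⟨e, he⟩
    induction e using Sym2.ind with
    | _ u w =>
      have h : (K n m).Adj u w := he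
      have key : ∀ (a : Fin n) (b : Fin m), ∃ i : Fin r, ∀ x y,
          s(x, y) = s((Sum.inl a : Fin n ⊕ Fin m), Sum.inr b) → lab i x = lab i y := by
        intro a b
        obtain ⟨i, hi⟩ := hfg a b
        refine ⟨i, ?_⟩
        intro x y hxy
        rcases Sym2.eq_iff.1 hxy with ⟨rfl, rfl⟩ | ⟨rfl, rfl⟩
        · exact hi
        · exact hi.symm
      rcases u with a | b <;> rcases w with a' | b'
      · simp [K] at h
      · exact key a b'
      · obtain ⟨i, hi⟩ := key a' b
        exact ⟨i, fun x y hxy => hi x y (hxy.trans Sym2.eq_swap)⟩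
      · simp [K] at h
  choose c hc using hex
  refine le_trans ?_ (coverNum_le_tc c i₀)
  refine le_coverNum_of_labels i₀ lab (fun u w h => hc _ u w rfl) k ?_
  intro T hT
  rcases hk T hT with ⟨a, ha⟩ | ⟨b, hb⟩
  · exact ⟨Sum.inl a, ha⟩
  · exact ⟨Sum.inr b, hb⟩

/-- The trivial upper bound `2r - 1`. -/
theorem tc_le_two_mul_sub_one {n m r : ℕ} (hn : 0 < n) (hm : 0 < m) :
    tc r (K n m) ≤ 2 * r - 1 := by
  classical
  apply tc_le
  intro c
  let x : Fin n ⊕ Fin m := Sum.inl ⟨0, hn⟩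
  let y : Fin n ⊕ Fin m := Sum.inr ⟨0, hm⟩
  have hxy : (K n m).Adj x y := adj_K _ _
  let i₁ := c ⟨s(x, y), hxy⟩
  let T : Finset (Fin r × (Fin n ⊕ Fin m)) :=
    (Finset.univ.image (fun i => (i, x))) ∪ ((Finset.univ.erase i₁).image (fun i => (i, y)))
  have hr : 0 < r := i₁.pos
  have hcard : T.card ≤ 2 * r - 1 := by
    refine (Finset.card_union_le _ _).trans ?_
    have h1 : (Finset.univ.image (fun i : Fin r => (i, x))).card ≤ r :=
      Finset.card_image_le.trans (by simp)
    have h2 : ((Finset.univ.erase i₁).image (fun i => (i, y))).card ≤ r - 1 :=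
      Finset.card_image_le.trans (by
        rw [Finset.card_erase_of_mem (Finset.mem_univ _)]
        simp)
    omega
  refine (coverNum_le_of_comp T ?_).trans hcard
  intro w
  have hmx : ∀ i : Fin r, (i, x) ∈ T := fun i =>
    Finset.mem_union_left _ (Finset.mem_image_of_mem _ (Finset.mem_univ i))
  rcases w with a | b
  · have h : (K n m).Adj (Sum.inl a) y := adj_K _ _
    by_cases hi : c ⟨s(Sum.inl a, y), h⟩ = i₁
    · refine ⟨(i₁, x), hmx _, ?_⟩
      have h1 : (colG (K n m) c i₁).Adj x y := ⟨hxy, rfl⟩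
      have h2 : (colG (K n m) c i₁).Adj (Sum.inl a) y := ⟨h, hi⟩
      exact h1.reachable.trans h2.symm.reachable
    · refine ⟨(c ⟨s(Sum.inl a, y), h⟩, y), Finset.mem_union_right _ ?_, ?_⟩
      · exact Finset.mem_image_of_mem (fun i => (i, y)) (Finset.mem_erase.2 ⟨hi, Finset.mem_univ _⟩)
      · have h2 : (colG (K n m) c (c ⟨s(Sum.inl a, y), h⟩)).Adj (Sum.inl a) y := ⟨h, rfl⟩
        exact h2.symm.reachable
  · have h : (K n m).Adj x (Sum.inr b) := adj_K _ _
    refine ⟨(c ⟨s(x, Sum.inr b), h⟩, x), hmx _, ?_⟩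
    have h2 : (colG (K n m) c (c ⟨s(x, Sum.inr b), h⟩)).Adj x (Sum.inr b) := ⟨h, rfl⟩
    exact h2.reachable

/-- A perfect matching covers `K_{n,n}` by `n` trees. -/
theorem tc_le_card {n r : ℕ} : tc r (K n n) ≤ n := by
  classical
  apply tc_le
  intro c
  let T : Finset (Fin r × (Fin n ⊕ Fin n)) :=
    Finset.univ.image (fun a : Fin n =>
      (c ⟨s(Sum.inl a, Sum.inr a), adj_K a a⟩, (Sum.inl a : Fin n ⊕ Fin n)))
  have hcard : T.card ≤ n := Finset.card_image_le.trans (by simp)
  refine (coverNum_le_of_comp T ?_).trans hcard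
  have hm : ∀ a, (c ⟨s(Sum.inl a, Sum.inr a), adj_K a a⟩, (Sum.inl a : Fin n ⊕ Fin n)) ∈ T :=
    fun a => Finset.mem_image_of_mem (fun a : Fin n =>
      (c ⟨s(Sum.inl a, Sum.inr a), adj_K a a⟩, (Sum.inl a : Fin n ⊕ Fin n))) (Finset.mem_univ a)
  intro w
  rcases w with a | a
  · exact ⟨_, hm a, Reachable.refl _⟩
  · refine ⟨_, hm a, ?_⟩
    have h2 : (colG (K n n) c (c ⟨s(Sum.inl a, Sum.inr a), adj_K a a⟩)).Adj
        (Sum.inl a) (Sum.inr a) := ⟨adj_K a a, rfl⟩
    exact h2.reachable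

/-- Duplicating vertices: `tc_r` is monotone in both sizes. -/
theorem tc_mono {n m n' m' r : ℕ} (hn : 0 < n) (hm : 0 < m) (hnn : n ≤ n') (hmm : m ≤ m')
    (i₀ : Fin r) : tc r (K n m) ≤ tc r (K n' m') := by
  classical
  apply tc_le
  intro c
  let α : Fin n' → Fin n := fun x => ⟨min x.1 (n - 1), by omega⟩
  let β : Fin m' → Fin m := fun x => ⟨min x.1 (m - 1), by omega⟩
  let φ : Fin n' ⊕ Fin m' → Fin n ⊕ Fin m := Sum.map α β
  have hφ : ∀ u w, (K n' m').Adj u w → (K n m).Adj (φ u) (φ w) := by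
    intro u w h
    rcases u with a | b <;> rcases w with a' | b' <;> simp_all [K, φ]
  let Φ : K n' m' →g K n m := ⟨φ, fun {u w} h => hφ u w h⟩
  let c' : (K n' m').edgeSet → Fin r := fun e => c (Φ.mapEdgeSet e)
  refine le_trans ?_ (coverNum_le_tc c' i₀)
  obtain ⟨T, hT, hcov⟩ := exists_comp_cover (K n' m') c' i₀
  have hsurj : ∀ w, ∃ w', φ w' = w := by
    intro w
    rcases w with a | b
    · refine ⟨Sum.inl ⟨a.1, by omega⟩, ?_⟩
      simp only [φ, Sum.map_inl, α]
      congr 1
      apply Fin.ext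
      simp only
      omega
    · refine ⟨Sum.inr ⟨b.1, by omega⟩, ?_⟩
      simp only [φ, Sum.map_inr, β]
      congr 1
      apply Fin.ext
      simp only
      omega
  refine (coverNum_le_of_comp (T.image (fun p => (p.1, φ p.2))) ?_).trans
    (Finset.card_image_le.trans hT)
  intro w
  obtain ⟨w', rfl⟩ := hsurj w
  obtain ⟨p, hp, hr⟩ := hcov w'
  refine ⟨(p.1, φ p.2), Finset.mem_image_of_mem (fun p => (p.1, φ p.2)) hp, ?_⟩
  let Ψ : colG (K n' m') c' p.1 →g colG (K n m) c p.1 :=
    { toFun := φ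
      map_rel' := by
        intro u w h
        obtain ⟨h1, h2⟩ := h
        exact ⟨hφ u w h1, h2⟩ }
  exact hr.map Ψ

end Pool.Agent.Lib.MP_6f811f_co
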