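import Pool.Agent.Lib.MP_6f811f_co.Defs

/-!
Colourings from affine planes over finite fields.
-/

set_option autoImplicit false

namespace Pool.Agent.Lib.MP_6f811f_co

open SimpleGraph MvPolynomial

theorem exists_surj {X : Type} [Fintype X] [Nonempty X] {n : ℕ} (h : Fintype.card X ≤ n) :
    ∃ φ : Fin n → X, Function.Surjective φ := by
  have h0 : 0 < Fintype.card X := Fintype.card_pos
  refine ⟨fun x => (Fintype.equivFin X).symm ⟨min x.1 (Fintype.card X - 1), by omega⟩, ?_⟩
  intro y
  refine ⟨⟨(Fintype.equivFin X y).1, by omega⟩, ?_⟩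
  rw [Equiv.symm_apply_eq]
  apply Fin.ext
  simp only
  omega

/-- Points `(x, w x)` meeting all lines that avoid the origin: at least `2(q-1)` are needed. -/
theorem blocking {F : Type} [Field F] [Fintype F] (T : Finset (F × F))
    (hT : ∀ a b : F, (a, b) ≠ (0, 0) → ∃ p ∈ T, p.2 * (a + b * p.1) = 1) :
    2 * (Fintype.card F - 1) ≤ T.card := by
  classical
  by_contra hlt
  push Not at hlt
  let P : MvPolynomial (Fin 2) F := ∏ p ∈ T, (1 - C p.2 * (X 0 + X 1 * C p.1))
  have hdeg : P.totalDegree ≤ T.card := by
    refine (totalDegree_finsetProd _ _).trans ?_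
    refine (Finset.sum_le_card_nsmul _ _ 1 ?_).trans (by simp)
    intro p _
    refine (totalDegree_sub _ _).trans ?_
    apply max_le
    · simp
    · refine (totalDegree_mul _ _).trans ?_
      rw [totalDegree_C, zero_add]
      refine (totalDegree_add _ _).trans ?_
      apply max_le
      · rw [totalDegree_X]
      · refine (totalDegree_mul _ _).trans ?_
        rw [totalDegree_C, totalDegree_X]
  have hsum := MvPolynomial.sum_eval_eq_zero P (by
    rw [Fintype.card_fin]
    omega)
  have heval : ∀ z : Fin 2 → F, eval z P = if z = 0 then 1 else 0 := by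
    intro z
    have h1 : eval z P = ∏ p ∈ T, (1 - p.2 * (z 0 + z 1 * p.1)) := by
      simp [P, eval_prod]
    rw [h1]
    split_ifs with hz
    · subst hz
      simp
    · have hne : (z 0, z 1) ≠ (0, 0) := by
        intro h
        apply hz
        rw [Prod.mk.injEq] at h
        funext i
        fin_cases i
        · exact h.1
        · exact h.2
      obtain ⟨p, hp, h2⟩ := hT (z 0) (z 1) hne
      apply Finset.prod_eq_zero hp
      rw [h2, sub_self]
  simp only [heval] at hsum
  simp at hsum

/-- For a prime power `r`, `2r - 2` trees are needed for some colouring of `K_{n,n}` as soon as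
`n ≥ r(r-1)`. -/
theorem field_lower {F : Type} [Field F] [Fintype F] {n m : ℕ}
    (hn : Fintype.card F - 1 ≤ n) (hm : Fintype.card F * (Fintype.card F - 1) ≤ m) :
    2 * Fintype.card F - 2 ≤ tc (Fintype.card F) (K n m) := by
  classical
  have hq : 1 < Fintype.card F := Fintype.one_lt_card
  have cX : Fintype.card {x : F // x ≠ 0} = Fintype.card F - 1 := by
    rw [← Fintype.card_units]
    exact Fintype.card_congr unitsEquivNeZero.symm
  have cY : Fintype.card (F × {x : F // x ≠ 0}) = Fintype.card F * (Fintype.card F - 1) := by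
    rw [Fintype.card_prod, cX]
  have : Nonempty {x : F // x ≠ 0} := ⟨⟨1, one_ne_zero⟩⟩
  obtain ⟨α, hα⟩ := exists_surj (X := {x : F // x ≠ 0}) (n := n) (by rw [cX]; exact hn)
  obtain ⟨β, hβ⟩ := exists_surj (X := F × {x : F // x ≠ 0}) (n := m) (by rw [cY]; exact hm)
  let e : Fin (Fintype.card F) ≃ F := (Fintype.equivFin F).symm
  let f : Fin (Fintype.card F) → Fin n → F ⊕ (F × F) := fun _ a => Sum.inl (α a).1
  let g : Fin (Fintype.card F) → Fin m → F ⊕ (F × F) := fun i b =>
    if e i = (β b).1 then Sum.inr ((β b).1, (β b).2.1)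
    else Sum.inl ((β b).2.1 / (e i - (β b).1))
  refine le_tc_of_labels ⟨0, by omega⟩ f g ?_ ?_
  · intro a b
    refine ⟨e.symm ((β b).1 + (β b).2.1 / (α a).1), ?_⟩
    have hx := (α a).2
    have hu := (β b).2.2
    have hux : (β b).2.1 / (α a).1 ≠ 0 := div_ne_zero hu hx
    simp only [f, g, Equiv.apply_symm_apply]
    rw [if_neg (by simpa using hux)]
    congr 1
    rw [add_sub_cancel_left]
    field_simp
  · intro T hT
    by_contra hcon
    push Not at hcon
    obtain ⟨hA, hB⟩ := hcon
    let ψ : Fin (Fintype.card F) × (F ⊕ (F × F)) → F × F := fun p =>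
      match p.2 with
      | Sum.inl x => (e p.1, x)
      | Sum.inr vu => (vu.1 + 1, vu.2)
    have hblock := blocking (T.image ψ) (by
      intro a b hab
      by_cases hb : b = 0
      · subst hb
        have ha : a ≠ 0 := by
          rintro rfl
          exact hab rfl
        obtain ⟨y, hy⟩ := hα ⟨a⁻¹, inv_ne_zero ha⟩
        obtain ⟨i, hi⟩ := hA y
        refine ⟨ψ (i, f i y), Finset.mem_image_of_mem _ hi, ?_⟩
        simp only [ψ, f, hy]
        rw [zero_mul, add_zero, inv_mul_cancel₀ ha]
      · obtain ⟨y, hy⟩ := hβ (-a / b, ⟨b⁻¹, inv_ne_zero hb⟩)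
        obtain ⟨i, hi⟩ := hB y
        refine ⟨ψ (i, g i y), Finset.mem_image_of_mem _ hi, ?_⟩
        simp only [g, hy]
        split_ifs with h
        · simp only [ψ]
          field_simp
          ring
        · simp only [ψ]
          have h1 : e i - -a / b ≠ 0 := sub_ne_zero.2 h
          have h2 : a + b * e i ≠ 0 := by
            intro h2
            apply h1
            field_simp
            linear_combination h2
          have h3 : b⁻¹ / (e i - -a / b) = (a + b * e i)⁻¹ := by
            rw [div_eq_iff h1]
            field_simp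
            ring
          rw [h3, inv_mul_cancel₀ h2])
    have h1 := (hblock.trans Finset.card_image_le).trans_lt hT
    omega

theorem primePow_lower {r : ℕ} (hr : IsPrimePow r) {n m : ℕ} (hn : r - 1 ≤ n)
    (hm : r * (r - 1) ≤ m) : 2 * r - 2 ≤ tc r (K n m) := by
  obtain ⟨p, k, hp, hk, rfl⟩ := (isPrimePow_nat_iff r).1 hr
  have : Fact p.Prime := ⟨hp⟩
  have := Fintype.ofFinite (GaloisField p k)
  have hc : Fintype.card (GaloisField p k) = p ^ k := by
    rw [← Nat.card_eq_fintype_card]
    exact GaloisField.card p k hk.ne'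
  have h := field_lower (F := GaloisField p k) (n := n) (m := m) (by rw [hc]; exact hn)
    (by rw [hc]; exact hm)
  rwa [hc] at h

end Pool.Agent.Lib.MP_6f811f_co
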