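import Pool.Agent.Lib.MP_6f811f_co.GenDefs

/-!
General boards: the allowed blocks.
-/

set_option autoImplicit false

namespace Pool.Agent.Lib.MP_6f811f_co

open Finset

theorem mem_alw {n : ℕ} {m1 m2 : ℕ} {c : Cls n} {x : Fin m1 ⊕ Fin m2} {d : Blk n} :
    d ∈ alw n c x ↔ Alw n c x d := by
  unfold alw
  simp

theorem alw_kind (n : ℕ) {m1 m2 : ℕ} (c : Cls n) (x : Fin m1 ⊕ Fin m2) (d : Blk n)
    (hd : d ∈ alw n c x) : kd d = kd x := by
  rw [mem_alw] at hd
  rcases c with ρ | α <;> rcases x with j | j <;> rcases d with h | h <;>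
    first
      | rfl
      | exact absurd hd (by simp [Alw])

theorem alw_mod_inj {N a j j' : ℕ} (hj : j < N) (hj' : j' < N)
    (h : (a + j) % N = (a + j') % N) : j = j' := by
  have h1 : a + j ≡ a + j' [MOD N] := h
  exact (Nat.ModEq.add_left_cancel' a h1).eq_of_lt_of_lt hj hj'

theorem alw_succ_ne {N a : ℕ} (hN : 2 ≤ N) : a % N ≠ (a + 1) % N := by
  intro h
  have := alw_mod_inj (N := N) (a := a) (j := 0) (j' := 1) (by omega) (by omega) (by simpa using h)
  omega

theorem alw_card (n : ℕ) (hn : 2 ≤ n) {m1 m2 : ℕ} (c : Cls n) (x : Fin m1 ⊕ Fin m2) :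
    (alw n c x).card = pc n c := by
  rcases c with ρ | α <;> rcases x with j | j
  · have h : alw n (Sum.inl ρ : Cls n) (Sum.inl j : Fin m1 ⊕ Fin m2) =
        (univ : Finset (Fin n)).map Function.Embedding.inl := by
      ext d
      rw [mem_alw]
      rcases d with h | h <;> simp [Alw]
    rw [h, Finset.card_map, Finset.card_univ, Fintype.card_fin]
    rfl
  · have hlt : ((ρ : ℕ) + j) % (n + 1) < n + 1 := Nat.mod_lt _ (by omega)
    have h : alw n (Sum.inl ρ : Cls n) (Sum.inr j : Fin m1 ⊕ Fin m2) =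
        ((univ : Finset (Fin (n + 1))).erase ⟨((ρ : ℕ) + j) % (n + 1), hlt⟩).map
          Function.Embedding.inr := by
      ext d
      rw [mem_alw]
      rcases d with h | h <;> simp [Alw, Fin.ext_iff]
    rw [h, Finset.card_map, Finset.card_erase_of_mem (Finset.mem_univ _), Finset.card_univ,
      Fintype.card_fin]
    rfl
  · have hlt : ((α : ℕ) + j) % n < n := Nat.mod_lt _ (by omega)
    have h : alw n (Sum.inr α : Cls n) (Sum.inl j : Fin m1 ⊕ Fin m2) =
        ((univ : Finset (Fin n)).erase ⟨((α : ℕ) + j) % n, hlt⟩).map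
          Function.Embedding.inl := by
      ext d
      rw [mem_alw]
      rcases d with h | h <;> simp [Alw, Fin.ext_iff]
    rw [h, Finset.card_map, Finset.card_erase_of_mem (Finset.mem_univ _), Finset.card_univ,
      Fintype.card_fin]
    rfl
  · have hlt : ((α : ℕ) + j) % (n + 1) < n + 1 := Nat.mod_lt _ (by omega)
    have hlt' : ((α : ℕ) + j + 1) % (n + 1) < n + 1 := Nat.mod_lt _ (by omega)
    have hne : ((α : ℕ) + j) % (n + 1) ≠ ((α : ℕ) + j + 1) % (n + 1) := alw_succ_ne (by omega)
    have h : alw n (Sum.inr α : Cls n) (Sum.inr j : Fin m1 ⊕ Fin m2) =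
        (((univ : Finset (Fin (n + 1))).erase ⟨((α : ℕ) + j) % (n + 1), hlt⟩).erase
          ⟨((α : ℕ) + j + 1) % (n + 1), hlt'⟩).map Function.Embedding.inr := by
      ext d
      rw [mem_alw]
      rcases d with h | h
      · simp [Alw]
      · simp only [Alw, ne_eq, Finset.mem_map, Finset.mem_erase, Finset.mem_univ, and_true,
          Function.Embedding.inr_apply, Sum.inr.injEq, Fin.ext_iff]
        constructor
        · rintro ⟨a1, a2⟩
          exact ⟨h, ⟨a2, a1⟩, rfl⟩
        · rintro ⟨a, ⟨a1, a2⟩, a3⟩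
          rw [← a3]
          exact ⟨a2, a1⟩
    have hmem : (⟨((α : ℕ) + j + 1) % (n + 1), hlt'⟩ : Fin (n + 1)) ∈
        (univ : Finset (Fin (n + 1))).erase ⟨((α : ℕ) + j) % (n + 1), hlt⟩ := by
      rw [Finset.mem_erase]
      refine ⟨?_, Finset.mem_univ _⟩
      intro he
      exact hne (Fin.ext_iff.1 he).symm
    rw [h, Finset.card_map, Finset.card_erase_of_mem hmem,
      Finset.card_erase_of_mem (Finset.mem_univ _), Finset.card_univ, Fintype.card_fin]
    rfl

theorem alw_miss (n : ℕ) (hn : 2 ≤ n) {m1 m2 : ℕ} (h1 : m1 ≤ n) (h2 : m2 ≤ n + 1) (c : Cls n)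
    (d : Blk n) :
    (univ.filter (fun x : Fin m1 ⊕ Fin m2 => kd x = kd d ∧ d ∉ alw n c x)).card ≤ 2 := by
  classical
  rcases c with ρ | α <;> rcases d with h | h
  · -- full row, kind 1: nothing is missing
    have he : univ.filter (fun x : Fin m1 ⊕ Fin m2 => kd x = kd (Sum.inl h : Blk n) ∧
        (Sum.inl h : Blk n) ∉ alw n (Sum.inl ρ : Cls n) x) = ∅ := by
      rw [Finset.filter_eq_empty_iff]
      rintro (j | j) _ ⟨hk, hm⟩
      · exact hm (mem_alw.2 trivial)
      · exact absurd hk (by simp [kd])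
    rw [he]
    simp
  · have hle : (univ.filter (fun x : Fin m1 ⊕ Fin m2 => kd x = kd (Sum.inr h : Blk n) ∧
        (Sum.inr h : Blk n) ∉ alw n (Sum.inl ρ : Cls n) x)).card ≤ 1 := by
      rw [Finset.card_le_one]
      rintro (j | j) hj (j' | j') hj' <;> rw [Finset.mem_filter] at hj hj'
      · exact absurd hj.2.1 (by simp [kd])
      · exact absurd hj.2.1 (by simp [kd])
      · exact absurd hj'.2.1 (by simp [kd])
      · have a1 := hj.2.2
        have a2 := hj'.2.2
        rw [mem_alw] at a1 a2
        simp only [Alw, ne_eq, not_not] at a1 a2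
        congr 1
        exact Fin.ext (alw_mod_inj (lt_of_lt_of_le j.2 h2) (lt_of_lt_of_le j'.2 h2)
          (a1.symm.trans a2))
    omega
  · have hle : (univ.filter (fun x : Fin m1 ⊕ Fin m2 => kd x = kd (Sum.inl h : Blk n) ∧
        (Sum.inl h : Blk n) ∉ alw n (Sum.inr α : Cls n) x)).card ≤ 1 := by
      rw [Finset.card_le_one]
      rintro (j | j) hj (j' | j') hj' <;> rw [Finset.mem_filter] at hj hj'
      · have a1 := hj.2.2
        have a2 := hj'.2.2
        rw [mem_alw] at a1 a2
        simp only [Alw, ne_eq, not_not] at a1 a2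
        congr 1
        exact Fin.ext (alw_mod_inj (lt_of_lt_of_le j.2 h1) (lt_of_lt_of_le j'.2 h1)
          (a1.symm.trans a2))
      · exact absurd hj'.2.1 (by simp [kd])
      · exact absurd hj.2.1 (by simp [kd])
      · exact absurd hj.2.1 (by simp [kd])
    omega
  · have hsub : univ.filter (fun x : Fin m1 ⊕ Fin m2 => kd x = kd (Sum.inr h : Blk n) ∧
        (Sum.inr h : Blk n) ∉ alw n (Sum.inr α : Cls n) x) ⊆
        (univ.filter (fun j : Fin m2 => (h : ℕ) = ((α : ℕ) + j) % (n + 1))).map
          Function.Embedding.inr ∪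
        (univ.filter (fun j : Fin m2 => (h : ℕ) = ((α : ℕ) + j + 1) % (n + 1))).map
          Function.Embedding.inr := by
      rintro (j | j) hj <;> rw [Finset.mem_filter] at hj
      · exact absurd hj.2.1 (by simp [kd])
      · have a1 := hj.2.2
        rw [mem_alw] at a1
        simp only [Alw, ne_eq, not_and_or, not_not] at a1
        rw [Finset.mem_union]
        rcases a1 with a1 | a1
        · left
          rw [Finset.mem_map]
          exact ⟨j, by simp only [Finset.mem_filter, Finset.mem_univ, true_and]; exact a1, rfl⟩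
        · right
          rw [Finset.mem_map]
          exact ⟨j, by simp only [Finset.mem_filter, Finset.mem_univ, true_and]; exact a1, rfl⟩
    refine (Finset.card_le_card hsub).trans ((Finset.card_union_le _ _).trans ?_)
    rw [Finset.card_map, Finset.card_map]
    have b1 : (univ.filter (fun j : Fin m2 => (h : ℕ) = ((α : ℕ) + j) % (n + 1))).card ≤ 1 := by
      rw [Finset.card_le_one]
      intro j hj j' hj'
      rw [Finset.mem_filter] at hj hj'
      exact Fin.ext (alw_mod_inj (lt_of_lt_of_le j.2 h2) (lt_of_lt_of_le j'.2 h2)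
        (hj.2.symm.trans hj'.2))
    have b2 : (univ.filter (fun j : Fin m2 => (h : ℕ) = ((α : ℕ) + j + 1) % (n + 1))).card ≤ 1 := by
      rw [Finset.card_le_one]
      intro j hj j' hj'
      rw [Finset.mem_filter] at hj hj'
      have h3 := hj.2.symm.trans hj'.2
      rw [show (α : ℕ) + j + 1 = (α + 1) + j by omega,
        show (α : ℕ) + j' + 1 = (α + 1) + j' by omega] at h3
      exact Fin.ext (alw_mod_inj (lt_of_lt_of_le j.2 h2) (lt_of_lt_of_le j'.2 h2) h3)
    omega

end Pool.Agent.Lib.MP_6f811f_co
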