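import Pool.Agent.Lib.MP_6f811f_co.GenDefs

/-!
General boards: the core estimate.
-/

set_option autoImplicit false
set_option linter.unusedSectionVars false
set_option linter.unusedVariables false

namespace Pool.Agent.Lib.MP_6f811f_co

open Finset

namespace GData

variable {V : Type} [Fintype V] [DecidableEq V] {I J : V → Type} [∀ v, Fintype (I v)]
  [∀ v, Fintype (J v)] [∀ v, DecidableEq (I v)] [∀ v, DecidableEq (J v)] {D : Type} [Fintype D]
  [DecidableEq D] {A B : Set (Finset V)} {lam mu : V → ℝ}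
  {τ δ : ℝ} {n r G K : ℕ} {N q : Bool → ℕ} {kc : (v : V) → J v → Bool} {kb : D → Bool}
  {al : (v : V) → I v → J v → Finset D} {p : (v : V) → I v → ℕ}
  {e : (v : V) → I v → J v → D → ℕ}

/-- The cost of a row. -/
def E (e : (v : V) → I v → J v → D → ℕ) (v : V) (i : I v) : ℕ := ∑ j, ∑ d, e v i j d

/-- The number of blocks hit in a cell. -/
def hit (e : (v : V) → I v → J v → D → ℕ) (v : V) (i : I v) (j : J v) : ℕ :=
  (univ.filter (fun d => e v i j d ≠ 0)).card

theorem hit_le (e : (v : V) → I v → J v → D → ℕ) (v : V) (i : I v) (j : J v) :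
    hit e v i j ≤ ∑ d, e v i j d := by
  rw [hit, Finset.card_eq_sum_ones, Finset.sum_filter]
  apply Finset.sum_le_sum
  intro d _
  split_ifs <;> omega

theorem sum_hit_le (e : (v : V) → I v → J v → D → ℕ) (v : V) (i : I v) :
    ∑ j, hit e v i j ≤ E e v i := Finset.sum_le_sum (fun j _ => hit_le e v i j)

theorem single_le_E (e : (v : V) → I v → J v → D → ℕ) (v : V) (i : I v) (j : J v) (d : D) :
    e v i j d ≤ E e v i :=
  (Finset.single_le_sum (f := fun d => e v i j d) (fun _ _ => Nat.zero_le _)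
    (Finset.mem_univ d)).trans
  (Finset.single_le_sum (f := fun j => ∑ d, e v i j d) (fun _ _ => Nat.zero_le _)
    (Finset.mem_univ j))

/-- The number of columns of kind `κ`. -/
def Mk (kc : (v : V) → J v → Bool) (κ : Bool) (v : V) : ℕ :=
  (univ.filter (fun j : J v => kc v j = κ)).card

theorem card1 (H : GData A B lam mu τ δ n r G K N q kc kb al p e) (v : V) :
    (1 : ℝ) ≤ Fintype.card V := by
  have : 0 < Fintype.card V := Fintype.card_pos_iff.2 ⟨v⟩
  exact_mod_cast this

theorem hδ' (H : GData A B lam mu τ δ n r G K N q kc kb al p e) (v : V) :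
    1000 * (Fintype.card V : ℝ) * δ ≤ τ ^ 2 := by
  have h1 := H.hδ
  have h2 := H.card1 v
  have h3 := H.δ0
  nlinarith [mul_le_mul_of_nonneg_right h2 (mul_nonneg (by linarith : (0:ℝ) ≤ Fintype.card V)
    h3.le)]

theorem hδ1 (H : GData A B lam mu τ δ n r G K N q kc kb al p e) (v : V) :
    1000 * δ ≤ τ ^ 2 := by
  have h1 := H.hδ' v
  have h2 := H.card1 v
  have h3 := H.δ0
  nlinarith [mul_le_mul_of_nonneg_right h2 h3.le]

theorem hδτ (H : GData A B lam mu τ δ n r G K N q kc kb al p e) (v : V) : 1000 * δ ≤ τ := by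
  have h1 := H.hδ1 v
  have h2 := H.τ0
  have h3 := H.τ1
  nlinarith

theorem rpos (H : GData A B lam mu τ δ n r G K N q kc kb al p e) : (0 : ℝ) < r := by
  have h := H.hc
  have : 0 < r := by omega
  exact_mod_cast this

theorem npos (H : GData A B lam mu τ δ n r G K N q kc kb al p e) : (0 : ℝ) < n := by
  by_contra h
  have h1 := H.nbig1
  have h2 := H.δ0
  have h3 : (0 : ℝ) ≤ Fintype.card V := Nat.cast_nonneg _
  push Not at h
  nlinarith

theorem Mk_ge (H : GData A B lam mu τ δ n r G K N q kc kb al p e) (v : V) (κ : Bool) :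
    (mu v - δ) * n ≤ (Mk kc κ v : ℝ) := H.hM v κ

theorem Mk_ge' (H : GData A B lam mu τ δ n r G K N q kc kb al p e) (v : V) (κ : Bool) :
    τ / 2 * n ≤ (Mk kc κ v : ℝ) := by
  have h1 := H.Mk_ge v κ
  have h2 := H.hδτ v
  have h3 := H.muτ v
  have h4 := H.npos
  have h5 := H.τ0
  nlinarith

theorem Mk_le (H : GData A B lam mu τ δ n r G K N q kc kb al p e) (v : V) (κ : Bool) :
    Mk kc κ v ≤ N κ := by
  obtain ⟨b, hb, hv⟩ := H.spanB v
  rw [← H.sumMk b hb κ]
  exact Finset.single_le_sum (f := fun v => (univ.filter (fun j : J v => kc v j = κ)).card)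
    (fun _ _ => Nat.zero_le _) hv

theorem neJ (H : GData A B lam mu τ δ n r G K N q kc kb al p e) (v : V) : Nonempty (J v) := by
  have h1 := H.Mk_ge' v true
  have h2 : 0 < τ / 2 * n := mul_pos (half_pos H.τ0) H.npos
  have h3 : 0 < Mk kc true v := by exact_mod_cast h2.trans_le h1
  obtain ⟨j, _⟩ := Finset.card_pos.1 h3
  exact ⟨j⟩

theorem Gpos (H : GData A B lam mu τ δ n r G K N q kc kb al p e) : 0 < G := by
  have := H.Gbig
  omega

theorem cardDG (H : GData A B lam mu τ δ n r G K N q kc kb al p e) :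
    1 ≤ Fintype.card D * G := by
  have h1 : 0 < n := by exact_mod_cast H.npos
  have h2 := H.Nlo true
  have h3 := H.cardD true
  have h4 : (univ.filter (fun d => kb d = true)).card ≤ Fintype.card D := Finset.card_le_univ _
  exact Nat.mul_pos (by omega) H.Gpos

theorem Ipos (H : GData A B lam mu τ δ n r G K N q kc kb al p e) (v : V) :
    (0 : ℝ) < Fintype.card (I v) := by
  have h1 := H.Ibig v
  have h2 : (0 : ℝ) ≤ (Fintype.card D : ℝ) * G := by positivity
  by_contra h
  push Not at h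
  have := H.δ0
  nlinarith

theorem neI (H : GData A B lam mu τ δ n r G K N q kc kb al p e) (v : V) : Nonempty (I v) := by
  have h1 : 0 < Fintype.card (I v) := by exact_mod_cast H.Ipos v
  exact Fintype.card_pos_iff.1 h1

/-- The total cost. -/
theorem hcR (H : GData A B lam mu τ δ n r G K N q kc kb al p e) :
    ∑ v, ∑ i, (E e v i : ℝ) + 2 ≤ 2 * (r : ℝ) := by
  have h1 := H.hc
  exact_mod_cast h1

/-- Missing blocks in a cell. -/
theorem miss_cell (H : GData A B lam mu τ δ n r G K N q kc kb al p e) (v : V) (i : I v)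
    (j : J v) : (univ.filter (fun d => kb d = kc v j ∧ d ∉ al v i j)).card + p v i =
      N (kc v j) := by
  rw [← H.cardD (kc v j), ← H.al_card v i j]
  have h1 : univ.filter (fun d => kb d = kc v j) =
      univ.filter (fun d => kb d = kc v j ∧ d ∉ al v i j) ∪ al v i j := by
    ext d
    simp only [Finset.mem_filter, Finset.mem_univ, true_and, Finset.mem_union]
    constructor
    · intro h
      by_cases hd : d ∈ al v i j
      · exact Or.inr hd
      · exact Or.inl ⟨h, hd⟩
    · rintro (h | h)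
      · exact h.1
      · exact H.al_kind v i j d h
  rw [h1, Finset.card_union_of_disjoint]
  rw [Finset.disjoint_left]
  intro d hd
  exact (Finset.mem_filter.1 hd).2.2

/-- A set of blocks of the kind of the column, all missing or hit. -/
theorem card_le_hit (H : GData A B lam mu τ δ n r G K N q kc kb al p e) {v : V} {i : I v}
    {j : J v} {Q : Finset D} (hQ : ∀ d ∈ Q, kb d = kc v j)
    (h : ∀ d ∈ Q, d ∉ al v i j ∨ e v i j d ≠ 0) :
    Q.card + p v i ≤ N (kc v j) + hit e v i j := by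
  have h1 : Q ⊆ univ.filter (fun d => kb d = kc v j ∧ d ∉ al v i j) ∪
      univ.filter (fun d => e v i j d ≠ 0) := by
    intro d hd
    rw [Finset.mem_union, Finset.mem_filter, Finset.mem_filter]
    rcases h d hd with h2 | h2
    · exact Or.inl ⟨Finset.mem_univ _, hQ d hd, h2⟩
    · exact Or.inr ⟨Finset.mem_univ _, h2⟩
  have h2 := (Finset.card_le_card h1).trans (Finset.card_union_le _ _)
  have h3 := H.miss_cell v i j
  rw [hit]
  omega

theorem card_le_hit2 (H : GData A B lam mu τ δ n r G K N q kc kb al p e) {v : V} {i : I v}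
    {j : J v} {Q : Finset D} (hQ : ∀ d ∈ Q, kb d = kc v j)
    (h : ∀ d ∈ Q, d ∉ al v i j ∨ e v i j d ≠ 0) :
    Q.card ≤ hit e v i j + 2 := by
  have h1 := H.card_le_hit hQ h
  have h2 := H.p_lo v i (kc v j)
  omega

/-- Types where some block is unhit in few rows. -/
def UU (G : ℕ) (al : (v : V) → I v → J v → Finset D) (e : (v : V) → I v → J v → D → ℕ) (v : V)
    (d : D) : Finset (I v) :=
  univ.filter (fun i => E e v i < G ∧ ∃ j, d ∈ al v i j ∧ e v i j d = 0)

def ZA (G : ℕ) (al : (v : V) → I v → J v → Finset D) (e : (v : V) → I v → J v → D → ℕ) :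
    Finset V :=
  univ.filter (fun v => ∃ d, (UU G al e v d).card < Fintype.card D * G)

/-- The bad rows. -/
def Bd (G : ℕ) (e : (v : V) → I v → J v → D → ℕ) : Finset (Σ v, I v) :=
  univ.filter (fun x => G ≤ E e x.1 x.2)

theorem Bd_card (H : GData A B lam mu τ δ n r G K N q kc kb al p e) :
    (Bd G e).card * G ≤ 2 * r := by
  calc (Bd G e).card * G = ∑ x ∈ Bd G e, G := by rw [Finset.sum_const, smul_eq_mul]
    _ ≤ ∑ x ∈ Bd G e, E e x.1 x.2 :=
      Finset.sum_le_sum (fun x hx => (Finset.mem_filter.1 hx).2)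
    _ ≤ ∑ x : (Σ v, I v), E e x.1 x.2 := Finset.sum_le_sum_of_subset (Finset.subset_univ _)
    _ = ∑ v, ∑ i, E e v i := by rw [Fintype.sum_sigma]
    _ ≤ 2 * r := by
      have := H.hc
      have h : ∑ v, ∑ i, E e v i = ∑ v, ∑ i, ∑ j, ∑ d, e v i j d := rfl
      omega

/-- Disjoint sets of representatives. -/
theorem exists_reps {X : Type} [DecidableEq X] (G : ℕ) (U : D → Finset X)
    (hU : ∀ d, Fintype.card D * G ≤ (U d).card) :
    ∃ φ : D × Fin G → X, Function.Injective φ ∧ ∀ x, φ x ∈ U x.1 := by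
  rw [← Finset.all_card_le_biUnion_card_iff_exists_injective (fun x : D × Fin G => U x.1)]
  intro s
  rcases s.eq_empty_or_nonempty with rfl | ⟨x, hx⟩
  · simp
  · calc s.card ≤ Fintype.card (D × Fin G) := Finset.card_le_univ _
      _ = Fintype.card D * G := by rw [Fintype.card_prod, Fintype.card_fin]
      _ ≤ (U x.1).card := hU x.1
      _ ≤ _ := Finset.card_le_card (Finset.subset_biUnion_of_mem (fun x : D × Fin G => U x.1) hx)

/-- The main alternative on the side of `A`. -/
theorem alt (H : GData A B lam mu τ δ n r G K N q kc kb al p e) {a : Finset V} (ha : a ∈ A)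
    {v0 : V} (hv0 : v0 ∈ a) (hz : v0 ∉ ZA G al e) (f0 : (v : V) → I v → J v) :
    ∃ (d : D) (y : ℕ), 1 ≤ y ∧ y ≤ q (kb d) ∧ (1 - δ) * (q (kb d) : ℝ) ≤ y ∧
      q (kb d) + 1 ≤ y + ∑ v ∈ a, (univ.filter (fun i => G ≤ E e v i ∧ d ∈ al v i (f0 v i) ∧
        y ≤ e v i (f0 v i) d)).card := by
  classical
  have hU : ∀ d, Fintype.card D * G ≤ (UU G al e v0 d).card := by
    intro d
    by_contra hlt
    push Not at hlt
    apply hz
    rw [ZA, Finset.mem_filter]
    exact ⟨Finset.mem_univ _, d, hlt⟩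
  obtain ⟨φ, hφ, hφU⟩ := exists_reps G (UU G al e v0) hU
  have hJ := H.neJ
  have hjj : ∀ (d : D) (i : I v0), ∃ j, i ∈ UU G al e v0 d → d ∈ al v0 i j ∧ e v0 i j d = 0 := by
    intro d i
    by_cases hi : i ∈ UU G al e v0 d
    · obtain ⟨_, _, j, hj⟩ := Finset.mem_filter.1 hi
      exact ⟨j, fun _ => hj⟩
    · obtain ⟨j⟩ := hJ v0
      exact ⟨j, fun h => absurd h hi⟩
  choose jj hjj using hjj
  let fv : I v0 → J v0 := fun i => if h : ∃ x, φ x = i then jj h.choose.1 i else f0 v0 i
  have hfv1 : ∀ x, fv (φ x) = jj x.1 (φ x) := by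
    intro x
    have h : ∃ y, φ y = φ x := ⟨x, rfl⟩
    have h2 : h.choose = x := hφ h.choose_spec
    simp only [fv]
    rw [dif_pos h, h2]
  have hfv2 : ∀ i, (¬ ∃ x, φ x = i) → fv i = f0 v0 i := by
    intro i hi
    simp only [fv]
    rw [dif_neg hi]
  let f1 : (v : V) → I v → J v := Function.update f0 v0 fv
  have hf1 : f1 v0 = fv := Function.update_self _ _ _
  have hf1o : ∀ v, v ≠ v0 → f1 v = f0 v := fun v hv => Function.update_of_ne hv _ _
  let Sp : Finset (Σ v, I v) := Bd G e ∪ univ.image (fun x => (⟨v0, φ x⟩ : Σ v, I v))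
  have hSp : Sp.card ≤ K := by
    refine le_trans (Finset.card_union_le _ _) ?_
    have h1 : (univ.image (fun x => (⟨v0, φ x⟩ : Σ v, I v))).card ≤ Fintype.card D * G := by
      refine Finset.card_image_le.trans ?_
      rw [Finset.card_univ, Fintype.card_prod, Fintype.card_fin]
    have h2 := H.hK _ H.Bd_card
    omega
  obtain ⟨f, hf, hbal⟩ := H.sel a ha Sp f1 hSp
  have hfφ : ∀ x, f v0 (φ x) = jj x.1 (φ x) := by
    intro x
    have h1 := hf ⟨v0, φ x⟩ (Finset.mem_union_right _
      (Finset.mem_image_of_mem (fun x => (⟨v0, φ x⟩ : Σ v, I v)) (Finset.mem_univ x)))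
    simp only at h1
    rw [h1, hf1, hfv1]
  have hfB : ∀ v (i : I v), G ≤ E e v i → f v i = f0 v i := by
    intro v i hi
    have h1 := hf ⟨v, i⟩ (Finset.mem_union_left _
      (Finset.mem_filter.2 ⟨Finset.mem_univ _, hi⟩))
    simp only at h1
    rw [h1]
    by_cases hv : v = v0
    · subst hv
      rw [hf1, hfv2]
      rintro ⟨x, rfl⟩
      have h2 := (Finset.mem_filter.1 (hφU x)).2.1
      omega
    · rw [hf1o v hv]
  obtain ⟨d, y, hy1, hyq, hy⟩ := H.killA a ha f hbal
  have hcov := hbal d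
  set X : (v : V) → Finset (I v) := fun v => univ.filter (fun i => d ∈ al v i (f v i) ∧
      y ≤ e v i (f v i) d) with hX
  set C : (v : V) → Finset (I v) := fun v => univ.filter (fun i => d ∈ al v i (f v i)) with hC
  have hXC : ∀ v, (X v).card ≤ (C v).card := by
    intro v
    apply Finset.card_le_card
    intro i hi
    rw [hX, Finset.mem_filter] at hi
    rw [hC, Finset.mem_filter]
    exact ⟨hi.1, hi.2.1⟩
  have hX0 : (X v0).card + G ≤ (C v0).card := by
    have h1 : (univ.image (fun k : Fin G => φ (d, k))).card = G := by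
      rw [Finset.card_image_of_injective, Finset.card_univ, Fintype.card_fin]
      intro k k' hk
      have := hφ hk
      simpa using this
    have h2 : Disjoint (X v0) (univ.image (fun k : Fin G => φ (d, k))) := by
      rw [Finset.disjoint_right]
      intro i hi
      obtain ⟨k, _, rfl⟩ := Finset.mem_image.1 hi
      intro hmem
      rw [hX, Finset.mem_filter, hfφ (d, k)] at hmem
      have h3 := (hjj d (φ (d, k)) (hφU (d, k))).2
      simp only at hmem
      omega
    have h3 : X v0 ∪ univ.image (fun k : Fin G => φ (d, k)) ⊆ C v0 := by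
      intro i hi
      rw [hC, Finset.mem_filter]
      refine ⟨Finset.mem_univ _, ?_⟩
      rcases Finset.mem_union.1 hi with h | h
      · rw [hX, Finset.mem_filter] at h
        exact h.2.1
      · obtain ⟨k, _, rfl⟩ := Finset.mem_image.1 h
        rw [hfφ (d, k)]
        exact (hjj d (φ (d, k)) (hφU (d, k))).1
    have h4 := Finset.card_le_card h3
    rw [Finset.card_union_of_disjoint h2, h1] at h4
    exact h4
  have hsum : ∑ v ∈ a, (X v).card + G ≤ q (kb d) := by
    have h1 : ∑ v ∈ a, (C v).card = q (kb d) := hcov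
    rw [← h1, ← Finset.add_sum_erase _ _ hv0, ← Finset.add_sum_erase _ (fun v => (C v).card) hv0]
    have h2 : ∑ v ∈ a.erase v0, (X v).card ≤ ∑ v ∈ a.erase v0, (C v).card :=
      Finset.sum_le_sum (fun v _ => hXC v)
    omega
  have hy' : q (kb d) + 1 ≤ y + ∑ v ∈ a, (X v).card := hy
  have hyG : G < y := by omega
  have hXsub : ∀ v, X v ⊆ univ.filter (fun i => G ≤ E e v i ∧ d ∈ al v i (f0 v i) ∧
        y ≤ e v i (f0 v i) d) := by
    intro v i hi
    rw [hX, Finset.mem_filter] at hi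
    obtain ⟨_, hi1, hi2⟩ := hi
    have hE : G ≤ E e v i := by
      have := single_le_E e v i (f v i) d
      omega
    rw [hfB v i hE] at hi1 hi2
    rw [Finset.mem_filter]
    exact ⟨Finset.mem_univ _, hE, hi1, hi2⟩
  refine ⟨d, y, hy1, hyq, ?_, ?_⟩
  · have hb : ∑ v ∈ a, (X v).card ≤ (Bd G e).card := by
      have h1 : (a.sigma X).card = ∑ v ∈ a, (X v).card := Finset.card_sigma _ _
      rw [← h1]
      apply Finset.card_le_card
      rintro ⟨v, i⟩ hi
      rw [Finset.mem_sigma] at hi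
      have h2 := (Finset.mem_filter.1 (hXsub v hi.2)).2.1
      rw [Bd, Finset.mem_filter]
      exact ⟨Finset.mem_univ _, h2⟩
    have hb2 := H.Bd_card
    have hb3 : ((Bd G e).card : ℝ) * G ≤ 2 * r := by exact_mod_cast hb2
    have hb4 := H.qbig (kb d)
    have hG : (0 : ℝ) < G := by exact_mod_cast H.Gpos
    have hb5 : ((Bd G e).card : ℝ) ≤ δ * q (kb d) := by
      have := hb3.trans hb4
      exact le_of_mul_le_mul_right this hG
    have hb6 : (q (kb d) : ℝ) + 1 ≤ y + ((∑ v ∈ a, (X v).card : ℕ) : ℝ) := by exact_mod_cast hy'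
    have hb7 : ((∑ v ∈ a, (X v).card : ℕ) : ℝ) ≤ (Bd G e).card := by exact_mod_cast hb
    nlinarith
  · refine hy'.trans (Nat.add_le_add_left ?_ _)
    exact Finset.sum_le_sum (fun v _ => Finset.card_le_card (hXsub v))

/-- `i` is a nearly full row of `v`. -/
def NF (δ : ℝ) (q : Bool → ℕ) (kb : D → Bool) (al : (v : V) → I v → J v → Finset D)
    (e : (v : V) → I v → J v → D → ℕ) (v : V) (i : I v) : Prop :=
  ∀ j, ∃ d ∈ al v i j, (1 - δ) * (q (kb d) : ℝ) ≤ e v i j d

open Classical in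
/-- Types with a nearly full row. -/
noncomputable def RR (δ : ℝ) (q : Bool → ℕ) (kb : D → Bool)
    (al : (v : V) → I v → J v → Finset D)
    (e : (v : V) → I v → J v → D → ℕ) : Finset V :=
  univ.filter (fun v => ∃ i, NF δ q kb al e v i)

/-- Expensive rows. -/
def Expn (n : ℕ) (δ : ℝ) (e : (v : V) → I v → J v → D → ℕ) (v : V) (i : I v) : Prop :=
  (δ * n) ^ 2 ≤ (Fintype.card V : ℝ) * ∑ j, (hit e v i j : ℝ)

/-- Rows with a nearly full cell. -/
def Near (n : ℕ) (δ : ℝ) (e : (v : V) → I v → J v → D → ℕ) (v : V) (i : I v) : Prop :=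
  ∃ j, (1 - 2 * δ) * n ≤ (hit e v i j : ℝ)

/-- The number of hit columns of kind `κ`. -/
def Hk (kc : (v : V) → J v → Bool) (e : (v : V) → I v → J v → D → ℕ) (κ : Bool) (v : V)
    (i : I v) : ℕ :=
  (univ.filter (fun j => kc v j = κ ∧ hit e v i j ≠ 0)).card

open Classical in
noncomputable def SS (n : ℕ) (δ : ℝ) (e : (v : V) → I v → J v → D → ℕ) : Finset V :=
  univ.filter (fun v => ∀ i, Expn n δ e v i ∨ Near n δ e v i)

open Classical in
noncomputable def ZB (n : ℕ) (δ : ℝ) (kc : (v : V) → J v → Bool)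
    (e : (v : V) → I v → J v → D → ℕ) : Finset V :=
  univ.filter (fun v => ∀ i, Expn n δ e v i ∨ Near n δ e v i ∨
    ∃ κ, (Mk kc κ v : ℝ) - 2 * δ * n ≤ (Hk kc e κ v i : ℝ))

theorem not_NF {v : V} {i : I v} (h : ¬ NF δ q kb al e v i) :
    ∃ j, ∀ d ∈ al v i j, (e v i j d : ℝ) < (1 - δ) * (q (kb d) : ℝ) := by
  rw [NF] at h
  push Not at h
  exact h

theorem kills_A (H : GData A B lam mu τ δ n r G K N q kc kb al p e) :
    Kills A (RR δ q kb al e) (ZA G al e) := by
  classical
  intro a ha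
  by_contra hcon
  push Not at hcon
  obtain ⟨hR, hZ⟩ := hcon
  rw [Finset.not_subset] at hZ
  obtain ⟨v0, hv0, hz⟩ := hZ
  have hJ := H.neJ
  have h1 : ∀ (v : V) (i : I v), ∃ j, v ∈ a → ∀ d ∈ al v i j,
      (e v i j d : ℝ) < (1 - δ) * (q (kb d) : ℝ) := by
    intro v i
    by_cases hv : v ∈ a
    · have h2 : ¬ NF δ q kb al e v i := by
        intro h3
        have h4 : v ∈ a ∩ RR δ q kb al e := by
          rw [Finset.mem_inter, RR, Finset.mem_filter]
          exact ⟨hv, Finset.mem_univ _, i, h3⟩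
        rw [hR] at h4
        exact absurd h4 (Finset.notMem_empty _)
      obtain ⟨j, hj⟩ := not_NF h2
      exact ⟨j, fun _ => hj⟩
    · obtain ⟨j⟩ := hJ v
      exact ⟨j, fun h => absurd h hv⟩
  choose f0 hf0 using h1
  obtain ⟨d, y, hy1, hyq, hyδ, hy⟩ := H.alt ha hv0 hz f0
  have h2 : 0 < ∑ v ∈ a, (univ.filter (fun i => G ≤ E e v i ∧ d ∈ al v i (f0 v i) ∧
      y ≤ e v i (f0 v i) d)).card := by omega
  obtain ⟨v, hv, hne⟩ := Finset.exists_ne_zero_of_sum_ne_zero h2.ne'
  obtain ⟨i, hi⟩ := Finset.card_pos.1 (Nat.pos_of_ne_zero hne)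
  obtain ⟨_, _, h3, h4⟩ := Finset.mem_filter.1 hi
  have h5 := hf0 v i hv d h3
  have h6 : (y : ℝ) ≤ e v i (f0 v i) d := by exact_mod_cast h4
  linarith

theorem Hk_le (κ : Bool) (v : V) (i : I v) : Hk kc e κ v i ≤ Mk kc κ v := by
  apply Finset.card_le_card
  intro j hj
  rw [Finset.mem_filter] at hj ⊢
  exact ⟨hj.1, hj.2.1⟩

theorem Hk_le_sum (κ : Bool) (v : V) (i : I v) : Hk kc e κ v i ≤ ∑ j, hit e v i j := by
  rw [Hk, Finset.card_eq_sum_ones, Finset.sum_filter]
  apply Finset.sum_le_sum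
  intro j _
  split_ifs with h
  · have := h.2
    omega
  · omega

/-- Bound for the part of `Y` where a given block is missing. -/
theorem miss_Y (H : GData A B lam mu τ δ n r G K N q kc kb al p e) {b : Finset V}
    {g : (v : V) → I v} {d : D} {Y : Finset (Σ v, J v)}
    (hY : ∀ x ∈ Y, x.1 ∈ b ∧ kc x.1 x.2 = kb d) :
    (Y.filter (fun x => d ∉ al x.1 (g x.1) x.2)).card ≤ 2 * Fintype.card V := by
  classical
  have h1 : Y.filter (fun x => d ∉ al x.1 (g x.1) x.2) ⊆
      b.sigma (fun v => univ.filter (fun j => kc v j = kb d ∧ d ∉ al v (g v) j)) := by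
    intro x hx
    rw [Finset.mem_filter] at hx
    rw [Finset.mem_sigma, Finset.mem_filter]
    exact ⟨(hY x hx.1).1, Finset.mem_univ _, (hY x hx.1).2, hx.2⟩
  refine (Finset.card_le_card h1).trans ?_
  rw [Finset.card_sigma]
  calc ∑ v ∈ b, (univ.filter (fun j => kc v j = kb d ∧ d ∉ al v (g v) j)).card
      ≤ ∑ _v ∈ b, 2 := Finset.sum_le_sum (fun v _ => H.miss v (g v) d)
    _ = b.card * 2 := by rw [Finset.sum_const, smul_eq_mul]
    _ ≤ _ := by
      have := Finset.card_le_univ b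
      omega

theorem altB (H : GData A B lam mu τ δ n r G K N q kc kb al p e) {b : Finset V} (hb : b ∈ B)
    {g : (v : V) → I v} (hg : ∀ v ∈ b, ¬ Expn n δ e v (g v)) :
    (∃ v ∈ b, Near n δ e v (g v)) ∨
      ∃ κ, ∀ v ∈ b, (Mk kc κ v : ℝ) - 2 * δ * n ≤ (Hk kc e κ v (g v) : ℝ) := by
  classical
  obtain ⟨κ, Q, Y, hQne, hQ, hY, hcard, hbad⟩ := H.killB b hb g
  have hQN : Q.card ≤ N κ := by
    rw [← H.cardD κ]
    apply Finset.card_le_card
    intro d hd
    exact Finset.mem_filter.2 ⟨Finset.mem_univ _, hQ d hd⟩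
  have hYpos : 0 < Y.card := by omega
  have hhit : ∀ x ∈ Y, Q.card ≤ hit e x.1 (g x.1) x.2 + 2 := by
    intro x hx
    exact H.card_le_hit2 (fun d hd => (hQ d hd).trans (hY x hx).2.symm) (fun d hd => hbad x hx d hd)
  have hn := H.npos
  have hδ := H.δ0
  have n1 := H.nbig1
  have c0 : (0 : ℝ) ≤ Fintype.card V := Nat.cast_nonneg _
  have hcardR : (n : ℝ) + 1 ≤ Y.card + Q.card := by
    have h1 := H.Nlo κ
    have h2 : n + 1 ≤ Y.card + Q.card := by omega
    exact_mod_cast h2
  by_cases hbig : (1 - 2 * δ) * n + 2 ≤ (Q.card : ℝ)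
  · left
    obtain ⟨x, hx⟩ := Finset.card_pos.1 hYpos
    refine ⟨x.1, (hY x hx).1, x.2, ?_⟩
    have h1 : (Q.card : ℝ) ≤ hit e x.1 (g x.1) x.2 + 2 := by exact_mod_cast hhit x hx
    linarith
  push Not at hbig
  by_cases hmid : δ * n + 2 ≤ (Q.card : ℝ)
  · exfalso
    have h1 : δ * n ≤ (Y.card : ℝ) := by nlinarith
    have h2 : (Y.card : ℝ) * (δ * n) ≤ ∑ v ∈ b, ∑ j, (hit e v (g v) j : ℝ) := by
      calc (Y.card : ℝ) * (δ * n) = ∑ _x ∈ Y, (δ * n) := by
            rw [Finset.sum_const, nsmul_eq_mul]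
        _ ≤ ∑ x ∈ Y, (hit e x.1 (g x.1) x.2 : ℝ) := by
            apply Finset.sum_le_sum
            intro x hx
            have h3 : (Q.card : ℝ) ≤ hit e x.1 (g x.1) x.2 + 2 := by exact_mod_cast hhit x hx
            linarith
        _ ≤ ∑ x ∈ b.sigma (fun v => (univ : Finset (J v))), (hit e x.1 (g x.1) x.2 : ℝ) := by
            apply Finset.sum_le_sum_of_subset_of_nonneg
            · intro x hx
              rw [Finset.mem_sigma]
              exact ⟨(hY x hx).1, Finset.mem_univ _⟩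
            · intro x _ _
              positivity
        _ = _ := by rw [Finset.sum_sigma]
    have h4 : (δ * n) * (δ * n) ≤ ∑ v ∈ b, ∑ j, (hit e v (g v) j : ℝ) :=
      (mul_le_mul_of_nonneg_right h1 (by positivity)).trans h2
    have h5 : (Fintype.card V : ℝ) * ∑ v ∈ b, ∑ j, (hit e v (g v) j : ℝ) <
        (Fintype.card V : ℝ) * (δ * n) ^ 2 := by
      rw [Finset.mul_sum]
      have hne : b.Nonempty := Finset.card_pos.1 (lt_of_lt_of_le (by norm_num) (H.twoB b hb))
      calc ∑ v ∈ b, (Fintype.card V : ℝ) * ∑ j, (hit e v (g v) j : ℝ)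
          < ∑ _v ∈ b, (δ * n) ^ 2 := by
            apply Finset.sum_lt_sum_of_nonempty hne
            intro v hv
            have := hg v hv
            rw [Expn] at this
            push Not at this
            exact this
        _ = (b.card : ℝ) * (δ * n) ^ 2 := by rw [Finset.sum_const, nsmul_eq_mul]
        _ ≤ (Fintype.card V : ℝ) * (δ * n) ^ 2 := by
            apply mul_le_mul_of_nonneg_right _ (by positivity)
            exact_mod_cast Finset.card_le_univ b
    have h7 := mul_le_mul_of_nonneg_left h4 c0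
    rw [← pow_two] at h7
    linarith
  · right
    push Not at hmid
    refine ⟨κ, ?_⟩
    obtain ⟨d, hd⟩ := hQne
    have hYd : ∀ x ∈ Y, x.1 ∈ b ∧ kc x.1 x.2 = kb d := fun x hx =>
      ⟨(hY x hx).1, (hY x hx).2.trans (hQ d hd).symm⟩
    have h1 := H.miss_Y (g := g) hYd
    have h2 : (Y.filter (fun x => ¬ d ∉ al x.1 (g x.1) x.2)).card ≤
        ∑ v ∈ b, Hk kc e κ v (g v) := by
      have h3 : ∑ v ∈ b, Hk kc e κ v (g v) = (b.sigma (fun v => univ.filter
          (fun j => kc v j = κ ∧ hit e v (g v) j ≠ 0))).card := (Finset.card_sigma _ _).symm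
      rw [h3]
      apply Finset.card_le_card
      intro x hx
      rw [Finset.mem_filter] at hx
      rw [Finset.mem_sigma, Finset.mem_filter]
      refine ⟨(hY x hx.1).1, Finset.mem_univ _, (hY x hx.1).2, ?_⟩
      rcases hbad x hx.1 d hd with h4 | h4
      · exact absurd h4 hx.2
      · have : 0 < hit e x.1 (g x.1) x.2 :=
          Finset.card_pos.2 ⟨d, Finset.mem_filter.2 ⟨Finset.mem_univ _, h4⟩⟩
        omega
    have h3 := Finset.card_filter_add_card_filter_not (s := Y)
      (fun x => d ∉ al x.1 (g x.1) x.2)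
    have h4 : N κ + 1 ≤ Q.card + 2 * Fintype.card V + ∑ v ∈ b, Hk kc e κ v (g v) := by omega
    have h4R : (N κ : ℝ) + 1 ≤ Q.card + 2 * Fintype.card V +
        ∑ v ∈ b, (Hk kc e κ v (g v) : ℝ) := by exact_mod_cast h4
    have h5 : ∑ v ∈ b, (Mk kc κ v : ℝ) = N κ := by exact_mod_cast H.sumMk b hb κ
    have h6 : ∑ v ∈ b, ((Mk kc κ v : ℝ) - Hk kc e κ v (g v)) ≤ 2 * δ * n := by
      rw [Finset.sum_sub_distrib, h5]
      linarith
    intro v hv
    have h7 : (Mk kc κ v : ℝ) - Hk kc e κ v (g v) ≤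
        ∑ v ∈ b, ((Mk kc κ v : ℝ) - Hk kc e κ v (g v)) := by
      apply Finset.single_le_sum (f := fun v => (Mk kc κ v : ℝ) - Hk kc e κ v (g v)) _ hv
      intro w _
      have : (Hk kc e κ w (g w) : ℝ) ≤ Mk kc κ w := by exact_mod_cast Hk_le κ w (g w)
      linarith
    linarith

theorem kills_B (H : GData A B lam mu τ δ n r G K N q kc kb al p e) :
    Kills B (SS n δ e) (ZB n δ kc e) := by
  classical
  intro b hb
  by_cases hS : (b ∩ SS n δ e).Nonempty
  · exact Or.inl hS
  right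
  have hI := H.neI
  have h0 : ∀ v, ∃ i : I v, v ∈ b → ¬ Expn n δ e v i ∧ ¬ Near n δ e v i := by
    intro v
    by_cases hv : v ∈ b
    · have h1 : v ∉ SS n δ e := fun h => hS ⟨v, Finset.mem_inter.2 ⟨hv, h⟩⟩
      rw [SS, Finset.mem_filter] at h1
      push Not at h1
      obtain ⟨i, hi⟩ := h1 (Finset.mem_univ _)
      exact ⟨i, fun _ => hi⟩
    · obtain ⟨i⟩ := hI v
      exact ⟨i, fun h => absurd h hv⟩
  choose g0 hg0 using h0
  intro v hv
  rw [ZB, Finset.mem_filter]
  refine ⟨Finset.mem_univ _, ?_⟩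
  intro i
  by_cases hE : Expn n δ e v i
  · exact Or.inl hE
  by_cases hN : Near n δ e v i
  · exact Or.inr (Or.inl hN)
  right
  right
  let g : (v : V) → I v := Function.update g0 v i
  have hgv : g v = i := Function.update_self _ _ _
  have hgo : ∀ w, w ≠ v → g w = g0 w := fun w hw => Function.update_of_ne hw _ _
  have hgE : ∀ w ∈ b, ¬ Expn n δ e w (g w) ∧ ¬ Near n δ e w (g w) := by
    intro w hw
    by_cases hwv : w = v
    · subst hwv
      rw [hgv]
      exact ⟨hE, hN⟩
    · rw [hgo w hwv]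
      exact hg0 w hw
  rcases H.altB hb (fun w hw => (hgE w hw).1) with h | h
  · obtain ⟨w, hw, h1⟩ := h
    exact absurd h1 (hgE w hw).2
  · obtain ⟨κ, h⟩ := h
    have := h v hv
    rw [hgv] at this
    exact ⟨κ, this⟩

/-- A nearly full row is expensive. -/
theorem row_e (H : GData A B lam mu τ δ n r G K N q kc kb al p e) {v : V} {i : I v}
    (hi : NF δ q kb al e v i) : (mu v - 2 * δ) * (r : ℝ) ≤ E e v i := by
  have h1 : ∑ j, (1 - δ) * (q (kc v j) : ℝ) ≤ E e v i := by
    rw [E]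
    push_cast
    apply Finset.sum_le_sum
    intro j _
    obtain ⟨d, hd, hj⟩ := hi j
    rw [H.al_kind v i j d hd] at hj
    refine hj.trans ?_
    exact Finset.single_le_sum (f := fun d => (e v i j d : ℝ)) (fun _ _ => Nat.cast_nonneg _)
      (Finset.mem_univ d)
  rw [← Finset.mul_sum] at h1
  refine le_trans ?_ h1
  have h2 := H.hQ v
  have h3 := H.hδτ v
  have h4 := H.mu1 v
  have h5 := H.muτ v
  have h6 := H.δ0
  have h7 := H.τ1
  have h8 := H.rpos
  have h9 := H.τ0
  have h10 : 0 ≤ 1 - δ := by linarith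
  calc (mu v - 2 * δ) * (r : ℝ) ≤ (1 - δ) * ((mu v - δ) * r) := by
        rw [← mul_assoc]
        apply mul_le_mul_of_nonneg_right _ h8.le
        nlinarith
    _ ≤ _ := mul_le_mul_of_nonneg_left h2 h10

/-- Cost of the rows outside a small set. -/
theorem rest (H : GData A B lam mu τ δ n r G K N q kc kb al p e) (v : V) {x : ℝ} (hx0 : 0 ≤ x)
    (hx2 : x ≤ 2) (T : Finset (I v)) (hT : T.card ≤ Fintype.card D * G + 1)
    (h : ∀ i, i ∉ T → x * n ≤ E e v i) :
    (x * lam v - 4 * δ) * (r : ℝ) ≤ ∑ i ∈ univ \ T, (E e v i : ℝ) := by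
  have h1 : ((univ \ T).card : ℝ) * (x * n) ≤ ∑ i ∈ univ \ T, (E e v i : ℝ) := by
    rw [← nsmul_eq_mul, ← Finset.sum_const]
    apply Finset.sum_le_sum
    intro i hi
    exact h i (Finset.mem_sdiff.1 hi).2
  have h2 : ((univ \ T).card : ℝ) + T.card = Fintype.card (I v) := by
    have := Finset.card_sdiff_add_card_eq_card (Finset.subset_univ T)
    rw [Finset.card_univ] at this
    exact_mod_cast this
  have h3 : (T.card : ℝ) ≤ δ * Fintype.card (I v) := by
    refine le_trans ?_ (H.Ibig v)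
    exact_mod_cast hT
  have h4 : (1 - δ) * (Fintype.card (I v) : ℝ) ≤ ((univ \ T).card : ℝ) := by linarith
  have h5 := H.hL v
  have h6 := H.hδτ v
  have h7 := H.lamτ v
  have h8 := H.lam1 v
  have δ0 := H.δ0
  have τ1 := H.τ1
  have τ0 := H.τ0
  have n0 := H.npos
  have r0 := H.rpos
  refine le_trans ?_ h1
  have h9 : 0 ≤ 1 - δ := by linarith
  have h10 : (1 - δ) * (x * ((lam v - δ) * r)) ≤ ((univ \ T).card : ℝ) * (x * n) := by
    calc (1 - δ) * (x * ((lam v - δ) * r))
        ≤ (1 - δ) * (x * (n * (Fintype.card (I v) : ℝ))) :=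
          mul_le_mul_of_nonneg_left (mul_le_mul_of_nonneg_left h5 hx0) h9
      _ = ((1 - δ) * (Fintype.card (I v) : ℝ)) * (x * n) := by ring
      _ ≤ _ := mul_le_mul_of_nonneg_right h4 (by positivity)
  refine le_trans ?_ h10
  have h11 : x * lam v - 4 * δ ≤ (1 - δ) * (x * (lam v - δ)) := by
    have e1 : (1 - δ) * (x * (lam v - δ)) = x * lam v - x * δ * (1 + lam v - δ) := by ring
    have e2 : x * δ * (1 + lam v - δ) ≤ 4 * δ := by
      have : x * (1 + lam v - δ) ≤ 4 := by nlinarith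
      nlinarith
    linarith
  calc (x * lam v - 4 * δ) * (r : ℝ) ≤ ((1 - δ) * (x * (lam v - δ))) * r :=
        mul_le_mul_of_nonneg_right h11 r0.le
    _ = _ := by ring

theorem row_Expn (H : GData A B lam mu τ δ n r G K N q kc kb al p e) {v : V} {i : I v}
    (h : Expn n δ e v i) : 2 * (n : ℝ) ≤ ∑ j, (hit e v i j : ℝ) := by
  rw [Expn] at h
  have h1 := H.card1 v
  have h2 := H.nbig2
  have n0 := H.npos
  have h3 : (Fintype.card V : ℝ) * (2 * n) ≤ (Fintype.card V : ℝ) *
      ∑ j, (hit e v i j : ℝ) := by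
    refine le_trans ?_ h
    have := mul_le_mul_of_nonneg_right h2 n0.le
    nlinarith
  exact le_of_mul_le_mul_left h3 (by linarith)

theorem row_S (H : GData A B lam mu τ δ n r G K N q kc kb al p e) {v : V} (hv : v ∈ SS n δ e)
    (i : I v) : (1 - 2 * δ) * n ≤ (E e v i : ℝ) := by
  classical
  rw [SS, Finset.mem_filter] at hv
  have h0 : ∑ j, (hit e v i j : ℝ) ≤ E e v i := by exact_mod_cast sum_hit_le e v i
  have n0 := H.npos
  have δ0 := H.δ0
  rcases hv.2 i with h | ⟨j, hj⟩
  · have := H.row_Expn h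
    nlinarith
  · have h2 : (hit e v i j : ℝ) ≤ ∑ j, (hit e v i j : ℝ) :=
      Finset.single_le_sum (f := fun j => (hit e v i j : ℝ)) (fun _ _ => Nat.cast_nonneg _)
        (Finset.mem_univ j)
    linarith

theorem row_ZB (H : GData A B lam mu τ δ n r G K N q kc kb al p e) {v : V}
    (hv : v ∈ ZB n δ kc e) (i : I v) : (mu v - 3 * δ) * n ≤ (E e v i : ℝ) := by
  classical
  rw [ZB, Finset.mem_filter] at hv
  have h0 : ∑ j, (hit e v i j : ℝ) ≤ E e v i := by exact_mod_cast sum_hit_le e v i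
  have n0 := H.npos
  have δ0 := H.δ0
  have m1 := H.mu1 v
  rcases hv.2 i with h | ⟨j, hj⟩ | ⟨κ, h⟩
  · have := H.row_Expn h
    nlinarith
  · have h2 : (hit e v i j : ℝ) ≤ ∑ j, (hit e v i j : ℝ) :=
      Finset.single_le_sum (f := fun j => (hit e v i j : ℝ)) (fun _ _ => Nat.cast_nonneg _)
        (Finset.mem_univ j)
    nlinarith
  · have h2 : (Hk kc e κ v i : ℝ) ≤ ∑ j, (hit e v i j : ℝ) := by
      exact_mod_cast Hk_le_sum (kc := kc) (e := e) κ v i
    have h3 := H.Mk_ge v κ
    nlinarith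

/-- A row of a type in `ZA` outside the exceptional set: many cells hit. -/
theorem cells_ZA (H : GData A B lam mu τ δ n r G K N q kc kb al p e) {v : V} {d : D} {i : I v}
    (hi : i ∉ UU G al e v d) (hE : E e v i < G) :
    Mk kc (kb d) v ≤ (univ.filter (fun j => hit e v i j ≠ 0)).card + 2 := by
  classical
  have h1 : univ.filter (fun j : J v => kc v j = kb d) ⊆
      univ.filter (fun j => kc v j = kb d ∧ d ∉ al v i j) ∪
      univ.filter (fun j => hit e v i j ≠ 0) := by
    intro j hj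
    rw [Finset.mem_filter] at hj
    rw [Finset.mem_union, Finset.mem_filter, Finset.mem_filter]
    by_cases hd : d ∈ al v i j
    · right
      refine ⟨Finset.mem_univ _, ?_⟩
      have h2 : e v i j d ≠ 0 := by
        intro h0
        apply hi
        rw [UU, Finset.mem_filter]
        exact ⟨Finset.mem_univ _, hE, j, hd, h0⟩
      have : 0 < hit e v i j :=
        Finset.card_pos.2 ⟨d, Finset.mem_filter.2 ⟨Finset.mem_univ _, h2⟩⟩
      omega
    · exact Or.inl ⟨Finset.mem_univ _, hj.2, hd⟩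
  have h2 := (Finset.card_le_card h1).trans (Finset.card_union_le _ _)
  have h3 := H.miss v i d
  rw [Mk]
  omega

theorem nzcells_le (v : V) (i : I v) :
    (univ.filter (fun j => hit e v i j ≠ 0)).card ≤ ∑ j, hit e v i j := by
  rw [Finset.card_eq_sum_ones, Finset.sum_filter]
  apply Finset.sum_le_sum
  intro j _
  split_ifs <;> omega

/-- Combined bound of the number of hit cells and one cell. -/
theorem nzcells_add (v : V) (i : I v) (j0 : J v) :
    (univ.filter (fun j => hit e v i j ≠ 0)).card + hit e v i j0 ≤ ∑ j, hit e v i j + 1 := by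
  classical
  rw [Finset.card_eq_sum_ones, Finset.sum_filter, ← Finset.add_sum_erase _ _ (Finset.mem_univ j0),
    ← Finset.add_sum_erase univ (fun j => hit e v i j) (Finset.mem_univ j0)]
  have h1 : ∑ j ∈ univ.erase j0, (if hit e v i j ≠ 0 then 1 else 0) ≤
      ∑ j ∈ univ.erase j0, hit e v i j := by
    apply Finset.sum_le_sum
    intro j _
    split_ifs <;> omega
  split_ifs <;> omega

theorem rows_ZA (H : GData A B lam mu τ δ n r G K N q kc kb al p e) {v : V}
    (hv : v ∈ ZA G al e) : ∃ T : Finset (I v), T.card ≤ Fintype.card D * G ∧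
      (∀ i, i ∉ T → (mu v - 2 * δ) * n ≤ (E e v i : ℝ)) ∧
      (v ∈ SS n δ e → ∀ i, i ∉ T → (1 + mu v - 4 * δ) * n ≤ (E e v i : ℝ)) := by
  classical
  rw [ZA, Finset.mem_filter] at hv
  obtain ⟨_, d, hd⟩ := hv
  have n0 := H.npos
  have δ0 := H.δ0
  have m1 := H.mu1 v
  have c1 := H.card1 v
  have n1 := H.nbig1
  have hG : (2 : ℝ) * n + 2 ≤ G := by exact_mod_cast H.Gbig
  refine ⟨UU G al e v d, hd.le, ?_, ?_⟩
  · intro i hi
    by_cases hE : E e v i < G
    · have h1 := H.cells_ZA hi hE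
      have h2 := (nzcells_le (e := e) v i).trans (sum_hit_le e v i)
      have h3 : (Mk kc (kb d) v : ℝ) ≤ E e v i + 2 := by
        have : Mk kc (kb d) v ≤ E e v i + 2 := by omega
        exact_mod_cast this
      have h4 := H.Mk_ge v (kb d)
      nlinarith
    · push Not at hE
      have h1 : (G : ℝ) ≤ E e v i := by exact_mod_cast hE
      nlinarith
  · intro hS i hi
    by_cases hE : E e v i < G
    · have h0 : ∑ j, (hit e v i j : ℝ) ≤ E e v i := by exact_mod_cast sum_hit_le e v i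
      rw [SS, Finset.mem_filter] at hS
      rcases hS.2 i with h | ⟨j, hj⟩
      · have := H.row_Expn h
        nlinarith
      · have h1 := H.cells_ZA hi hE
        have h2 := nzcells_add (e := e) v i j
        have h3 : (Mk kc (kb d) v : ℝ) + hit e v i j ≤ ∑ j, (hit e v i j : ℝ) + 3 := by
          have : Mk kc (kb d) v + hit e v i j ≤ ∑ j, hit e v i j + 3 := by omega
          exact_mod_cast this
        have h4 := H.Mk_ge v (kb d)
        nlinarith
    · push Not at hE
      have h1 : (G : ℝ) ≤ E e v i := by exact_mod_cast hE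
      nlinarith

theorem rest0 {v : V} (T : Finset (I v)) :
    ∑ i ∈ univ \ T, (E e v i : ℝ) ≤ ∑ i, (E e v i : ℝ) :=
  Finset.sum_le_sum_of_subset_of_nonneg (Finset.subset_univ _) (fun _ _ _ => Nat.cast_nonneg _)

theorem restT {v : V} (T S : Finset (I v)) (hS : S ⊆ T) :
    ∑ i ∈ univ \ T, (E e v i : ℝ) + ∑ i ∈ S, (E e v i : ℝ) ≤ ∑ i, (E e v i : ℝ) := by
  classical
  rw [← Finset.sum_union]
  · exact Finset.sum_le_sum_of_subset_of_nonneg (Finset.subset_univ _)
      (fun _ _ _ => Nat.cast_nonneg _)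
  · rw [Finset.disjoint_left]
    intro i hi hS'
    exact (Finset.mem_sdiff.1 hi).2 (hS hS')

/-- Cost bound for rows outside a set of at most one more row, all cases. -/
theorem rest_cases (H : GData A B lam mu τ δ n r G K N q kc kb al p e) (v : V)
    (T : Finset (I v)) (hT : T.card ≤ 1) :
    ∃ T' : Finset (I v), T ⊆ T' ∧
    ((v ∈ SS n δ e → (lam v - 6 * δ) * (r : ℝ) ≤ ∑ i ∈ univ \ T', (E e v i : ℝ)) ∧
    (v ∈ ZA G al e → (lam v * mu v - 8 * δ) * (r : ℝ) ≤ ∑ i ∈ univ \ T', (E e v i : ℝ)) ∧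
    (v ∈ ZB n δ kc e → (lam v * mu v - 8 * δ) * (r : ℝ) ≤ ∑ i ∈ univ \ T', (E e v i : ℝ)) ∧
    (v ∈ SS n δ e → v ∈ ZA G al e →
      (lam v + lam v * mu v - 8 * δ) * (r : ℝ) ≤ ∑ i ∈ univ \ T', (E e v i : ℝ)) ∧
    0 ≤ ∑ i ∈ univ \ T', (E e v i : ℝ)) := by
  classical
  have δ0 := H.δ0
  have τ0 := H.τ0
  have τ1 := H.τ1
  have r0 := H.rpos
  have h6 := H.hδτ v
  have h7 := H.lamτ v
  have h8 := H.lam1 v
  have h7' := H.muτ v
  have h8' := H.mu1 v
  have hlm : 0 ≤ lam v := by linarith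
  have hsub : ∀ T' : Finset (I v), T ⊆ T' → T'.card ≤ Fintype.card D * G + 1 →
      (v ∈ SS n δ e → (lam v - 6 * δ) * (r : ℝ) ≤ ∑ i ∈ univ \ T', (E e v i : ℝ)) ∧
      (v ∈ ZB n δ kc e → (lam v * mu v - 8 * δ) * (r : ℝ) ≤
        ∑ i ∈ univ \ T', (E e v i : ℝ)) := by
    intro T' hTT' hc
    constructor
    · intro hS
      have h1 := H.rest v (x := 1 - 2 * δ) (by linarith) (by linarith) T' hc
        (fun i _ => H.row_S hS i)
      refine le_trans ?_ h1
      apply mul_le_mul_of_nonneg_right _ r0.le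
      nlinarith
    · intro hS
      have h1 := H.rest v (x := mu v - 3 * δ) (by linarith) (by linarith) T' hc
        (fun i _ => H.row_ZB hS i)
      refine le_trans ?_ h1
      apply mul_le_mul_of_nonneg_right _ r0.le
      nlinarith
  have hnn : ∀ T' : Finset (I v), 0 ≤ ∑ i ∈ univ \ T', (E e v i : ℝ) :=
    fun T' => Finset.sum_nonneg (fun _ _ => Nat.cast_nonneg _)
  by_cases hZ : v ∈ ZA G al e
  · obtain ⟨T0, hT0, hz1, hz2⟩ := H.rows_ZA hZ
    have hc : (T ∪ T0).card ≤ Fintype.card D * G + 1 := by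
      have := Finset.card_union_le T T0
      omega
    have hTT := Finset.subset_union_left (s₁ := T) (s₂ := T0)
    obtain ⟨a1, a2⟩ := hsub _ hTT hc
    refine ⟨T ∪ T0, hTT, a1, ?_, a2, ?_, hnn _⟩
    · intro _
      have h1 := H.rest v (x := mu v - 2 * δ) (by linarith) (by linarith) (T ∪ T0) hc
        (fun i hi => hz1 i (fun h => hi (Finset.mem_union_right _ h)))
      refine le_trans ?_ h1
      apply mul_le_mul_of_nonneg_right _ r0.le
      nlinarith
    · intro hS _
      have h1 := H.rest v (x := 1 + mu v - 4 * δ) (by linarith) (by linarith) (T ∪ T0) hc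
        (fun i hi => hz2 hS i (fun h => hi (Finset.mem_union_right _ h)))
      refine le_trans ?_ h1
      apply mul_le_mul_of_nonneg_right _ r0.le
      nlinarith
  · have hc : T.card ≤ Fintype.card D * G + 1 := by omega
    obtain ⟨a1, a2⟩ := hsub _ (Finset.Subset.refl _) hc
    exact ⟨T, Finset.Subset.refl _, a1, fun h => absurd h hZ, a2, fun _ h => absurd h hZ, hnn _⟩

/-- The basic lower bound for the cost of a type. -/
theorem key (H : GData A B lam mu τ δ n r G K N q kc kb al p e) {Z : Finset V}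
    (hZ : Z = (ZA G al e \ RR δ q kb al e) ∪ (ZB n δ kc e \ SS n δ e)) (v : V) :
    ((if v ∈ RR δ q kb al e then mu v else 0) + (if v ∈ SS n δ e then lam v else 0) +
      (if v ∈ Z then lam v * mu v else 0) - 10 * δ) * (r : ℝ) ≤ ∑ i, (E e v i : ℝ) := by
  classical
  have δ0 := H.δ0
  have τ0 := H.τ0
  have r0 := H.rpos
  have hlam := H.lamτ v
  have hmu := H.muτ v
  have hδr : 0 ≤ δ * (r : ℝ) := by positivity
  by_cases hvR : v ∈ RR δ q kb al e
  · obtain ⟨_, i0, hi0⟩ := Finset.mem_filter.1 hvR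
    have hx := H.row_e hi0
    obtain ⟨T', hT', k1, k2, k3, k4, k5⟩ := H.rest_cases v {i0} (by simp)
    have hs := restT (e := e) T' {i0} hT'
    rw [Finset.sum_singleton] at hs
    by_cases hvS : v ∈ SS n δ e
    · have hvZ : v ∉ Z := by
        rw [hZ]
        intro h
        rcases Finset.mem_union.1 h with h | h
        · exact (Finset.mem_sdiff.1 h).2 hvR
        · exact (Finset.mem_sdiff.1 h).2 hvS
      have hy := k1 hvS
      rw [if_pos hvR, if_pos hvS, if_neg hvZ]
      nlinarith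
    · by_cases hvZ : v ∈ Z
      · have hb : v ∈ ZB n δ kc e := by
          rw [hZ] at hvZ
          rcases Finset.mem_union.1 hvZ with h | h
          · exact absurd hvR (Finset.mem_sdiff.1 h).2
          · exact (Finset.mem_sdiff.1 h).1
        have hy := k3 hb
        rw [if_pos hvR, if_neg hvS, if_pos hvZ]
        nlinarith
      · rw [if_pos hvR, if_neg hvS, if_neg hvZ]
        nlinarith
  · obtain ⟨T', hT', k1, k2, k3, k4, k5⟩ := H.rest_cases v ∅ (by simp)
    have hs := rest0 (e := e) T'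
    by_cases hvS : v ∈ SS n δ e
    · by_cases hvZ : v ∈ Z
      · have hb : v ∈ ZA G al e := by
          rw [hZ] at hvZ
          rcases Finset.mem_union.1 hvZ with h | h
          · exact (Finset.mem_sdiff.1 h).1
          · exact absurd hvS (Finset.mem_sdiff.1 h).2
        have hz := k4 hvS hb
        rw [if_neg hvR, if_pos hvS, if_pos hvZ]
        nlinarith
      · have hy := k1 hvS
        rw [if_neg hvR, if_pos hvS, if_neg hvZ]
        nlinarith
    · by_cases hvZ : v ∈ Z
      · have hz : (lam v * mu v - 8 * δ) * (r : ℝ) ≤ ∑ i ∈ univ \ T', (E e v i : ℝ) := by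
          rw [hZ] at hvZ
          rcases Finset.mem_union.1 hvZ with h | h
          · exact k2 (Finset.mem_sdiff.1 h).1
          · exact k3 (Finset.mem_sdiff.1 h).1
        rw [if_neg hvR, if_neg hvS, if_pos hvZ]
        nlinarith
      · rw [if_neg hvR, if_neg hvS, if_neg hvZ]
        nlinarith

theorem sum_ind (T : Finset V) (w : V → ℝ) : ∑ v, (if v ∈ T then w v else 0) = ∑ v ∈ T, w v := by
  rw [← Finset.sum_filter]
  congr 1
  ext x
  simp

/-- The sets with approximate meaning are extremal. -/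
theorem extremal (H : GData A B lam mu τ δ n r G K N q kc kb al p e) (v0 : V) :
    RR δ q kb al e ∈ B ∧ SS n δ e ∈ A ∧ ZA G al e ⊆ RR δ q kb al e ∧
      ZB n δ kc e ⊆ SS n δ e := by
  classical
  set R := RR δ q kb al e with hR
  set S := SS n δ e with hS
  set Z := (ZA G al e \ R) ∪ (ZB n δ kc e \ S) with hZ
  have kA : Kills A R Z := by
    intro a ha
    rcases H.kills_A a ha with h | h
    · exact Or.inl h
    · by_cases h1 : (a ∩ R).Nonempty
      · exact Or.inl h1
      right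
      intro v hv
      apply Finset.mem_union_left
      rw [Finset.mem_sdiff]
      exact ⟨h hv, fun h2 => h1 ⟨v, Finset.mem_inter.2 ⟨hv, h2⟩⟩⟩
  have kB : Kills B S Z := by
    intro a ha
    rcases H.kills_B a ha with h | h
    · exact Or.inl h
    · by_cases h1 : (a ∩ S).Nonempty
      · exact Or.inl h1
      right
      intro v hv
      apply Finset.mem_union_right
      rw [Finset.mem_sdiff]
      exact ⟨h hv, fun h2 => h1 ⟨v, Finset.mem_inter.2 ⟨hv, h2⟩⟩⟩
  have r0 := H.rpos
  have δ0 := H.δ0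
  have tot := Finset.sum_le_sum (fun v (_ : v ∈ univ) => H.key hZ v)
  rw [← Finset.sum_mul, Finset.sum_sub_distrib, Finset.sum_add_distrib, Finset.sum_add_distrib,
    sum_ind, sum_ind, sum_ind, Finset.sum_const, Finset.card_univ, nsmul_eq_mul] at tot
  have hc := H.hcR
  have hd := H.hδ' v0
  have hτ := H.τ1
  have hτ0 := H.τ0
  have hc1 := H.card1 v0
  rcases H.ss R S Z kA kB with h | h
  · exfalso
    have h1 : (2 : ℝ) ≤ ∑ v ∈ R, mu v + ∑ v ∈ S, lam v + ∑ v ∈ Z, lam v * mu v -
        (Fintype.card V : ℝ) * (10 * δ) := by nlinarith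
    have h2 := mul_le_mul_of_nonneg_right h1 r0.le
    linarith
  · obtain ⟨h1, h2, h3⟩ := h
    rw [hZ, Finset.union_eq_empty, Finset.sdiff_eq_empty_iff_subset,
      Finset.sdiff_eq_empty_iff_subset] at h3
    exact ⟨h1, h2, h3.1, h3.2⟩

/-- No type costs much more than necessary. -/
theorem no_extra (H : GData A B lam mu τ δ n r G K N q kc kb al p e) (v0 : V) {t : ℝ}
    (h : ((if v0 ∈ RR δ q kb al e then mu v0 else 0) + (if v0 ∈ SS n δ e then lam v0 else 0) +
      t) * (r : ℝ) ≤ ∑ i, (E e v0 i : ℝ)) : t < 10 * (Fintype.card V : ℝ) * δ := by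
  classical
  obtain ⟨hRB, hSA, hZA, hZB⟩ := H.extremal v0
  have r0 := H.rpos
  have δ0 := H.δ0
  have hk : ∀ v, ((if v ∈ RR δ q kb al e then mu v else 0) +
      (if v ∈ SS n δ e then lam v else 0) + (if v = v0 then t else - 10 * δ)) * (r : ℝ) ≤
      ∑ i, (E e v i : ℝ) := by
    intro v
    by_cases hv : v = v0
    · subst hv
      rw [if_pos rfl]
      exact h
    · rw [if_neg hv]
      have h1 := H.key rfl v
      have h2 : v ∉ (ZA G al e \ RR δ q kb al e) ∪ (ZB n δ kc e \ SS n δ e) := by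
        rw [Finset.sdiff_eq_empty_iff_subset.2 hZA, Finset.sdiff_eq_empty_iff_subset.2 hZB]
        simp
      rw [if_neg h2] at h1
      linarith
  have tot := Finset.sum_le_sum (fun v (_ : v ∈ univ) => hk v)
  rw [← Finset.sum_mul, Finset.sum_add_distrib, Finset.sum_add_distrib,
    sum_ind, sum_ind, H.summu _ hRB, H.sumlam _ hSA, ← Finset.add_sum_erase _ _
      (Finset.mem_univ v0), if_pos rfl] at tot
  have h3 : ∑ v ∈ univ.erase v0, (if v = v0 then t else - 10 * δ) =
      ((Fintype.card V : ℝ) - 1) * (- 10 * δ) := by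
    rw [Finset.sum_congr rfl (fun v hv => if_neg (Finset.ne_of_mem_erase hv)), Finset.sum_const,
      nsmul_eq_mul, Finset.card_erase_of_mem (Finset.mem_univ v0), Finset.card_univ,
      Nat.cast_pred (Fintype.card_pos_iff.2 ⟨v0⟩)]
  rw [h3] at tot
  have hc := H.hcR
  by_contra hge
  push Not at hge
  have h4 : (2 : ℝ) ≤ 1 + 1 + (t + ((Fintype.card V : ℝ) - 1) * (- 10 * δ)) := by nlinarith
  have h5 := mul_le_mul_of_nonneg_right h4 r0.le
  linarith

/-- A type has at most one nearly full row. -/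
theorem NF_unique (H : GData A B lam mu τ δ n r G K N q kc kb al p e) {v0 : V} {i i' : I v0}
    (hi : NF δ q kb al e v0 i) (hi' : NF δ q kb al e v0 i') : i = i' := by
  classical
  by_contra hne
  have δ0 := H.δ0
  have τ0 := H.τ0
  have τ1 := H.τ1
  have r0 := H.rpos
  have h6 := H.hδτ v0
  have h7 := H.lamτ v0
  have h8 := H.lam1 v0
  have hmu := H.muτ v0
  have hd := H.hδ' v0
  have c1 := H.card1 v0
  have hvR : v0 ∈ RR δ q kb al e := by
    rw [RR, Finset.mem_filter]
    exact ⟨Finset.mem_univ _, i, hi⟩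
  have hx := H.row_e hi
  have hx' := H.row_e hi'
  have hs := restT (e := e) ({i, i'} : Finset (I v0)) {i, i'} (Finset.Subset.refl _)
  rw [Finset.sum_pair hne] at hs
  have hc2 : ({i, i'} : Finset (I v0)).card ≤ Fintype.card D * G + 1 := by
    have := Finset.card_le_two (a := i) (b := i')
    have := H.cardDG
    omega
  have hge : ((if v0 ∈ RR δ q kb al e then mu v0 else 0) +
      (if v0 ∈ SS n δ e then lam v0 else 0) + (mu v0 - 10 * δ)) * (r : ℝ) ≤
      ∑ i, (E e v0 i : ℝ) := by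
    rw [if_pos hvR]
    have hδr : 0 ≤ δ * (r : ℝ) := by positivity
    by_cases hvS : v0 ∈ SS n δ e
    · have h1 := H.rest v0 (x := 1 - 2 * δ) (by linarith) (by linarith) _ hc2
        (fun i _ => H.row_S hvS i)
      have h2 : (lam v0 - 6 * δ) * (r : ℝ) ≤ ((1 - 2 * δ) * lam v0 - 4 * δ) * r := by
        apply mul_le_mul_of_nonneg_right _ r0.le
        nlinarith
      rw [if_pos hvS]
      nlinarith
    · rw [if_neg hvS]
      have h1 : 0 ≤ ∑ i ∈ univ \ ({i, i'} : Finset (I v0)), (E e v0 i : ℝ) :=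
        Finset.sum_nonneg (fun _ _ => Nat.cast_nonneg _)
      nlinarith
  have h9 := H.no_extra v0 hge
  nlinarith

/-- Every type in `RR` has a row which is completely full. -/
theorem full_row (H : GData A B lam mu τ δ n r G K N q kc kb al p e) {v0 : V}
    (hv0 : v0 ∈ RR δ q kb al e) :
    ∃ i, ∀ j, ∃ d ∈ al v0 i j, q (kb d) ≤ e v0 i j d := by
  classical
  obtain ⟨hRB, hSA, hZA, hZB⟩ := H.extremal v0
  obtain ⟨a, ha, hva⟩ := H.spanA v0
  have hcard := H.ex a ha _ hRB
  have hsing : ∀ w ∈ a, w ∈ RR δ q kb al e → w = v0 := by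
    intro w hw hwR
    exact (Finset.card_le_one.1 hcard.le) w (Finset.mem_inter.2 ⟨hw, hwR⟩) v0
      (Finset.mem_inter.2 ⟨hva, hv0⟩)
  obtain ⟨_, i0, hi0⟩ := Finset.mem_filter.1 hv0
  refine ⟨i0, ?_⟩
  intro j0
  have h2 : 1 < a.card := H.twoA a ha
  obtain ⟨v1, hv1, hne⟩ := Finset.exists_mem_ne h2 v0
  have hz1 : v1 ∉ ZA G al e := fun h => hne (hsing v1 hv1 (hZA h))
  have hJ := H.neJ
  have h1 : ∀ (v : V) (i : I v), ∃ j, v ∈ a → (⟨v, i⟩ : Σ v, I v) ≠ ⟨v0, i0⟩ →
      ∀ d ∈ al v i j, (e v i j d : ℝ) < (1 - δ) * (q (kb d) : ℝ) := by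
    intro v i
    by_cases hv : v ∈ a ∧ (⟨v, i⟩ : Σ v, I v) ≠ ⟨v0, i0⟩
    · have h2 : ¬ NF δ q kb al e v i := by
        intro h3
        have h4 : v ∈ RR δ q kb al e := by
          rw [RR, Finset.mem_filter]
          exact ⟨Finset.mem_univ _, i, h3⟩
        have h5 := hsing v hv.1 h4
        subst h5
        exact hv.2 (by rw [H.NF_unique h3 hi0])
      obtain ⟨j, hj⟩ := not_NF h2
      exact ⟨j, fun _ _ => hj⟩
    · obtain ⟨j⟩ := hJ v
      exact ⟨j, fun h h' => absurd ⟨h, h'⟩ hv⟩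
  choose f1 hf1 using h1
  let f0 : (v : V) → I v → J v := Function.update f1 v0 (Function.update (f1 v0) i0 j0)
  have hf00 : f0 v0 i0 = j0 := by
    simp only [f0, Function.update_self]
  have hf0o : ∀ (v : V) (i : I v), v ∈ a → (⟨v, i⟩ : Σ v, I v) ≠ ⟨v0, i0⟩ →
      ∀ d ∈ al v i (f0 v i), (e v i (f0 v i) d : ℝ) < (1 - δ) * (q (kb d) : ℝ) := by
    intro v i hv hne
    have h3 : f0 v i = f1 v i := by
      by_cases hv' : v = v0
      · subst hv'
        have h4 : i ≠ i0 := fun h => hne (by rw [h])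
        simp only [f0, Function.update_self, Function.update_of_ne h4]
      · simp only [f0, Function.update_of_ne hv']
    rw [h3]
    exact hf1 v i hv hne
  obtain ⟨d, y, hy1, hyq, hyδ, hy⟩ := H.alt ha hv1 hz1 f0
  set X : (v : V) → Finset (I v) := fun v => univ.filter (fun i => G ≤ E e v i ∧
    d ∈ al v i (f0 v i) ∧ y ≤ e v i (f0 v i) d) with hX
  have hmem : ∀ v ∈ a, ∀ i ∈ X v, (⟨v, i⟩ : Σ v, I v) = ⟨v0, i0⟩ := by
    intro v hv i hi
    by_contra hne
    rw [hX, Finset.mem_filter] at hi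
    have h3 := hf0o v i hv hne d hi.2.2.1
    have h4 : (y : ℝ) ≤ e v i (f0 v i) d := by exact_mod_cast hi.2.2.2
    linarith
  have hle1 : ∑ v ∈ a, (X v).card ≤ 1 := by
    have h3 : (a.sigma X).card = ∑ v ∈ a, (X v).card := Finset.card_sigma _ _
    rw [← h3, Finset.card_le_one]
    rintro ⟨v, i⟩ hi ⟨v', i'⟩ hi'
    rw [Finset.mem_sigma] at hi hi'
    rw [hmem v hi.1 i hi.2, hmem v' hi'.1 i' hi'.2]
  have hpos : 0 < ∑ v ∈ a, (X v).card := by
    have h3 : q (kb d) + 1 ≤ y + ∑ v ∈ a, (X v).card := hy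
    omega
  have hyq' : q (kb d) ≤ y := by
    have h3 : q (kb d) + 1 ≤ y + ∑ v ∈ a, (X v).card := hy
    omega
  obtain ⟨v, hv, hne'⟩ := Finset.exists_ne_zero_of_sum_ne_zero hpos.ne'
  obtain ⟨i, hi⟩ := Finset.card_pos.1 (Nat.pos_of_ne_zero hne')
  have h5 := hmem v hv i hi
  cases h5
  rw [hX, Finset.mem_filter, hf00] at hi
  exact ⟨d, hi.2.2.1, hyq'.trans hi.2.2.2⟩

/-- Outside `SS` there is a cheap row. -/
theorem cheap_row (H : GData A B lam mu τ δ n r G K N q kc kb al p e) {v : V}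
    (hv : v ∉ SS n δ e) :
    ∃ i, τ * ∑ j, (hit e v i j : ℝ) ≤ 20 * (Fintype.card V : ℝ) * δ * n := by
  classical
  by_contra hcon
  push Not at hcon
  have δ0 := H.δ0
  have τ0 := H.τ0
  have τ1 := H.τ1
  have r0 := H.rpos
  have n0 := H.npos
  have h6 := H.hδτ v
  have h7 := H.lamτ v
  have h8 := H.lam1 v
  have hmu := H.muτ v
  have hd := H.hδ' v
  have c1 := H.card1 v
  have hδr : 0 ≤ δ * (r : ℝ) := by positivity
  set x : ℝ := 20 * (Fintype.card V : ℝ) * δ / τ with hx
  have hx0 : 0 ≤ x := by positivity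
  have hx2 : x ≤ 2 := by
    rw [hx, div_le_iff₀ τ0]
    nlinarith
  have hxτ : x * τ = 20 * (Fintype.card V : ℝ) * δ := by
    rw [hx]
    field_simp
  have hrow : ∀ i : I v, x * n ≤ E e v i := by
    intro i
    have h0 : ∑ j, (hit e v i j : ℝ) ≤ E e v i := by exact_mod_cast sum_hit_le e v i
    refine le_trans ?_ h0
    have h1 := (hcon i).le
    have h2 : τ * (x * n) ≤ τ * ∑ j, (hit e v i j : ℝ) := by
      calc τ * (x * n) = (x * τ) * n := by ring
        _ = 20 * (Fintype.card V : ℝ) * δ * n := by rw [hxτ]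
        _ ≤ _ := h1
    exact le_of_mul_le_mul_left h2 τ0
  have hge : ((if v ∈ RR δ q kb al e then mu v else 0) +
      (if v ∈ SS n δ e then lam v else 0) + (20 * (Fintype.card V : ℝ) * δ - 6 * δ)) * (r : ℝ) ≤
      ∑ i, (E e v i : ℝ) := by
    rw [if_neg hv]
    have hxl : 20 * (Fintype.card V : ℝ) * δ ≤ x * lam v := by
      rw [← hxτ]
      exact mul_le_mul_of_nonneg_left h7 hx0
    by_cases hvR : v ∈ RR δ q kb al e
    · obtain ⟨_, i0, hi0⟩ := Finset.mem_filter.1 hvR
      have hx' := H.row_e hi0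
      have hc : ({i0} : Finset (I v)).card ≤ Fintype.card D * G + 1 := by simp
      have h1 := H.rest v hx0 hx2 {i0} hc (fun i _ => hrow i)
      have hs := restT (e := e) ({i0} : Finset (I v)) {i0} (Finset.Subset.refl _)
      rw [Finset.sum_singleton] at hs
      have h2 : (20 * (Fintype.card V : ℝ) * δ - 4 * δ) * (r : ℝ) ≤
          (x * lam v - 4 * δ) * r := by
        apply mul_le_mul_of_nonneg_right _ r0.le
        linarith
      rw [if_pos hvR]
      linarith
    · have hc : (∅ : Finset (I v)).card ≤ Fintype.card D * G + 1 := by simp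
      have h1 := H.rest v hx0 hx2 ∅ hc (fun i _ => hrow i)
      have hs := rest0 (e := e) (∅ : Finset (I v))
      have h2 : (20 * (Fintype.card V : ℝ) * δ - 4 * δ) * (r : ℝ) ≤
          (x * lam v - 4 * δ) * r := by
        apply mul_le_mul_of_nonneg_right _ r0.le
        linarith
      rw [if_neg hvR]
      linarith
  have h9 := H.no_extra v hge
  nlinarith

theorem cnt_hit_le {v : V} {i : I v} (y : ℕ) :
    y * (univ.filter (fun j => y ≤ hit e v i j)).card ≤ ∑ j, hit e v i j := by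
  calc y * (univ.filter (fun j => y ≤ hit e v i j)).card
      = ∑ j ∈ univ.filter (fun j => y ≤ hit e v i j), y := by
        rw [Finset.sum_const, smul_eq_mul, mul_comm]
    _ ≤ ∑ j ∈ univ.filter (fun j => y ≤ hit e v i j), hit e v i j :=
        Finset.sum_le_sum (fun j hj => (Finset.mem_filter.1 hj).2)
    _ ≤ _ := Finset.sum_le_sum_of_subset (Finset.subset_univ _)

theorem cnt_hit_le' {v : V} {i : I v} (y : ℕ) :
    (y - 1) * (univ.filter (fun j => y ≤ hit e v i j)).card ≤ ∑ j, (hit e v i j - 1) := by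
  calc (y - 1) * (univ.filter (fun j => y ≤ hit e v i j)).card
      = ∑ j ∈ univ.filter (fun j => y ≤ hit e v i j), (y - 1) := by
        rw [Finset.sum_const, smul_eq_mul, mul_comm]
    _ ≤ ∑ j ∈ univ.filter (fun j => y ≤ hit e v i j), (hit e v i j - 1) :=
        Finset.sum_le_sum (fun j hj => Nat.sub_le_sub_right (Finset.mem_filter.1 hj).2 1)
    _ ≤ _ := Finset.sum_le_sum_of_subset (Finset.subset_univ _)

/-- Every row of a type in `SS` is expensive enough. -/
theorem rows_S (H : GData A B lam mu τ δ n r G K N q kc kb al p e) {v0 : V}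
    (hv0 : v0 ∈ SS n δ e) (i : I v0) :
    p v0 i ≤ ∑ j, (hit e v0 i j - 1) + 1 ∧ p v0 i ≤ ∑ j, hit e v0 i j := by
  classical
  obtain ⟨hRB, hSA, hZA, hZB⟩ := H.extremal v0
  obtain ⟨b, hb, hvb⟩ := H.spanB v0
  have hcard := H.ex _ hSA b hb
  have hsing : ∀ w ∈ b, w ∈ SS n δ e → w = v0 := by
    intro w hw hwR
    exact (Finset.card_le_one.1 hcard.le) w (Finset.mem_inter.2 ⟨hwR, hw⟩) v0
      (Finset.mem_inter.2 ⟨hv0, hvb⟩)
  have hI := H.neI
  have h0 : ∀ w : V, ∃ i : I w, w ∉ SS n δ e →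
      τ * ∑ j, (hit e w i j : ℝ) ≤ 20 * (Fintype.card V : ℝ) * δ * n := by
    intro w
    by_cases hw : w ∈ SS n δ e
    · obtain ⟨i⟩ := hI w
      exact ⟨i, fun h => absurd hw h⟩
    · obtain ⟨i, hi⟩ := H.cheap_row hw
      exact ⟨i, fun _ => hi⟩
  choose g0 hg0 using h0
  let g : (v : V) → I v := Function.update g0 v0 i
  have hgv : g v0 = i := Function.update_self _ _ _
  have hgo : ∀ w, w ≠ v0 → g w = g0 w := fun w hw => Function.update_of_ne hw _ _
  obtain ⟨κ, Q, Y, hQne, hQ, hY, hYQ, hbad⟩ := H.killB b hb g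
  have δ0 := H.δ0
  have τ0 := H.τ0
  have τ1 := H.τ1
  have np := H.npos
  have c1 := H.card1 v0
  have hδ := H.hδ
  have n1 := H.nbig1
  have hQN : Q.card ≤ N κ := by
    rw [← H.cardD κ]
    apply Finset.card_le_card
    intro d hd
    exact Finset.mem_filter.2 ⟨Finset.mem_univ _, hQ d hd⟩
  have c0 : (0 : ℝ) < Fintype.card V := by linarith
  have hcheap : ∀ w ∈ b, w ≠ v0 →
      (Fintype.card V : ℝ) * ∑ j, (hit e w (g w) j : ℝ) ≤ τ / 50 * n := by
    intro w hw hne
    have h3 : w ∉ SS n δ e := fun h => hne (hsing w hw h)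
    have h4 := hg0 w h3
    rw [← hgo w hne] at h4
    have h5 : τ * ((Fintype.card V : ℝ) * ∑ j, (hit e w (g w) j : ℝ)) ≤ τ * (τ / 50 * n) := by
      have h6 := mul_le_mul_of_nonneg_left h4 c0.le
      have h7 := mul_le_mul_of_nonneg_right hδ np.le
      nlinarith
    exact le_of_mul_le_mul_left h5 τ0
  have hcheap' : ∀ w ∈ b, w ≠ v0 → ∑ j, (hit e w (g w) j : ℝ) ≤ τ / 50 * n := by
    intro w hw hne
    refine le_trans ?_ (hcheap w hw hne)
    have h3 : 0 ≤ ∑ j, (hit e w (g w) j : ℝ) := Finset.sum_nonneg (fun _ _ => Nat.cast_nonneg _)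
    nlinarith
  have hτδ : 1000 * (δ * n) ≤ τ * n := by
    have := mul_le_mul_of_nonneg_right (H.hδτ v0) np.le
    linarith
  -- other types contribute at least `τ/2 n` columns
  have hother : (Mk kc κ v0 : ℝ) + τ / 2 * n ≤ N κ := by
    have h1 : 1 < b.card := lt_of_lt_of_le (by norm_num) (H.twoB b hb)
    obtain ⟨w, hw, hne⟩ := Finset.exists_mem_ne h1 v0
    have h2 : Mk kc κ v0 + Mk kc κ w ≤ N κ := by
      rw [← H.sumMk b hb κ, ← Finset.add_sum_erase _ _ hvb]
      apply Nat.add_le_add_left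
      exact Finset.single_le_sum (f := Mk kc κ) (fun _ _ => Nat.zero_le _)
        (Finset.mem_erase.2 ⟨hne, hw⟩)
    have h3 : (Mk kc κ v0 : ℝ) + Mk kc κ w ≤ N κ := by exact_mod_cast h2
    have h4 := H.Mk_ge' w κ
    linarith
  have hbigy : τ / 50 * n + 2 < (Q.card : ℝ) := by
    by_contra hle
    push Not at hle
    obtain ⟨d, hd⟩ := hQne
    have hYd : ∀ x ∈ Y, x.1 ∈ b ∧ kc x.1 x.2 = kb d := fun x hx =>
      ⟨(hY x hx).1, (hY x hx).2.trans (hQ d hd).symm⟩
    have h1 := H.miss_Y (g := g) hYd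
    have h2 : Y ⊆ ((univ.filter (fun j : J v0 => kc v0 j = κ)).map
        (Function.Embedding.sigmaMk v0)) ∪ (Y.filter (fun x => d ∉ al x.1 (g x.1) x.2) ∪
        (b.erase v0).sigma (fun w => univ.filter
          (fun j => kc w j = κ ∧ hit e w (g w) j ≠ 0))) := by
      intro x hx
      by_cases hx0 : x.1 = v0
      · apply Finset.mem_union_left
        obtain ⟨v, j⟩ := x
        simp only at hx0
        subst hx0
        rw [Finset.mem_map]
        exact ⟨j, Finset.mem_filter.2 ⟨Finset.mem_univ _, (hY _ hx).2⟩, rfl⟩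
      · apply Finset.mem_union_right
        rcases hbad x hx d hd with h3 | h3
        · exact Finset.mem_union_left _ (Finset.mem_filter.2 ⟨hx, h3⟩)
        · apply Finset.mem_union_right
          rw [Finset.mem_sigma, Finset.mem_filter]
          refine ⟨Finset.mem_erase.2 ⟨hx0, (hY x hx).1⟩, Finset.mem_univ _, (hY x hx).2, ?_⟩
          have : 0 < hit e x.1 (g x.1) x.2 :=
            Finset.card_pos.2 ⟨d, Finset.mem_filter.2 ⟨Finset.mem_univ _, h3⟩⟩
          omega
    have h3 := (Finset.card_le_card h2).trans ((Finset.card_union_le _ _).trans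
      (Nat.add_le_add_left (Finset.card_union_le _ _) _))
    rw [Finset.card_map, Finset.card_sigma] at h3
    have h4 : ((∑ w ∈ b.erase v0, Hk kc e κ w (g w) : ℕ) : ℝ) ≤ τ / 50 * n := by
      have h5 : ∀ w ∈ b.erase v0, (Fintype.card V : ℝ) * (Hk kc e κ w (g w) : ℝ) ≤
          τ / 50 * n := by
        intro w hw
        rw [Finset.mem_erase] at hw
        refine le_trans ?_ (hcheap w hw.2 hw.1)
        apply mul_le_mul_of_nonneg_left _ c0.le
        exact_mod_cast Hk_le_sum (kc := kc) (e := e) κ w (g w)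
      have h6 : (Fintype.card V : ℝ) * ((∑ w ∈ b.erase v0, Hk kc e κ w (g w) : ℕ) : ℝ) ≤
          (Fintype.card V : ℝ) * (τ / 50 * n) := by
        push_cast
        rw [Finset.mul_sum]
        calc ∑ w ∈ b.erase v0, (Fintype.card V : ℝ) * (Hk kc e κ w (g w) : ℝ)
            ≤ ∑ _w ∈ b.erase v0, (τ / 50 * n) := Finset.sum_le_sum h5
          _ = ((b.erase v0).card : ℝ) * (τ / 50 * n) := by rw [Finset.sum_const, nsmul_eq_mul]
          _ ≤ _ := by
            apply mul_le_mul_of_nonneg_right _ (by positivity)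
            exact_mod_cast Finset.card_le_univ _
      exact le_of_mul_le_mul_left h6 c0
    have h5 : Y.card ≤ Mk kc κ v0 + (2 * Fintype.card V +
        ∑ w ∈ b.erase v0, Hk kc e κ w (g w)) := by
      refine h3.trans ?_
      apply Nat.add_le_add_left
      exact Nat.add_le_add_right h1 _
    have h6 : (N κ : ℝ) + 1 ≤ Mk kc κ v0 + (2 * Fintype.card V +
        ((∑ w ∈ b.erase v0, Hk kc e κ w (g w) : ℕ) : ℝ)) + Q.card := by
      have : N κ + 1 ≤ Mk kc κ v0 + (2 * Fintype.card V +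
        ∑ w ∈ b.erase v0, Hk kc e κ w (g w)) + Q.card := by omega
      exact_mod_cast this
    nlinarith
  have hYv0 : ∀ x ∈ Y, x.1 = v0 := by
    intro x hx
    by_contra hne
    have h1 := H.card_le_hit2 (fun d hd => (hQ d hd).trans (hY x hx).2.symm)
      (fun d hd => hbad x hx d hd)
    have h2 : (Q.card : ℝ) ≤ hit e x.1 (g x.1) x.2 + 2 := by exact_mod_cast h1
    have h3 := hcheap' x.1 (hY x hx).1 hne
    have h4 : (hit e x.1 (g x.1) x.2 : ℝ) ≤ ∑ j, (hit e x.1 (g x.1) j : ℝ) :=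
      Finset.single_le_sum (f := fun j => (hit e x.1 (g x.1) j : ℝ))
        (fun _ _ => Nat.cast_nonneg _) (Finset.mem_univ x.2)
    linarith
  have hQ4 : 4 ≤ Q.card := by
    have h1 : (3 : ℝ) < Q.card := by nlinarith
    have h2 : 3 < Q.card := by exact_mod_cast h1
    omega
  have hplo := H.p_lo v0 i κ
  -- the missing number
  have hpN : p v0 i ≤ N κ := by
    have hYpos : 0 < Y.card := by omega
    obtain ⟨x, hx⟩ := Finset.card_pos.1 hYpos
    have h1 := hYv0 x hx
    obtain ⟨v, j⟩ := x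
    simp only at h1
    subst h1
    have h2 := H.miss_cell v i j
    rw [(hY _ hx).2] at h2
    omega
  obtain ⟨μ, hμ⟩ := Nat.exists_eq_add_of_le hpN
  have hμ2 : μ ≤ 2 := by omega
  have hsub : Y ⊆ (univ.filter (fun j : J v0 => Q.card - μ ≤ hit e v0 i j)).map
        (Function.Embedding.sigmaMk v0) := by
    intro x hx
    have h1 := hYv0 x hx
    have h2 := H.card_le_hit (fun d hd => (hQ d hd).trans (hY x hx).2.symm)
      (fun d hd => hbad x hx d hd)
    rw [(hY x hx).2] at h2
    obtain ⟨v, j⟩ := x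
    simp only at h1
    subst h1
    simp only [hgv] at h2
    rw [Finset.mem_map]
    refine ⟨j, Finset.mem_filter.2 ⟨Finset.mem_univ _, ?_⟩, rfl⟩
    omega
  have hcnt := Finset.card_le_card hsub
  rw [Finset.card_map] at hcnt
  obtain ⟨s, hs⟩ := Nat.exists_eq_add_of_le hQN
  have hcnt2 : s + 1 ≤ (univ.filter (fun j : J v0 => Q.card - μ ≤ hit e v0 i j)).card := by
    omega
  obtain ⟨t, ht⟩ : ∃ t, Q.card = μ + 2 + t := ⟨Q.card - μ - 2, by omega⟩
  have hpv : p v0 i = s + t + 2 := by omega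
  have hQμ : Q.card - μ = t + 2 := by omega
  rw [hQμ] at hcnt2
  constructor
  · have h1 := cnt_hit_le' (e := e) (v := v0) (i := i) (t + 2)
    have h2 : (t + 2 - 1) * (s + 1) ≤ ∑ j, (hit e v0 i j - 1) :=
      (Nat.mul_le_mul_left _ hcnt2).trans h1
    have h3 : t + 2 - 1 = t + 1 := by omega
    rw [h3] at h2
    rw [hpv]
    nlinarith
  · have h1 := cnt_hit_le (e := e) (v := v0) (i := i) (t + 2)
    have h2 : (t + 2) * (s + 1) ≤ ∑ j, hit e v0 i j := (Nat.mul_le_mul_left _ hcnt2).trans h1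
    rw [hpv]
    nlinarith

/-- The cost of a full row. -/
theorem full_cost {v : V} {i : I v} (hkind : ∀ j, ∀ d ∈ al v i j, kb d = kc v j)
    (h : ∀ j, ∃ d ∈ al v i j, q (kb d) ≤ e v i j d) :
    ∑ j, q (kc v j) + ∑ j, (hit e v i j - 1) ≤ E e v i := by
  classical
  rw [E, ← Finset.sum_add_distrib]
  apply Finset.sum_le_sum
  intro j _
  obtain ⟨d, hd, hle⟩ := h j
  rw [hkind j d hd] at hle
  rw [← Finset.add_sum_erase _ _ (Finset.mem_univ d)]
  apply Nat.add_le_add hle
  have h1 : hit e v i j - 1 ≤ ((univ.erase d).filter (fun d => e v i j d ≠ 0)).card := by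
    have h2 : univ.filter (fun d => e v i j d ≠ 0) ⊆
        insert d ((univ.erase d).filter (fun d => e v i j d ≠ 0)) := by
      intro x hx
      rw [Finset.mem_filter] at hx
      rw [Finset.mem_insert, Finset.mem_filter, Finset.mem_erase]
      by_cases hxd : x = d
      · exact Or.inl hxd
      · exact Or.inr ⟨⟨hxd, Finset.mem_univ _⟩, hx.2⟩
    have h3 := (Finset.card_le_card h2).trans (Finset.card_insert_le _ _)
    rw [hit]
    omega
  refine h1.trans ?_
  rw [Finset.card_eq_sum_ones, Finset.sum_filter]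
  apply Finset.sum_le_sum
  intro x _
  split_ifs <;> omega

theorem false_of (H : GData A B lam mu τ δ n r G K N q kc kb al p e) (v0 : V) : False := by
  classical
  obtain ⟨hRB, hSA, hZA, hZB⟩ := H.extremal v0
  have hI := H.neI
  have h0 : ∀ v : V, ∃ i : I v, v ∈ RR δ q kb al e →
      ∀ j, ∃ d ∈ al v i j, q (kb d) ≤ e v i j d := by
    intro v
    by_cases hv : v ∈ RR δ q kb al e
    · obtain ⟨i, hi⟩ := H.full_row hv
      exact ⟨i, fun _ => hi⟩
    · obtain ⟨i⟩ := hI v
      exact ⟨i, fun h => absurd h hv⟩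
  choose is his using h0
  have row : ∀ v i, (if v ∈ RR δ q kb al e ∧ i = is v then ∑ j, q (kc v j) else 0) +
      (if v ∈ SS n δ e then p v i else 0) ≤
      E e v i + (if v ∈ RR δ q kb al e ∩ SS n δ e ∧ i = is v then 1 else 0) := by
    intro v i
    by_cases h1 : v ∈ RR δ q kb al e ∧ i = is v
    · obtain ⟨h2, h3⟩ := h1
      subst h3
      have h4 := full_cost (kc := kc) (fun j d hd => H.al_kind v (is v) j d hd) (his v h2)
      by_cases h5 : v ∈ SS n δ e
      · have h6 := (H.rows_S h5 (is v)).1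
        rw [if_pos ⟨h2, rfl⟩, if_pos h5, if_pos ⟨Finset.mem_inter.2 ⟨h2, h5⟩, rfl⟩]
        omega
      · rw [if_pos ⟨h2, rfl⟩, if_neg h5]
        omega
    · rw [if_neg h1, zero_add]
      by_cases h5 : v ∈ SS n δ e
      · have h6 := (H.rows_S h5 i).2
        have h7 := sum_hit_le e v i
        rw [if_pos h5]
        omega
      · rw [if_neg h5]
        omega
  have tot : ∑ v, ∑ i, ((if v ∈ RR δ q kb al e ∧ i = is v then ∑ j, q (kc v j) else 0) +
      (if v ∈ SS n δ e then p v i else 0)) ≤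
      ∑ v, ∑ i, (E e v i + (if v ∈ RR δ q kb al e ∩ SS n δ e ∧ i = is v then 1 else 0)) :=
    Finset.sum_le_sum (fun v _ => Finset.sum_le_sum (fun i _ => row v i))
  simp only [Finset.sum_add_distrib] at tot
  have e1 : ∑ v, ∑ i, (if v ∈ RR δ q kb al e ∧ i = is v then ∑ j, q (kc v j) else 0) = r := by
    rw [← H.sumQ _ hRB, ← Finset.sum_filter_add_sum_filter_not univ
      (fun v => v ∈ RR δ q kb al e)]
    have h1 : ∑ v ∈ univ.filter (fun v => ¬ v ∈ RR δ q kb al e),
        ∑ i, (if v ∈ RR δ q kb al e ∧ i = is v then ∑ j, q (kc v j) else 0) = 0 := by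
      apply Finset.sum_eq_zero
      intro v hv
      apply Finset.sum_eq_zero
      intro i _
      rw [if_neg (fun h => (Finset.mem_filter.1 hv).2 h.1)]
    have h2 : univ.filter (fun v => v ∈ RR δ q kb al e) = RR δ q kb al e := by
      ext x
      simp
    rw [h1, add_zero, h2]
    apply Finset.sum_congr rfl
    intro v hv
    simp [hv]
  have e2 : ∑ v, ∑ i, (if v ∈ SS n δ e then p v i else 0) = r := by
    rw [← H.sumP _ hSA, ← Finset.sum_filter_add_sum_filter_not univ (fun v => v ∈ SS n δ e)]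
    have h1 : ∑ v ∈ univ.filter (fun v => ¬ v ∈ SS n δ e),
        ∑ i, (if v ∈ SS n δ e then p v i else 0) = 0 := by
      apply Finset.sum_eq_zero
      intro v hv
      apply Finset.sum_eq_zero
      intro i _
      rw [if_neg (Finset.mem_filter.1 hv).2]
    have h2 : univ.filter (fun v => v ∈ SS n δ e) = SS n δ e := by
      ext x
      simp
    rw [h1, add_zero, h2]
    apply Finset.sum_congr rfl
    intro v hv
    simp [hv]
  have e3 : ∑ v, ∑ i, (if v ∈ RR δ q kb al e ∩ SS n δ e ∧ i = is v then 1 else 0) ≤ 1 := by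
    calc ∑ v, ∑ i, (if v ∈ RR δ q kb al e ∩ SS n δ e ∧ i = is v then 1 else 0)
        ≤ ∑ v, (if v ∈ RR δ q kb al e ∩ SS n δ e then 1 else 0) := by
          apply Finset.sum_le_sum
          intro v _
          by_cases hv : v ∈ RR δ q kb al e ∩ SS n δ e
          · simp [hv]
          · simp [hv]
      _ = (RR δ q kb al e ∩ SS n δ e).card := by
          rw [Finset.card_eq_sum_ones, ← Finset.sum_filter]
          congr 1
          ext x
          simp
      _ ≤ 1 := by
          rw [Finset.inter_comm]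
          exact (H.ex _ hSA _ hRB).le
  have hc := H.hc
  have hE : ∑ v, ∑ i, E e v i = ∑ v, ∑ i, ∑ j, ∑ d, e v i j d := rfl
  rw [e1, e2] at tot
  omega

end GData

end Pool.Agent.Lib.MP_6f811f_co
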