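import Pool.Agent.Lib.MP_6f811f_co.RefPair

/-!
General boards (two kinds of blocks, two kinds of rows): definitions.

`V` is the ground set of a reduced pair.  At every `v : V` there is a board with rows `I v` and
columns `J v`.  There is a finite type `D` of blocks of colours; `kb D` is the kind of a block,
`kc v j` the kind of a column, `q κ` the number of colours in a block of kind `κ`,
`N κ` the number of blocks of kind `κ`.  The blocks `al v i j` may be used in the cell `(v, i, j)`.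
-/

set_option autoImplicit false

namespace Pool.Agent.Lib.MP_6f811f_co

open Finset

section General

variable {V : Type} [Fintype V] [DecidableEq V] {I J : V → Type} [∀ v, Fintype (I v)]
  [∀ v, Fintype (J v)] [∀ v, DecidableEq (I v)] [∀ v, DecidableEq (J v)] {D : Type} [Fintype D]
  [DecidableEq D]

/-- The choice of columns `f` over `a` covers every block exactly as often as it has colours. -/
def Balanced (q : Bool → ℕ) (kb : D → Bool) (al : (v : V) → I v → J v → Finset D)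
    (a : Finset V) (f : (v : V) → I v → J v) : Prop :=
  ∀ d : D, ∑ v ∈ a, (univ.filter (fun i => d ∈ al v i (f v i))).card = q (kb d)

/-- Hall's condition fails for `(a, f)` and some block `d`. -/
def BadA (q : Bool → ℕ) (kb : D → Bool) (al : (v : V) → I v → J v → Finset D)
    (e : (v : V) → I v → J v → D → ℕ) (a : Finset V) (f : (v : V) → I v → J v) : Prop :=
  ∃ (d : D) (y : ℕ), 1 ≤ y ∧ y ≤ q (kb d) ∧
    q (kb d) + 1 ≤ y + ∑ v ∈ a, (univ.filter (fun i => d ∈ al v i (f v i) ∧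
      y ≤ e v i (f v i) d)).card

/-- Hall's condition fails for `(b, g)` and some kind `κ`. -/
def BadB (N : Bool → ℕ) (kc : (v : V) → J v → Bool) (kb : D → Bool)
    (al : (v : V) → I v → J v → Finset D)
    (e : (v : V) → I v → J v → D → ℕ) (b : Finset V) (g : (v : V) → I v) : Prop :=
  ∃ (κ : Bool) (Q : Finset D) (Y : Finset (Σ v, J v)), Q.Nonempty ∧ (∀ d ∈ Q, kb d = κ) ∧
    (∀ x ∈ Y, x.1 ∈ b ∧ kc x.1 x.2 = κ) ∧ N κ + 1 ≤ Y.card + Q.card ∧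
    ∀ x ∈ Y, ∀ d ∈ Q, d ∉ al x.1 (g x.1) x.2 ∨ e x.1 (g x.1) x.2 d ≠ 0

/-- The data for the core estimate. -/
structure GData (A B : Set (Finset V)) (lam mu : V → ℝ)
    (τ δ : ℝ) (n r G K : ℕ) (N q : Bool → ℕ) (kc : (v : V) → J v → Bool) (kb : D → Bool)
    (al : (v : V) → I v → J v → Finset D) (p : (v : V) → I v → ℕ)
    (e : (v : V) → I v → J v → D → ℕ) : Prop where
  τ0 : 0 < τ
  τ1 : τ ≤ 1
  δ0 : 0 < δ
  hδ : 1000 * (Fintype.card V : ℝ) ^ 2 * δ ≤ τ ^ 2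
  lam1 : ∀ v, lam v ≤ 1
  mu1 : ∀ v, mu v ≤ 1
  lamτ : ∀ v, τ ≤ lam v
  muτ : ∀ v, τ ≤ mu v
  sumlam : ∀ a ∈ A, ∑ v ∈ a, lam v = 1
  summu : ∀ b ∈ B, ∑ v ∈ b, mu v = 1
  ex : ∀ a ∈ A, ∀ b ∈ B, (a ∩ b).card = 1
  spanA : ∀ v, ∃ a ∈ A, v ∈ a
  spanB : ∀ v, ∃ b ∈ B, v ∈ b
  twoA : ∀ a ∈ A, 2 ≤ a.card
  twoB : ∀ b ∈ B, 2 ≤ b.card
  ss : ∀ R S Z : Finset V, Kills A R Z → Kills B S Z →
    2 + τ ≤ ∑ v ∈ R, mu v + ∑ v ∈ S, lam v + ∑ v ∈ Z, lam v * mu v ∨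
      (R ∈ B ∧ S ∈ A ∧ Z = ∅)
  nbig1 : 2 * (Fintype.card V : ℝ) + 4 ≤ δ * n
  nbig2 : 2 * (Fintype.card V : ℝ) ≤ δ ^ 2 * n
  Nlo : ∀ κ, n ≤ N κ
  Nhi : ∀ κ, N κ ≤ n + 1
  cardD : ∀ κ, (univ.filter (fun d => kb d = κ)).card = N κ
  sumMk : ∀ b ∈ B, ∀ κ, ∑ v ∈ b, (univ.filter (fun j : J v => kc v j = κ)).card = N κ
  hM : ∀ v κ, (mu v - δ) * n ≤ ((univ.filter (fun j : J v => kc v j = κ)).card : ℝ)
  sumQ : ∀ b ∈ B, ∑ v ∈ b, ∑ j, q (kc v j) = r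
  hQ : ∀ v, (mu v - δ) * r ≤ ∑ j, (q (kc v j) : ℝ)
  sumP : ∀ a ∈ A, ∑ v ∈ a, ∑ i, p v i = r
  hL : ∀ v, (lam v - δ) * r ≤ n * (Fintype.card (I v) : ℝ)
  Ibig : ∀ v, (Fintype.card D : ℝ) * G + 1 ≤ δ * Fintype.card (I v)
  qbig : ∀ κ, 2 * (r : ℝ) ≤ δ * q κ * G
  Gbig : 2 * n + 2 ≤ G
  hK : ∀ b : ℕ, b * G ≤ 2 * r → b + Fintype.card D * G ≤ K
  al_kind : ∀ v i j, ∀ d ∈ al v i j, kb d = kc v j
  al_card : ∀ v i j, (al v i j).card = p v i
  p_lo : ∀ v i κ, N κ ≤ p v i + 2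
  p_hi : ∀ v i, p v i ≤ n
  miss : ∀ v i d, (univ.filter (fun j => kc v j = kb d ∧ d ∉ al v i j)).card ≤ 2
  sel : ∀ a ∈ A, ∀ (Sp : Finset (Σ v, I v)) (f0 : (v : V) → I v → J v), Sp.card ≤ K →
    ∃ f : (v : V) → I v → J v, (∀ x ∈ Sp, f x.1 x.2 = f0 x.1 x.2) ∧ Balanced q kb al a f
  killA : ∀ a ∈ A, ∀ f : (v : V) → I v → J v, Balanced q kb al a f → BadA q kb al e a f
  killB : ∀ b ∈ B, ∀ g : (v : V) → I v, BadB N kc kb al e b g
  hc : (∑ v, ∑ i, ∑ j, ∑ d, e v i j d) + 2 ≤ 2 * r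

end General

section Concrete

/-- Row classes: class `inl ρ` rows use `n` blocks per cell, class `inr α` rows `n - 1` blocks. -/
abbrev Cls (n : ℕ) : Type := Fin (n + 1) ⊕ Fin n

/-- Blocks: `n` of kind `false`, `n + 1` of kind `true`. -/
abbrev Blk (n : ℕ) : Type := Fin n ⊕ Fin (n + 1)

/-- Rows of the board of `v`. -/
abbrev Rw {V : Type} (n : ℕ) (L : Cls n → V → ℕ) (v : V) : Type := Σ c : Cls n, Fin (L c v)

/-- Columns of the board of `v`: `M1 v` of kind `false`, `M2 v` of kind `true`. -/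
abbrev Cl {V : Type} (M1 M2 : V → ℕ) (v : V) : Type := Fin (M1 v) ⊕ Fin (M2 v)

/-- The kind of a block or of a column. -/
def kd {X Y : Type} : X ⊕ Y → Bool
  | Sum.inl _ => false
  | Sum.inr _ => true

/-- Block `d` may be used in a cell of a row of class `c` and a column `x`. -/
def Alw (n : ℕ) {m1 m2 : ℕ} : Cls n → Fin m1 ⊕ Fin m2 → Blk n → Prop
  | Sum.inl _, Sum.inl _, Sum.inl _ => True
  | Sum.inl ρ, Sum.inr j, Sum.inr h => (h : ℕ) ≠ ((ρ : ℕ) + j) % (n + 1)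
  | Sum.inr α, Sum.inl j, Sum.inl h => (h : ℕ) ≠ ((α : ℕ) + j) % n
  | Sum.inr α, Sum.inr j, Sum.inr h =>
      (h : ℕ) ≠ ((α : ℕ) + j) % (n + 1) ∧ (h : ℕ) ≠ ((α : ℕ) + j + 1) % (n + 1)
  | _, _, _ => False

open Classical in
/-- The blocks allowed in a cell. -/
noncomputable def alw (n : ℕ) {m1 m2 : ℕ} (c : Cls n) (x : Fin m1 ⊕ Fin m2) : Finset (Blk n) :=
  univ.filter (fun d => Alw n c x d)

/-- The number of blocks allowed in each cell of a row of class `c`. -/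
def pc (n : ℕ) : Cls n → ℕ
  | Sum.inl _ => n
  | Sum.inr _ => n - 1

end Concrete

end Pool.Agent.Lib.MP_6f811f_co
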