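import Pool.Agent.Lib.MP_6f811f_co.Defs
import Pool.Agent.Lib.MP_6f811f_co.GenDefs

/-!
General boards: from the core estimate to a lower bound for `tc`.
-/

set_option autoImplicit false
set_option linter.unusedSectionVars false

namespace Pool.Agent.Lib.MP_6f811f_co

open Finset

section HallGen

variable {V : Type} {I J : V → Type} {D : Type}

/-- Labels: the cells of the boards. -/
abbrev GLab (I J : V → Type) : Type := Σ v, I v × J v

/-- Colours: the elements of the blocks. -/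
abbrev GCol (q : Bool → ℕ) (kb : D → Bool) : Type := Σ d : D, Fin (q (kb d))

variable [Fintype V] [DecidableEq V] [∀ v, Fintype (I v)]
  [∀ v, Fintype (J v)] [∀ v, DecidableEq (I v)] [∀ v, DecidableEq (J v)] [Fintype D]
  [DecidableEq D]

/-- The number of colours of the block `d` which are blocked at the cell `(v, i, j)`. -/
def eT {q : Bool → ℕ} {kb : D → Bool} (T : Finset (GCol q kb × GLab I J)) (v : V) (i : I v)
    (j : J v) (d : D) : ℕ :=
  (univ.filter (fun k : Fin (q (kb d)) =>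
    ((⟨d, k⟩ : GCol q kb), (⟨v, (i, j)⟩ : GLab I J)) ∈ T)).card

/-- The labels of an `a`-vertex. -/
def IsA {q : Bool → ℕ} {kb : D → Bool} (A : Set (Finset V))
    (al : (v : V) → I v → J v → Finset D) (h : GCol q kb → GLab I J) : Prop :=
  ∃ a ∈ A, ∃ f : (v : V) → I v → J v, ∀ v ∈ a, ∀ i, ∀ d ∈ al v i (f v i),
    ∃ k, h ⟨d, k⟩ = ⟨v, (i, f v i)⟩

/-- The labels of a `b`-vertex. -/
def IsB {q : Bool → ℕ} {kb : D → Bool} (B : Set (Finset V))
    (al : (v : V) → I v → J v → Finset D) (h : GCol q kb → GLab I J) : Prop :=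
  ∃ b ∈ B, ∃ g : (v : V) → I v, ∀ v ∈ b, ∀ j, ∃ d ∈ al v (g v) j,
    ∀ k, h ⟨d, k⟩ = ⟨v, (g v, j)⟩

lemma sum_eT {q : Bool → ℕ} {kb : D → Bool} (T : Finset (GCol q kb × GLab I J)) :
    ∑ v, ∑ i, ∑ j, ∑ d, eT T v i j d = T.card := by
  have h1 : T.card = ∑ p : GCol q kb × GLab I J, if p ∈ T then 1 else 0 := by
    rw [Finset.sum_ite_mem, Finset.univ_inter, Finset.card_eq_sum_ones]
  rw [h1, Fintype.sum_prod_type_right, Fintype.sum_sigma]
  refine Finset.sum_congr rfl fun v _ => ?_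
  rw [Fintype.sum_prod_type]
  refine Finset.sum_congr rfl fun i _ => Finset.sum_congr rfl fun j _ => ?_
  rw [Fintype.sum_sigma]
  refine Finset.sum_congr rfl fun d _ => ?_
  rw [eT, Finset.card_filter]

lemma exists_isA {q : Bool → ℕ} {kb : D → Bool} {A : Set (Finset V)}
    {al : (v : V) → I v → J v → Finset D} (T : Finset (GCol q kb × GLab I J)) {a : Finset V}
    (ha : a ∈ A) {f : (v : V) → I v → J v} (hf : Balanced q kb al a f)
    (hbad : ¬ BadA q kb al (eT T) a f) :
    ∃ h : GCol q kb → GLab I J, IsA A al h ∧ ∀ c, (c, h c) ∉ T := by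
  classical
  have key : ∀ d : D, ∃ ψ : Fin (q (kb d)) →
      {x : Σ v, I v // x.1 ∈ a ∧ d ∈ al x.1 x.2 (f x.1 x.2)},
      (∀ x, ∃ k, ψ k = x) ∧
      ∀ k, ((⟨d, k⟩ : GCol q kb), (⟨(ψ k).1.1, ((ψ k).1.2, f (ψ k).1.1 (ψ k).1.2)⟩ : GLab I J)) ∉ T := by
    intro d
    have hcard : Fintype.card {x : Σ v, I v // x.1 ∈ a ∧ d ∈ al x.1 x.2 (f x.1 x.2)} = q (kb d) := by
      rw [Fintype.card_subtype, ← hf d, ← Finset.card_sigma]
      congr 1
      ext ⟨v, i⟩
      simp
    obtain ⟨ι, hι1, hι2⟩ := (Finset.all_card_le_biUnion_card_iff_exists_injective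
      (fun x : {x : Σ v, I v // x.1 ∈ a ∧ d ∈ al x.1 x.2 (f x.1 x.2)} =>
        univ.filter (fun k : Fin (q (kb d)) => ((⟨d, k⟩ : GCol q kb),
          (⟨x.1.1, (x.1.2, f x.1.1 x.1.2)⟩ : GLab I J)) ∉ T))).1 (by
      intro S
      by_contra hcon
      push Not at hcon
      have hS : S.card ≤ q (kb d) := by
        rw [← hcard]; exact Finset.card_le_univ S
      apply hbad
      refine ⟨d, q (kb d) + 1 - S.card, by omega, ?_, ?_⟩
      · have : 0 < S.card := by omega
        omega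
      · have hsub : S.card ≤ ∑ v ∈ a, (univ.filter (fun i => d ∈ al v i (f v i) ∧
            q (kb d) + 1 - S.card ≤ eT T v i (f v i) d)).card := by
          rw [← Finset.card_sigma]
          refine le_trans (Finset.card_map (Function.Embedding.subtype _)).ge ?_
          apply Finset.card_le_card
          intro x hx
          rw [Finset.mem_map] at hx
          obtain ⟨y, hy, rfl⟩ := hx
          have hy2 := y.2
          simp only [Function.Embedding.coe_subtype, Finset.mem_sigma, Finset.mem_filter,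
            Finset.mem_univ, true_and]
          refine ⟨hy2.1, hy2.2, ?_⟩
          have h1 : (univ.filter (fun k : Fin (q (kb d)) => ((⟨d, k⟩ : GCol q kb),
              (⟨y.1.1, (y.1.2, f y.1.1 y.1.2)⟩ : GLab I J)) ∉ T)).card < S.card := by
            refine lt_of_le_of_lt (Finset.card_le_card ?_) hcon
            exact Finset.subset_biUnion_of_mem (fun x : {x : Σ v, I v // x.1 ∈ a ∧ d ∈ al x.1 x.2 (f x.1 x.2)} =>
              univ.filter (fun k : Fin (q (kb d)) => ((⟨d, k⟩ : GCol q kb),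
              (⟨x.1.1, (x.1.2, f x.1.1 x.1.2)⟩ : GLab I J)) ∉ T)) hy
          have h2 : eT T y.1.1 y.1.2 (f y.1.1 y.1.2) d +
              (univ.filter (fun k : Fin (q (kb d)) => ((⟨d, k⟩ : GCol q kb),
              (⟨y.1.1, (y.1.2, f y.1.1 y.1.2)⟩ : GLab I J)) ∉ T)).card = q (kb d) := by
            rw [eT, Finset.card_filter_add_card_filter_not, Finset.card_univ, Fintype.card_fin]
          omega
        omega)
    have hbij : Function.Bijective ι := by
      rw [Fintype.bijective_iff_injective_and_card]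
      exact ⟨hι1, by rw [hcard, Fintype.card_fin]⟩
    refine ⟨(Equiv.ofBijective ι hbij).symm, fun x => ⟨ι x, ?_⟩, fun k => ?_⟩
    · exact (Equiv.ofBijective ι hbij).symm_apply_apply x
    · have h1 := hι2 ((Equiv.ofBijective ι hbij).symm k)
      rw [Finset.mem_filter] at h1
      have h2 : ι ((Equiv.ofBijective ι hbij).symm k) = k :=
        (Equiv.ofBijective ι hbij).apply_symm_apply k
      rw [h2] at h1
      exact h1.2
  choose ψ hψ1 hψ2 using key
  refine ⟨fun c => ⟨(ψ c.1 c.2).1.1, ((ψ c.1 c.2).1.2, f (ψ c.1 c.2).1.1 (ψ c.1 c.2).1.2)⟩, ?_, ?_⟩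
  · refine ⟨a, ha, f, fun v hv i d hd => ?_⟩
    obtain ⟨k, hk⟩ := hψ1 d ⟨⟨v, i⟩, hv, hd⟩
    exact ⟨k, congrArg (fun y : {x : Σ v, I v // x.1 ∈ a ∧ d ∈ al x.1 x.2 (f x.1 x.2)} =>
      (⟨y.1.1, (y.1.2, f y.1.1 y.1.2)⟩ : GLab I J)) hk⟩
  · rintro ⟨d, k⟩
    exact hψ2 d k

lemma exists_isB {q : Bool → ℕ} {kb : D → Bool} {B : Set (Finset V)} {N : Bool → ℕ}
    {kc : (v : V) → J v → Bool}
    {al : (v : V) → I v → J v → Finset D} (T : Finset (GCol q kb × GLab I J)) {b : Finset V}
    (hb : b ∈ B) {g : (v : V) → I v}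
    (hN : ∀ κ, (univ.filter (fun d => kb d = κ)).card = N κ)
    (hM : ∀ b ∈ B, ∀ κ, ∑ v ∈ b, (univ.filter (fun j : J v => kc v j = κ)).card = N κ)
    (hal : ∀ v i j, ∀ d ∈ al v i j, kb d = kc v j)
    (hbad : ¬ BadB N kc kb al (eT T) b g) :
    ∃ h : GCol q kb → GLab I J, IsB B al h ∧ ∀ c, (c, h c) ∉ T := by
  classical
  let t : {x : Σ v, J v // x.1 ∈ b} → Finset D := fun x =>
    univ.filter (fun d => d ∈ al x.1.1 (g x.1.1) x.1.2 ∧ eT T x.1.1 (g x.1.1) x.1.2 d = 0)
  have htk : ∀ x, ∀ d ∈ t x, kb d = kc x.1.1 x.1.2 := by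
    intro x d hd
    exact hal _ _ _ d (Finset.mem_filter.1 hd).2.1
  have hcell : ∀ κ, (univ.filter (fun x : {x : Σ v, J v // x.1 ∈ b} => kc x.1.1 x.1.2 = κ)).card
      = N κ := by
    intro κ
    rw [← hM b hb κ, ← Finset.card_sigma, ← Finset.card_map (Function.Embedding.subtype _)]
    congr 1
    ext ⟨v, j⟩
    simp [and_comm]
  have hcardD : Fintype.card D = N true + N false := by
    rw [← hN true, ← hN false, ← Finset.card_univ,
      ← Finset.card_filter_add_card_filter_not (s := (univ : Finset D)) (fun d => kb d = true)]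
    congr 2
    ext d
    simp
  have hcardX : Fintype.card {x : Σ v, J v // x.1 ∈ b} = N true + N false := by
    rw [← hcell true, ← hcell false, ← Finset.card_univ,
      ← Finset.card_filter_add_card_filter_not
        (s := (univ : Finset {x : Σ v, J v // x.1 ∈ b})) (fun x => kc x.1.1 x.1.2 = true)]
    congr 2
    ext d
    simp
  have hall : ∀ S : Finset {x : Σ v, J v // x.1 ∈ b}, S.card ≤ (S.biUnion t).card := by
    intro S
    -- it suffices to treat one kind
    have hkind : ∀ κ, (S.filter (fun x => kc x.1.1 x.1.2 = κ)).card ≤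
        ((S.biUnion t).filter (fun d => kb d = κ)).card := by
      intro κ
      set S' := S.filter (fun x => kc x.1.1 x.1.2 = κ) with hS'
      by_contra hcon
      push Not at hcon
      have hS'N : S'.card ≤ N κ := by
        rw [← hcell κ]
        apply Finset.card_le_card
        intro x hx
        exact Finset.mem_filter.2 ⟨Finset.mem_univ _, (Finset.mem_filter.1 hx).2⟩
      set U := (S.biUnion t).filter (fun d => kb d = κ) with hU
      have hUsub : U ⊆ univ.filter (fun d => kb d = κ) := by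
        intro d hd
        exact Finset.mem_filter.2 ⟨Finset.mem_univ _, (Finset.mem_filter.1 hd).2⟩
      have hQcard : (univ.filter (fun d => kb d = κ) \ U).card = N κ - U.card := by
        rw [Finset.card_sdiff_of_subset hUsub, hN]
      apply hbad
      refine ⟨κ, univ.filter (fun d => kb d = κ) \ U, S'.map (Function.Embedding.subtype _), ?_, ?_,
        ?_, ?_, ?_⟩
      · rw [← Finset.card_pos, hQcard]
        omega
      · intro d hd
        exact (Finset.mem_filter.1 (Finset.mem_sdiff.1 hd).1).2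
      · intro x hx
        rw [Finset.mem_map] at hx
        obtain ⟨y, hy, rfl⟩ := hx
        exact ⟨y.2, (Finset.mem_filter.1 hy).2⟩
      · rw [Finset.card_map, hQcard]
        omega
      · intro x hx d hd
        rw [Finset.mem_map] at hx
        obtain ⟨y, hy, rfl⟩ := hx
        by_contra hcon2
        push Not at hcon2
        have h1 := Finset.mem_sdiff.1 hd
        apply h1.2
        rw [hU, Finset.mem_filter]
        refine ⟨?_, (Finset.mem_filter.1 h1.1).2⟩
        rw [Finset.mem_biUnion]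
        refine ⟨y, (Finset.mem_filter.1 hy).1, ?_⟩
        exact Finset.mem_filter.2 ⟨Finset.mem_univ _, hcon2⟩
    have h1 := hkind true
    have h2 := hkind false
    have h3 := Finset.card_filter_add_card_filter_not (s := S) (fun x => kc x.1.1 x.1.2 = true)
    have h4 := Finset.card_filter_add_card_filter_not (s := S.biUnion t) (fun d => kb d = true)
    have h5 : (S.filter (fun x => ¬ kc x.1.1 x.1.2 = true)) =
        S.filter (fun x => kc x.1.1 x.1.2 = false) := by
      ext x; simp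
    have h6 : ((S.biUnion t).filter (fun d => ¬ kb d = true)) =
        (S.biUnion t).filter (fun d => kb d = false) := by
      ext x; simp
    rw [h5] at h3
    rw [h6] at h4
    omega
  obtain ⟨ι, hι1, hι2⟩ := (Finset.all_card_le_biUnion_card_iff_exists_injective t).1 hall
  have hbij : Function.Bijective ι := by
    rw [Fintype.bijective_iff_injective_and_card]
    exact ⟨hι1, by rw [hcardX, hcardD]⟩
  let E := Equiv.ofBijective ι hbij
  refine ⟨fun c => ⟨(E.symm c.1).1.1, (g (E.symm c.1).1.1, (E.symm c.1).1.2)⟩, ?_, ?_⟩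
  · refine ⟨b, hb, g, fun v hv j => ?_⟩
    have h1 := hι2 ⟨⟨v, j⟩, hv⟩
    refine ⟨ι ⟨⟨v, j⟩, hv⟩, (Finset.mem_filter.1 h1).2.1, fun k => ?_⟩
    have h2 : E.symm (ι ⟨⟨v, j⟩, hv⟩) = ⟨⟨v, j⟩, hv⟩ := E.symm_apply_apply _
    exact congrArg (fun y : {x : Σ v, J v // x.1 ∈ b} =>
      (⟨y.1.1, (g y.1.1, y.1.2)⟩ : GLab I J)) h2
  · rintro ⟨d, k⟩ hmem
    have h1 := hι2 (E.symm d)
    have h2 : ι (E.symm d) = d := E.apply_symm_apply d
    rw [h2] at h1
    have h3 := (Finset.mem_filter.1 h1).2.2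
    rw [eT, Finset.card_eq_zero] at h3
    have h4 : k ∈ (univ.filter (fun k : Fin (q (kb d)) =>
        ((⟨d, k⟩ : GCol q kb), (⟨(E.symm d).1.1, (g (E.symm d).1.1, (E.symm d).1.2)⟩ :
          GLab I J)) ∈ T)) := Finset.mem_filter.2 ⟨Finset.mem_univ _, hmem⟩
    rw [h3] at h4
    simp at h4

omit [Fintype V] [∀ v, Fintype (I v)] [∀ v, Fintype (J v)] [∀ v, DecidableEq (I v)]
  [∀ v, DecidableEq (J v)] [Fintype D] [DecidableEq D] in
lemma isA_isB {q : Bool → ℕ} {kb : D → Bool} {A B : Set (Finset V)}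
    (hex : ∀ a ∈ A, ∀ b ∈ B, (a ∩ b).card = 1)
    {al : (v : V) → I v → J v → Finset D} {h h' : GCol q kb → GLab I J} (hA : IsA A al h)
    (hB : IsB B al h') : ∃ c, h c = h' c := by
  obtain ⟨a, ha, f, hf⟩ := hA
  obtain ⟨b, hb, g, hg⟩ := hB
  obtain ⟨v, hv⟩ := Finset.card_pos.1 (by rw [hex a ha b hb]; exact one_pos)
  rw [Finset.mem_inter] at hv
  obtain ⟨d, hd, hd2⟩ := hg v hv.2 (f v (g v))
  obtain ⟨k, hk⟩ := hf v hv.1 (g v) d hd
  exact ⟨⟨d, k⟩, by rw [hk, hd2 k]⟩

end HallGen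

/-- If blocking all vertices of the general board system costs at least `2 r - 1`, then
`tc_r(K_{n,m}) ≥ 2 r - 1` for some `n, m`. -/
theorem hall_gen {V : Type} [Fintype V] [DecidableEq V] {A B : Set (Finset V)} (r : ℕ)
    (hr : 0 < r) (hex : ∀ a ∈ A, ∀ b ∈ B, (a ∩ b).card = 1) (N q : Bool → ℕ) {I J : V → Type}
    [∀ v, Fintype (I v)] [∀ v, Fintype (J v)] [∀ v, DecidableEq (I v)] [∀ v, DecidableEq (J v)]
    {D : Type} [Fintype D] [DecidableEq D] (kc : (v : V) → J v → Bool) (kb : D → Bool)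
    (al : (v : V) → I v → J v → Finset D) (hq : ∑ d, q (kb d) = r)
    (hN : ∀ κ, (univ.filter (fun d => kb d = κ)).card = N κ)
    (hM : ∀ b ∈ B, ∀ κ, ∑ v ∈ b, (univ.filter (fun j : J v => kc v j = κ)).card = N κ)
    (hal : ∀ v i j, ∀ d ∈ al v i j, kb d = kc v j)
    (hA0 : ∃ a ∈ A, ∃ f : (v : V) → I v → J v, Balanced q kb al a f)
    (hB0 : ∃ b ∈ B, ∃ g : (v : V) → I v, ¬ BadB N kc kb al (fun _ _ _ _ => 0) b g)
    (hcore : ∀ e : (v : V) → I v → J v → D → ℕ,
      (∀ a ∈ A, ∀ f : (v : V) → I v → J v, Balanced q kb al a f → BadA q kb al e a f) →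
      (∀ b ∈ B, ∀ g : (v : V) → I v, BadB N kc kb al e b g) →
      2 * r ≤ 1 + ∑ v, ∑ i, ∑ j, ∑ d, e v i j d) :
    ∃ n m : ℕ, 1 ≤ n ∧ 1 ≤ m ∧ 2 * r - 1 ≤ tc r (K n m) := by
  classical
  have hcard : Fintype.card (GCol q kb) = r := by
    rw [Fintype.card_sigma]
    simpa using hq
  let φ : GCol q kb ≃ Fin r := Fintype.equivFinOfCardEq hcard
  let AA := {h : GCol q kb → GLab I J // IsA A al h}
  let BB := {h : GCol q kb → GLab I J // IsB B al h}
  have he0 : (eT (∅ : Finset (GCol q kb × GLab I J))) = fun _ _ _ _ => 0 := by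
    funext v i j d
    simp [eT]
  have hAne : Nonempty AA := by
    obtain ⟨a, ha, f, hf⟩ := hA0
    obtain ⟨h, hh, _⟩ := exists_isA (∅ : Finset (GCol q kb × GLab I J)) ha hf (by
      rw [he0]
      rintro ⟨d, y, hy1, hy2, hy3⟩
      have h1 : ∑ v ∈ a, (univ.filter (fun i => d ∈ al v i (f v i) ∧ y ≤ 0)).card = 0 := by
        apply Finset.sum_eq_zero
        intro v _
        rw [Finset.card_eq_zero, Finset.filter_eq_empty_iff]
        intro i _ h2
        omega
      rw [h1] at hy3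
      omega)
    exact ⟨⟨h, hh⟩⟩
  have hBne : Nonempty BB := by
    obtain ⟨b, hb, g, hg⟩ := hB0
    obtain ⟨h, hh, _⟩ := exists_isB (q := q) (∅ : Finset (GCol q kb × GLab I J)) hb hN hM hal (g := g) (by
      rw [he0]; exact hg)
    exact ⟨⟨h, hh⟩⟩
  let eA := Fintype.equivFin AA
  let eB := Fintype.equivFin BB
  refine ⟨Fintype.card AA, Fintype.card BB, Fintype.card_pos, Fintype.card_pos, ?_⟩
  refine le_tc_of_labels (L := GLab I J) ⟨0, hr⟩ (fun i a => (eA.symm a).1 (φ.symm i))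
    (fun i b => (eB.symm b).1 (φ.symm i)) ?_ ?_
  · intro a b
    obtain ⟨c, hc⟩ := isA_isB hex (eA.symm a).2 (eB.symm b).2
    refine ⟨φ c, ?_⟩
    simpa using hc
  · intro T hT
    by_contra hcon
    push Not at hcon
    obtain ⟨hcon1, hcon2⟩ := hcon
    let T' : Finset (GCol q kb × GLab I J) := T.image (fun p => (φ.symm p.1, p.2))
    have hT' : T'.card ≤ T.card := Finset.card_image_le
    have hmem : ∀ i x, (i, x) ∈ T → (φ.symm i, x) ∈ T' := fun i x hx =>
      Finset.mem_image.2 ⟨(i, x), hx, rfl⟩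
    have h1 := hcore (eT T') (by
      intro a ha f hf
      by_contra hbad
      obtain ⟨h, hh, hh2⟩ := exists_isA T' ha hf hbad
      obtain ⟨i, hi⟩ := hcon1 (eA ⟨h, hh⟩)
      rw [Equiv.symm_apply_apply] at hi
      exact hh2 _ (hmem _ _ hi)) (by
      intro b hb g
      by_contra hbad
      obtain ⟨h, hh, hh2⟩ := exists_isB T' hb hN hM hal hbad
      obtain ⟨i, hi⟩ := hcon2 (eB ⟨h, hh⟩)
      rw [Equiv.symm_apply_apply] at hi
      exact hh2 _ (hmem _ _ hi))
    rw [sum_eT] at h1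
    omega

end Pool.Agent.Lib.MP_6f811f_co
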