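import Pool.Agent.Lib.MP_6f811f_co.GenDefs

/-!
General boards: choice of the parameters.
-/

set_option autoImplicit false

namespace Pool.Agent.Lib.MP_6f811f_co

open Finset

/-- division with rounding up -/
theorem par_ceil (n ρ : ℕ) (hn : 2 ≤ n) : ∃ a c ε t : ℕ, ρ = n * a + c ∧ c < n ∧ ε ≤ 1 ∧ t < n ∧
    ρ + t = n * (a + ε) := by
  refine ⟨ρ / n, ρ % n, if ρ % n = 0 then 0 else 1, if ρ % n = 0 then 0 else n - ρ % n,
    (Nat.div_add_mod ρ n).symm, Nat.mod_lt _ (by omega), ?_, ?_, ?_⟩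
  · split_ifs <;> omega
  · split_ifs with h
    · omega
    · have := Nat.mod_lt ρ (show 0 < n by omega)
      omega
  · have h1 := Nat.div_add_mod ρ n
    have h2 := Nat.mod_lt ρ (show 0 < n by omega)
    split_ifs with h
    · rw [h] at h1
      simpa using h1.symm
    · rw [Nat.mul_add, mul_one]
      omega

/-- the parameters, with all products expanded in terms of `X` -/
theorem par_aux (n : ℕ) (hn : 2 ≤ n) (C G X ρ r : ℕ)
    (hr : r = 4 * (n * n * (n + 1)) * X + ρ) (hρ : ρ < 4 * (n * n * (n + 1)))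
    (hG : G = 128 * (n * (n + 1)) + 16 * (C * (n + 1)))
    (hX : 84 + 64 * ((2 * n + 1) * G) ≤ X) (hC : C * ((2 * n + 1) * G + 1) ≤ r) :
    ∃ u w t1 t2 q1 q2 G K : ℕ, n * q1 + (n + 1) * q2 = r ∧
      n * ((n + 1) * u + t1) + (n - 1) * (n * w + t2) = r ∧ t2 < n ∧ 2 * K ≤ w ∧
      q1 + q2 + w + 4 * K + n ≤ (n + 1) * u + t1 + (n * w + t2) ∧
      (n + 1) * u + t1 + (n * w + t2) + 2 * K ≤ u + q1 + q2 + w ∧
      2 * n + 2 ≤ G ∧ C * r ≤ q1 * G ∧ C * r ≤ q2 * G ∧ C * ((2 * n + 1) * G + 1) ≤ r ∧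
      (∀ b : ℕ, b * G ≤ 2 * r → b + (2 * n + 1) * G ≤ K) := by
  obtain ⟨a, c, ε, t, h1, hc, hε, ht, h2⟩ := par_ceil n ρ hn
  have hX1 : 1 ≤ X := by omega
  have hnX : n ≤ n * X := Nat.le_mul_of_pos_right n (by omega)
  have hnnX : n * X ≤ n * n * X := by
    rw [mul_assoc]
    exact Nat.le_mul_of_pos_left _ (by omega)
  -- the value of `q1`
  obtain ⟨q1, hq1⟩ : ∃ q1, q1 + c = 3 * (n * n * X) + 3 * (n * X) + a :=
    ⟨3 * (n * n * X) + 3 * (n * X) + a - c, by omega⟩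
  obtain ⟨u, hu⟩ : ∃ u, u + 1 = 2 * (n * X) + 2 * X := ⟨2 * (n * X) + 2 * X - 1, by omega⟩
  obtain ⟨t1, ht1⟩ : ∃ t1, t1 + t = n + 1 + a + ε := ⟨n + 1 + a + ε - t, by omega⟩
  obtain ⟨K, hK⟩ : ∃ K, K = n * (X + 1) / 16 + 1 + (2 * n + 1) * G := ⟨_, rfl⟩
  obtain ⟨m, hm⟩ : ∃ m, n = m + 1 := ⟨n - 1, by omega⟩
  have hm' : n - 1 = m := by omega
  have hKX : 4 * K + n ≤ n * X := by
    have e1 : 16 * (n * (X + 1) / 16) ≤ n * (X + 1) := Nat.mul_div_le _ _
    have e2 : n * (X + 1) = n * X + n := by ring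
    have e3 : n * (84 + 64 * ((2 * n + 1) * G)) ≤ n * X := Nat.mul_le_mul_left n hX
    have e4 : n * (84 + 64 * ((2 * n + 1) * G)) = 84 * n + 64 * (n * ((2 * n + 1) * G)) := by ring
    have e5 : 2 * ((2 * n + 1) * G) ≤ n * ((2 * n + 1) * G) := Nat.mul_le_mul_right _ hn
    omega
  refine ⟨u, 2 * (n * X) + 2 * X, t1, t, q1, n * n * X + c, G, K, ?_, ?_, ht, ?_, ?_, ?_, ?_, ?_,
    ?_, hC, ?_⟩
  · -- (1)
    rw [hr, h1]
    zify at hq1 ⊢
    linear_combination (n : ℤ) * hq1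
  · -- (2)
    rw [hm', hr]
    zify at hu ht1 h2 hm ⊢
    have h2' : (ρ : ℤ) = n * (a + ε) - t := by linear_combination h2
    rw [h2']
    have hu' : (u : ℤ) = 2 * (n * X) + 2 * X - 1 := by linear_combination hu
    have ht1' : (t1 : ℤ) = n + 1 + a + ε - t := by linear_combination ht1
    rw [hu', ht1', hm]
    ring
  · omega
  · -- (5)
    have key : (n + 1) * u + t1 + (n * (2 * (n * X) + 2 * X) + t) =
        q1 + (n * n * X + c) + (2 * (n * X) + 2 * X) + (n * X + ε) := by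
      zify at hu ht1 hq1 ⊢
      linear_combination (n + 1 : ℤ) * hu + ht1 - hq1
    rw [key]
    omega
  · -- (6)
    have key : (n + 1) * u + t1 + (n * (2 * (n * X) + 2 * X) + t) =
        q1 + (n * n * X + c) + (2 * (n * X) + 2 * X) + (n * X + ε) := by
      zify at hu ht1 hq1 ⊢
      linear_combination (n + 1 : ℤ) * hu + ht1 - hq1
    rw [key]
    omega
  · -- (7)
    rw [hG]
    have : n * 1 ≤ n * (n + 1) := Nat.mul_le_mul_left n (by omega)
    omega
  · -- (8)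
    have e1 : n * n * X ≤ q1 := by omega
    calc C * r ≤ C * (4 * (n * n * (n + 1)) * (X + 1)) := by
          apply Nat.mul_le_mul_left
          rw [hr, Nat.mul_add (4 * (n * n * (n + 1))) X 1, Nat.mul_one]
          exact Nat.add_le_add_left hρ.le _
      _ ≤ C * (4 * (n * n * (n + 1)) * (4 * X)) := by
          apply Nat.mul_le_mul_left
          apply Nat.mul_le_mul_left
          omega
      _ = (n * n * X) * (16 * (C * (n + 1))) := by ring
      _ ≤ (n * n * X) * G := Nat.mul_le_mul_left _ (by rw [hG]; omega)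
      _ ≤ q1 * G := Nat.mul_le_mul_right _ e1
  · have e1 : n * n * X ≤ n * n * X + c := by omega
    calc C * r ≤ C * (4 * (n * n * (n + 1)) * (X + 1)) := by
          apply Nat.mul_le_mul_left
          rw [hr, Nat.mul_add (4 * (n * n * (n + 1))) X 1, Nat.mul_one]
          exact Nat.add_le_add_left hρ.le _
      _ ≤ C * (4 * (n * n * (n + 1)) * (4 * X)) := by
          apply Nat.mul_le_mul_left
          apply Nat.mul_le_mul_left
          omega
      _ = (n * n * X) * (16 * (C * (n + 1))) := by ring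
      _ ≤ (n * n * X) * G := Nat.mul_le_mul_left _ (by rw [hG]; omega)
      _ ≤ (n * n * X + c) * G := Nat.mul_le_mul_right _ e1
  · -- (10)
    intro b hb
    have e1 : b * (128 * (n * (n + 1))) ≤ b * G := Nat.mul_le_mul_left _ (by rw [hG]; omega)
    have e2 : 2 * r < 8 * (n * n * (n + 1)) * (X + 1) := by
      rw [hr]
      have : 8 * (n * n * (n + 1)) * (X + 1) =
          2 * (4 * (n * n * (n + 1)) * X) + 2 * (4 * (n * n * (n + 1))) := by ring
      rw [this]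
      omega
    have e3 : (8 * (n * (n + 1))) * (16 * b) < (8 * (n * (n + 1))) * (n * (X + 1)) := by
      calc (8 * (n * (n + 1))) * (16 * b) = b * (128 * (n * (n + 1))) := by ring
        _ ≤ b * G := e1
        _ ≤ 2 * r := hb
        _ < 8 * (n * n * (n + 1)) * (X + 1) := e2
        _ = _ := by ring
    have e4 : 16 * b < n * (X + 1) := lt_of_mul_lt_mul_left e3 (Nat.zero_le _)
    have e5 : b ≤ n * (X + 1) / 16 := by
      rw [Nat.le_div_iff_mul_le (by norm_num)]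
      omega
    rw [hK]
    omega

theorem exists_params (n : ℕ) (hn : 2 ≤ n) (C : ℕ) : ∃ r0 : ℕ, ∀ r : ℕ, r0 ≤ r →
    ∃ u w t1 t2 q1 q2 G K : ℕ, n * q1 + (n + 1) * q2 = r ∧
      n * ((n + 1) * u + t1) + (n - 1) * (n * w + t2) = r ∧ t2 < n ∧ 2 * K ≤ w ∧
      q1 + q2 + w + 4 * K + n ≤ (n + 1) * u + t1 + (n * w + t2) ∧
      (n + 1) * u + t1 + (n * w + t2) + 2 * K ≤ u + q1 + q2 + w ∧
      2 * n + 2 ≤ G ∧ C * r ≤ q1 * G ∧ C * r ≤ q2 * G ∧ C * ((2 * n + 1) * G + 1) ≤ r ∧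
      (∀ b : ℕ, b * G ≤ 2 * r → b + (2 * n + 1) * G ≤ K) := by
  obtain ⟨G, hG⟩ : ∃ G, G = 128 * (n * (n + 1)) + 16 * (C * (n + 1)) := ⟨_, rfl⟩
  refine ⟨4 * (n * n * (n + 1)) * (84 + 64 * ((2 * n + 1) * G)) + C * ((2 * n + 1) * G + 1), ?_⟩
  intro r hr
  have hpos : 0 < 4 * (n * n * (n + 1)) := by positivity
  refine par_aux n hn C G (r / (4 * (n * n * (n + 1)))) (r % (4 * (n * n * (n + 1)))) r
    (Nat.div_add_mod _ _).symm (Nat.mod_lt _ hpos) hG ?_ ?_
  · rw [Nat.le_div_iff_mul_le hpos, mul_comm]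
    omega
  · omega

end Pool.Agent.Lib.MP_6f811f_co
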