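import Pool.Agent.Lib.MP_6f811f_co.GenDefs

/-!
General boards: the selection lemma.
-/

set_option autoImplicit false

namespace Pool.Agent.Lib.MP_6f811f_co

open Finset

open Classical in
/-- the missing blocks of a cell -/
noncomputable def gsMs (n : ℕ) {m1 m2 : ℕ} (c : Cls n) (y : Fin m1 ⊕ Fin m2) : Finset (Blk n) :=
  univ.filter (fun d => (kd d : Bool) = kd y ∧ ¬ Alw n c y d)

lemma gs_mem_ms (n : ℕ) {m1 m2 : ℕ} (c : Cls n) (y : Fin m1 ⊕ Fin m2) (d : Blk n) :
    d ∈ gsMs n c y ↔ (kd d : Bool) = kd y ∧ ¬ Alw n c y d := by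
  unfold gsMs
  simp

lemma gs_mem_alw (n : ℕ) {m1 m2 : ℕ} (c : Cls n) (y : Fin m1 ⊕ Fin m2) (d : Blk n) :
    d ∈ alw n c y ↔ (kd d : Bool) = kd y ∧ d ∉ gsMs n c y := by
  classical
  rw [gs_mem_ms]
  have h0 : d ∈ alw n c y ↔ Alw n c y d := by
    unfold alw
    simp
  rw [h0]
  constructor
  · intro h
    refine ⟨?_, fun h' => h'.2 h⟩
    rcases c with ρ | α <;> rcases y with j | j <;> rcases d with h' | h' <;>
      simp_all [kd, Alw]
  · rintro ⟨h1, h2⟩
    by_contra h3
    exact h2 ⟨h1, h3⟩

lemma gs_card_ms (n : ℕ) (hn : 2 ≤ n) {m1 m2 : ℕ} (c : Cls n) (y : Fin m1 ⊕ Fin m2) :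
    (gsMs n c y).card = (if (kd c : Bool) then 1 else 0) + (if (kd y : Bool) then 1 else 0) := by
  rcases c with ρ | α
  · rcases y with j | j
    · have : gsMs n (Sum.inl ρ) (Sum.inl j : Fin m1 ⊕ Fin m2) = ∅ := by
        ext d
        rw [gs_mem_ms]
        rcases d with h | h <;> simp [kd, Alw]
      rw [this]
      simp [kd]
    · have : gsMs n (Sum.inl ρ) (Sum.inr j : Fin m1 ⊕ Fin m2) =
          {Sum.inr ⟨((ρ : ℕ) + j) % (n + 1), Nat.mod_lt _ (Nat.succ_pos n)⟩} := by
        ext d
        rw [gs_mem_ms]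
        rcases d with h | h <;> simp [kd, Alw, Fin.ext_iff]
      rw [this]
      simp [kd]
  · rcases y with j | j
    · have : gsMs n (Sum.inr α) (Sum.inl j : Fin m1 ⊕ Fin m2) =
          {Sum.inl ⟨((α : ℕ) + j) % n, Nat.mod_lt _ (by omega)⟩} := by
        ext d
        rw [gs_mem_ms]
        rcases d with h | h <;> simp [kd, Alw, Fin.ext_iff]
      rw [this]
      simp [kd]
    · have : gsMs n (Sum.inr α) (Sum.inr j : Fin m1 ⊕ Fin m2) =
          {Sum.inr ⟨((α : ℕ) + j) % (n + 1), Nat.mod_lt _ (Nat.succ_pos n)⟩,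
            Sum.inr ⟨((α : ℕ) + j + 1) % (n + 1), Nat.mod_lt _ (Nat.succ_pos n)⟩} := by
        ext d
        rw [gs_mem_ms]
        rcases d with h | h
        · simp [kd, Alw]
        · simp [kd, Alw, Fin.ext_iff]
          tauto
      rw [this, card_pair]
      · simp [kd]
      · intro h
        rw [Sum.inr.injEq, Fin.mk.injEq] at h
        have h1 := Nat.add_mod ((α : ℕ) + j) 1 (n + 1)
        rw [Nat.mod_eq_of_lt (show 1 < n + 1 by omega)] at h1
        have h2 := Nat.mod_lt ((α : ℕ) + j) (show 0 < n + 1 by omega)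
        rcases Nat.lt_or_ge (((α : ℕ) + j) % (n + 1) + 1) (n + 1) with h3 | h3
        · rw [Nat.mod_eq_of_lt h3] at h1
          omega
        · have h4 : ((α : ℕ) + j) % (n + 1) + 1 = n + 1 := by omega
          rw [h4, Nat.mod_self] at h1
          omega

lemma gs_l2 (n : ℕ) {m1 m2 : ℕ} (hm : 0 < m2) (ρ h : Fin (n + 1)) :
    (Sum.inr h : Blk n) ∈ gsMs n (Sum.inl ρ) (Sum.inr ⟨0, hm⟩ : Fin m1 ⊕ Fin m2) ↔ h = ρ := by
  rw [gs_mem_ms]
  have := Nat.mod_eq_of_lt ρ.2
  simp [kd, Alw, Fin.ext_iff, this]

lemma gs_r1 (n : ℕ) {m1 m2 : ℕ} (hm : 0 < m1) (α h : Fin n) :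
    (Sum.inl h : Blk n) ∈ gsMs n (Sum.inr α) (Sum.inl ⟨0, hm⟩ : Fin m1 ⊕ Fin m2) ↔ h = α := by
  rw [gs_mem_ms]
  have := Nat.mod_eq_of_lt α.2
  simp [kd, Alw, Fin.ext_iff, this]

lemma gs_r2 (n : ℕ) {m1 m2 : ℕ} (hm : 0 < m2) (α : Fin n) (h : Fin (n + 1)) :
    (Sum.inr h : Blk n) ∈ gsMs n (Sum.inr α) (Sum.inr ⟨0, hm⟩ : Fin m1 ⊕ Fin m2) ↔
      h = α.castSucc ∨ h = α.succ := by
  rw [gs_mem_ms]
  have h1 := Nat.mod_eq_of_lt (show (α : ℕ) < n + 1 by omega)
  have h2 := Nat.mod_eq_of_lt (show (α : ℕ) + 1 < n + 1 by omega)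
  simp [kd, Alw, Fin.ext_iff, h1, h2]
  tauto

lemma gs_l1 (n : ℕ) {m1 m2 : ℕ} (ρ : Fin (n + 1)) (j : Fin m1) (d : Blk n) :
    d ∉ gsMs n (Sum.inl ρ) (Sum.inl j : Fin m1 ⊕ Fin m2) := by
  rw [gs_mem_ms]
  rcases d with h | h <;> simp [kd, Alw]

lemma gs_kind {n m1 m2 : ℕ} {c : Cls n} {y : Fin m1 ⊕ Fin m2} {d : Blk n}
    (h : d ∈ gsMs n c y) : (kd d : Bool) = kd y := ((gs_mem_ms n c y d).1 h).1

/-- the counting part of the selection lemma -/
lemma gs_count {X : Type} (n N1 N2 q1 q2 z τ : ℕ) (R : Finset X) (c : X → Cls n) (κ : X → Bool)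
    (ms : X → Finset (Blk n)) (hk : ∀ x ∈ R, ∀ d ∈ ms x, (kd d : Bool) = κ x)
    (hc : ∀ x ∈ R, (ms x).card = (if (kd (c x) : Bool) then 1 else 0) + (if κ x then 1 else 0))
    (hN1 : (R.filter (fun x => (kd (c x) : Bool) = false)).card = N1)
    (hN2 : (R.filter (fun x => (kd (c x) : Bool) = true)).card = N2)
    (hz : ∀ h : Fin n, (R.filter (fun x => (Sum.inl h : Blk n) ∈ ms x)).card = z)
    (hτ : ∀ h : Fin (n + 1), (R.filter (fun x => (Sum.inr h : Blk n) ∈ ms x)).card = τ)
    (hs : z + τ + q1 + q2 = N1 + N2) (hn : 1 ≤ n)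
    (hr : n * q1 + (n + 1) * q2 = n * N1 + (n - 1) * N2) (d : Blk n) :
    (R.filter (fun x => (kd d : Bool) = κ x ∧ d ∉ ms x)).card = if (kd d : Bool) then q2 else q1 := by
  classical
  -- A, B, E, F
  have hA : (R.filter (fun x => κ x = false)).card + (R.filter (fun x => κ x = true)).card
      = R.card := by
    have := Finset.card_filter_add_card_filter_not (s := R) (fun x => κ x = false)
    simpa using this
  have hN : N1 + N2 = R.card := by
    have := Finset.card_filter_add_card_filter_not (s := R) (fun x => (kd (c x) : Bool) = false)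
    rw [← hN1, ← hN2]
    simpa using this
  set E := (R.filter (fun x => κ x = false ∧ (kd (c x) : Bool) = true)).card with hE
  set F := (R.filter (fun x => κ x = true ∧ (kd (c x) : Bool) = true)).card with hF
  have hEF : E + F = N2 := by
    have := Finset.card_filter_add_card_filter_not
      (s := R.filter (fun x => (kd (c x) : Bool) = true)) (fun x => κ x = false)
    rw [← hN2, ← this, hE, hF, Finset.filter_filter, Finset.filter_filter]
    congr 2
    · ext x
      simp only [mem_filter]
      tauto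
    · ext x
      simp only [mem_filter, Bool.not_eq_false]
      tauto
  -- double counting, false kind
  have h1 : n * z = E := by
    have e1 : ∑ h : Fin n, (R.filter (fun x => (Sum.inl h : Blk n) ∈ ms x)).card = n * z := by
      rw [Finset.sum_congr rfl (fun h _ => hz h)]
      simp
    rw [← e1]
    simp_rw [Finset.card_filter]
    rw [Finset.sum_comm, hE, Finset.card_filter]
    refine Finset.sum_congr rfl (fun x hx => ?_)
    have e2 : (∑ h : Fin n, if (Sum.inl h : Blk n) ∈ ms x then 1 else 0)
        = if κ x = false then (ms x).card else 0 := by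
      rw [← Finset.card_filter]
      split_ifs with h3
      · refine Finset.card_bij (fun h _ => (Sum.inl h : Blk n)) ?_ ?_ ?_
        · intro h hh
          simpa using hh
        · intro h _ h' _ he
          exact Sum.inl.inj he
        · intro b hb
          have := hk x hx b hb
          rcases b with b | b
          · exact ⟨b, by simpa using hb, rfl⟩
          · rw [h3] at this
            simp [kd] at this
      · rw [Finset.card_eq_zero, Finset.filter_eq_empty_iff]
        intro h _ hh
        have := hk x hx _ hh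
        apply h3
        rw [← this]
        rfl
    rw [e2, hc x hx]
    cases hκ : κ x <;> cases hcc : (kd (c x) : Bool) <;> simp
  have h2 : (n + 1) * τ = (R.filter (fun x => κ x = true)).card + F := by
    have e1 : ∑ h : Fin (n + 1), (R.filter (fun x => (Sum.inr h : Blk n) ∈ ms x)).card
        = (n + 1) * τ := by
      rw [Finset.sum_congr rfl (fun h _ => hτ h)]
      simp
    rw [← e1]
    simp_rw [Finset.card_filter]
    rw [Finset.sum_comm, hF, Finset.card_filter, ← Finset.sum_add_distrib]
    refine Finset.sum_congr rfl (fun x hx => ?_)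
    have e2 : (∑ h : Fin (n + 1), if (Sum.inr h : Blk n) ∈ ms x then 1 else 0)
        = if κ x = true then (ms x).card else 0 := by
      rw [← Finset.card_filter]
      split_ifs with h3
      · refine Finset.card_bij (fun h _ => (Sum.inr h : Blk n)) ?_ ?_ ?_
        · intro h hh
          simpa using hh
        · intro h _ h' _ he
          exact Sum.inr.inj he
        · intro b hb
          have := hk x hx b hb
          rcases b with b | b
          · rw [h3] at this
            simp [kd] at this
          · exact ⟨b, by simpa using hb, rfl⟩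
      · rw [Finset.card_eq_zero, Finset.filter_eq_empty_iff]
        intro h _ hh
        have := hk x hx _ hh
        apply h3
        rw [← this]
        rfl
    rw [e2, hc x hx]
    cases hκ : κ x <;> cases hcc : (kd (c x) : Bool) <;> simp
  -- coverage
  have h3 : ∀ d : Blk n, (R.filter (fun x => (kd d : Bool) = κ x ∧ d ∉ ms x)).card
      + (R.filter (fun x => d ∈ ms x)).card = (R.filter (fun x => κ x = kd d)).card := by
    intro d
    have := Finset.card_filter_add_card_filter_not
      (s := R.filter (fun x => κ x = kd d)) (fun x => d ∉ ms x)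
    rw [← this, Finset.filter_filter, Finset.filter_filter]
    congr 2
    · ext x
      simp only [mem_filter]
      tauto
    · ext x
      simp only [mem_filter, not_not]
      constructor
      · rintro ⟨hx, hd⟩
        exact ⟨hx, (hk x hx d hd).symm, hd⟩
      · rintro ⟨hx, _, hd⟩
        exact ⟨hx, hd⟩
  have h4 := h3 d
  obtain ⟨m, rfl⟩ : ∃ m, n = m + 1 := ⟨n - 1, by omega⟩
  rw [Nat.add_sub_cancel] at hr
  set A := (R.filter (fun x => κ x = false)).card with hAdef
  set B := (R.filter (fun x => κ x = true)).card with hBdef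
  rw [← hN] at hA
  rcases d with h | h
  · have h5 := hz h
    have h6 : (kd (Sum.inl h : Blk (m + 1)) : Bool) = false := rfl
    rw [h6] at h4 ⊢
    rw [h5, ← hAdef] at h4
    simp only [Bool.false_eq_true, if_false]
    generalize (R.filter (fun x => false = κ x ∧ (Sum.inl h : Blk (m + 1)) ∉ ms x)).card = Y at *
    zify at *
    have h7 : (Y : ℤ) = A - z := by linarith
    have h8 : (A : ℤ) = N1 + N2 - B := by linarith
    have h9 : (B : ℤ) = (m + 1 + 1) * τ - (N2 - E) := by linarith
    have h10 : (E : ℤ) = (m + 1) * z := by linarith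
    have h11 : (z : ℤ) = N1 + N2 - q1 - q2 - τ := by linarith
    rw [h7, h8, h9, h10, h11]
    linarith
  · have h5 := hτ h
    have h6 : (kd (Sum.inr h : Blk (m + 1)) : Bool) = true := rfl
    rw [h6] at h4 ⊢
    rw [h5, ← hBdef] at h4
    simp only [if_true]
    generalize (R.filter (fun x => true = κ x ∧ (Sum.inr h : Blk (m + 1)) ∉ ms x)).card = Y at *
    zify at *
    have h7 : (Y : ℤ) = B - τ := by linarith
    have h9 : (B : ℤ) = (m + 1 + 1) * τ - (N2 - E) := by linarith
    have h10 : (E : ℤ) = (m + 1) * z := by linarith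
    have h11 : (z : ℤ) = N1 + N2 - q1 - q2 - τ := by linarith
    rw [h7, h9, h10, h11]
    linarith

/-- number of rows of a given class -/
lemma gs_rows {V : Type} [DecidableEq V] (n : ℕ) (a : Finset V) (L : Cls n → V → ℕ)
    (c : Cls n) :
    ((a.sigma (fun v => (univ : Finset (Rw n L v)))).filter (fun x => x.2.1 = c)).card
      = ∑ v ∈ a, L c v := by
  classical
  have h : ((a.sigma (fun v => (univ : Finset (Rw n L v)))).filter (fun x => x.2.1 = c))
      = a.sigma (fun v => (univ : Finset (Rw n L v)).filter (fun i => i.1 = c)) := by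
    ext ⟨v, i⟩
    simp
  rw [h, Finset.card_sigma]
  refine Finset.sum_congr rfl (fun v _ => ?_)
  have h2 : (univ : Finset (Rw n L v)).filter (fun i => i.1 = c)
      = (univ : Finset (Fin (L c v))).image (fun j => (⟨c, j⟩ : Rw n L v)) := by
    ext ⟨c', j⟩
    simp only [mem_filter, mem_univ, true_and, mem_image]
    constructor
    · intro h3
      subst h3
      exact ⟨j, rfl⟩
    · rintro ⟨j', h3⟩
      exact (congrArg Sigma.fst h3).symm
  rw [h2, Finset.card_image_of_injective]
  · simp
  · intro j j' hj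
    simpa using hj

/-- Any assignment of columns to at most `K` special rows extends to a balanced one. -/
theorem selection {V : Type} [Fintype V] [DecidableEq V] (n : ℕ) (hn : 2 ≤ n) (a : Finset V)
    (L : Cls n → V → ℕ) (M1 M2 : V → ℕ) (hM1 : ∀ v, 0 < M1 v) (hM2 : ∀ v, 0 < M2 v)
    (u w t1 t2 q1 q2 K : ℕ)
    (hL1 : ∀ ρ : Fin (n + 1), ∑ v ∈ a, L (Sum.inl ρ) v = if (ρ : ℕ) = 0 then u + t1 else u)
    (hL2 : ∀ α : Fin n, ∑ v ∈ a, L (Sum.inr α) v = if (α : ℕ) = 0 then w + t2 else w)
    (ht2 : t2 < n)
    (hr : n * q1 + (n + 1) * q2 = n * ((n + 1) * u + t1) + (n - 1) * (n * w + t2))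
    (hK : 2 * K ≤ w)
    (hτ1 : q1 + q2 + w + 4 * K + n ≤ (n + 1) * u + t1 + (n * w + t2))
    (hτ2 : (n + 1) * u + t1 + (n * w + t2) + 2 * K ≤ u + q1 + q2 + w)
    (Sp : Finset (Σ v, Rw n L v)) (f0 : (v : V) → Rw n L v → Cl M1 M2 v) (hSp : Sp.card ≤ K) :
    ∃ f : (v : V) → Rw n L v → Cl M1 M2 v, (∀ x ∈ Sp, f x.1 x.2 = f0 x.1 x.2) ∧
      Balanced (fun κ => bif κ then q2 else q1) (kd : Blk n → Bool)
        (fun v (i : Rw n L v) (j : Cl M1 M2 v) => alw n i.1 j) a f := by
  classical
  -- rows
  set R : Finset (Σ v, Rw n L v) := a.sigma (fun v => univ) with hR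
  have hrow : ∀ c : Cls n, (R.filter (fun x => x.2.1 = c)).card = ∑ v ∈ a, L c v :=
    fun c => gs_rows n a L c
  obtain ⟨z, hz⟩ : ∃ z, w = z + K := ⟨w - K, by omega⟩
  obtain ⟨τ, hτ⟩ : ∃ τ, z + τ + q1 + q2 = (n + 1) * u + t1 + (n * w + t2) :=
    ⟨(n + 1) * u + t1 + (n * w + t2) - z - q1 - q2, by omega⟩
  have hτlo : 5 * K + n ≤ τ := by omega
  have hτhi : τ + K ≤ u := by omega
  -- plain rows of a class
  set Pl : Cls n → Finset (Σ v, Rw n L v) := fun c => R.filter (fun x => x.2.1 = c ∧ x ∉ Sp)
    with hPl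
  have hPlcard : ∀ c, ∑ v ∈ a, L c v ≤ (Pl c).card + K := by
    intro c
    rw [← hrow c]
    have h1 : R.filter (fun x => x.2.1 = c) ⊆ Pl c ∪ Sp := by
      intro x hx
      rw [mem_filter] at hx
      rw [mem_union, hPl]
      by_cases h : x ∈ Sp
      · exact Or.inr h
      · left
        simp only [mem_filter]
        exact ⟨hx.1, hx.2, h⟩
    exact (Finset.card_le_card h1).trans ((Finset.card_union_le _ _).trans (by omega))
  have hPlcard' : ∀ c, (Pl c).card ≤ ∑ v ∈ a, L c v := by
    intro c
    rw [← hrow c]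
    refine Finset.card_le_card (fun x hx => ?_)
    rw [hPl] at hx
    simp only [mem_filter] at hx ⊢
    exact ⟨hx.1, hx.2.1⟩
  -- counts on special rows
  set S' : Blk n → Finset (Σ v, Rw n L v) := fun d => R.filter (fun x => x ∈ Sp ∧
    d ∈ gsMs n x.2.1 (f0 x.1 x.2)) with hS'
  have hS'card : ∀ d, (S' d).card ≤ K := by
    intro d
    refine (Finset.card_le_card (fun x hx => ?_)).trans hSp
    rw [hS'] at hx
    simp only [mem_filter] at hx
    exact hx.2.1
  -- first choice
  have hP1 : ∀ α : Fin n, ∃ P : Finset (Σ v, Rw n L v), P ⊆ Pl (Sum.inr α) ∧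
      P.card = z - (S' (Sum.inl α)).card := by
    intro α
    apply Finset.exists_subset_card_eq
    have h1 := hPlcard (Sum.inr α)
    rw [hL2] at h1
    split_ifs at h1 <;> omega
  choose P1 hP1s hP1c using hP1
  -- leftover rows
  set Q : Fin n → Finset (Σ v, Rw n L v) := fun α => Pl (Sum.inr α) \ P1 α with hQ
  have hQcard : ∀ α, (Q α).card ≤ 2 * K + if (α : ℕ) = 0 then t2 else 0 := by
    intro α
    have h1 : (Q α).card = (Pl (Sum.inr α)).card - (P1 α).card :=
      Finset.card_sdiff_of_subset (hP1s α)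
    have h2 := hPlcard' (Sum.inr α)
    rw [hL2] at h2
    have h3 := hP1c α
    have h4 := hS'card (Sum.inl α)
    split_ifs at h2 ⊢ <;> omega
  set W : Fin (n + 1) → Finset (Σ v, Rw n L v) := fun h =>
    (univ.filter (fun α : Fin n => h = α.castSucc ∨ h = α.succ)).biUnion Q with hW
  have hWcard : ∀ h, (W h).card ≤ 4 * K + t2 := by
    intro h
    refine (Finset.card_biUnion_le).trans ?_
    refine (Finset.sum_le_sum (fun α _ => hQcard α)).trans ?_
    rw [Finset.sum_add_distrib, Finset.sum_const]
    have h1 : (univ.filter (fun α : Fin n => h = α.castSucc ∨ h = α.succ)).card ≤ 2 := by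
      have h2 : univ.filter (fun α : Fin n => h = α.castSucc ∨ h = α.succ) ⊆
          univ.filter (fun α : Fin n => h = α.castSucc) ∪
            univ.filter (fun α : Fin n => h = α.succ) := by
        intro α hα
        simp only [mem_filter, mem_univ, true_and, mem_union] at hα ⊢
        exact hα
      refine (Finset.card_le_card h2).trans ((Finset.card_union_le _ _).trans ?_)
      have h3 : (univ.filter (fun α : Fin n => h = α.castSucc)).card ≤ 1 := by
        rw [Finset.card_le_one]
        intro x hx y hy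
        simp only [mem_filter, mem_univ, true_and] at hx hy
        exact Fin.castSucc_injective n (hx.symm.trans hy)
      have h4 : (univ.filter (fun α : Fin n => h = α.succ)).card ≤ 1 := by
        rw [Finset.card_le_one]
        intro x hx y hy
        simp only [mem_filter, mem_univ, true_and] at hx hy
        exact Fin.succ_injective n (hx.symm.trans hy)
      omega
    have h5 : (∑ α ∈ univ.filter (fun α : Fin n => h = α.castSucc ∨ h = α.succ),
        if (α : ℕ) = 0 then t2 else 0) ≤ t2 := by
      refine (Finset.sum_le_sum_of_subset (Finset.subset_univ _)).trans ?_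
      have h6 : ∀ α : Fin n, (if (α : ℕ) = 0 then t2 else 0)
          = if α = ⟨0, by omega⟩ then t2 else 0 := by
        intro α
        simp [Fin.ext_iff]
      rw [Finset.sum_congr rfl (fun α _ => h6 α), Finset.sum_ite_eq']
      simp
    have h7 : (univ.filter (fun α : Fin n => h = α.castSucc ∨ h = α.succ)).card • (2 * K)
        ≤ 2 * (2 * K) := by
      rw [smul_eq_mul]
      exact Nat.mul_le_mul_right _ h1
    omega
  -- second choice
  have hP2 : ∀ h : Fin (n + 1), ∃ P : Finset (Σ v, Rw n L v), P ⊆ Pl (Sum.inl h) ∧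
      P.card = τ - ((S' (Sum.inr h)).card + (W h).card) := by
    intro h
    apply Finset.exists_subset_card_eq
    have h1 := hPlcard (Sum.inl h)
    rw [hL1] at h1
    split_ifs at h1 <;> omega
  choose P2 hP2s hP2c using hP2
  -- the assignment
  set f : (v : V) → Rw n L v → Cl M1 M2 v := fun v i =>
    if (⟨v, i⟩ : Σ v, Rw n L v) ∈ Sp then f0 v i else
      match i.1 with
      | Sum.inl ρ => if (⟨v, i⟩ : Σ v, Rw n L v) ∈ P2 ρ then Sum.inr ⟨0, hM2 v⟩
          else Sum.inl ⟨0, hM1 v⟩
      | Sum.inr α => if (⟨v, i⟩ : Σ v, Rw n L v) ∈ P1 α then Sum.inl ⟨0, hM1 v⟩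
          else Sum.inr ⟨0, hM2 v⟩ with hf
  have hfS : ∀ x ∈ Sp, f x.1 x.2 = f0 x.1 x.2 := by
    intro x hx
    simp only [hf]
    rw [if_pos hx]
  refine ⟨f, hfS, ?_⟩
  -- missing blocks on plain rows
  have hm1 : ∀ x ∈ R, x ∉ Sp → ∀ h : Fin n,
      (Sum.inl h : Blk n) ∈ gsMs n x.2.1 (f x.1 x.2) ↔ x ∈ P1 h := by
    rintro ⟨v, ⟨c, i⟩⟩ hx hxS h
    rcases c with ρ | α
    · have h1 : (⟨v, ⟨Sum.inl ρ, i⟩⟩ : Σ v, Rw n L v) ∉ P1 h := by
        intro h2
        have := hP1s h h2
        rw [hPl] at this
        simp at this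
      simp only [h1, iff_false]
      simp only [hf]
      rw [if_neg hxS]
      split_ifs
      · intro h2
        have := gs_kind h2
        simp [kd] at this
      · exact gs_l1 n ρ _ _
    · simp only [hf]
      rw [if_neg hxS]
      split_ifs with h1
      · rw [gs_r1]
        constructor
        · rintro rfl
          exact h1
        · intro h2
          have := hP1s h h2
          rw [hPl] at this
          simp at this
          exact this.2.1.symm
      · constructor
        · intro h2
          have := gs_kind h2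
          simp [kd] at this
        · intro h2
          exfalso
          have := hP1s h h2
          rw [hPl] at this
          simp at this
          have h9 : α = h := this.2.1
          subst h9
          exact h1 h2
  have hm2 : ∀ x ∈ R, x ∉ Sp → ∀ h : Fin (n + 1),
      (Sum.inr h : Blk n) ∈ gsMs n x.2.1 (f x.1 x.2) ↔ x ∈ P2 h ∨ x ∈ W h := by
    rintro ⟨v, ⟨c, i⟩⟩ hx hxS h
    rcases c with ρ | α
    · have h1 : (⟨v, ⟨Sum.inl ρ, i⟩⟩ : Σ v, Rw n L v) ∉ W h := by
        intro h2
        rw [hW] at h2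
        simp only [mem_biUnion, hQ, mem_sdiff, hPl, mem_filter] at h2
        obtain ⟨β, -, h3, -⟩ := h2
        exact absurd h3.2.1 (by simp)
      simp only [h1, or_false]
      simp only [hf]
      rw [if_neg hxS]
      split_ifs with h2
      · rw [gs_l2]
        constructor
        · rintro rfl
          exact h2
        · intro h3
          have := hP2s h h3
          rw [hPl] at this
          simp at this
          exact this.2.1.symm
      · constructor
        · intro h3
          exact absurd h3 (gs_l1 n ρ _ _)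
        · intro h3
          exfalso
          have := hP2s h h3
          rw [hPl] at this
          simp at this
          have h9 : ρ = h := this.2.1
          subst h9
          exact h2 h3
    · have h1 : (⟨v, ⟨Sum.inr α, i⟩⟩ : Σ v, Rw n L v) ∉ P2 h := by
        intro h2
        have := hP2s h h2
        rw [hPl] at this
        simp at this
      simp only [h1, false_or]
      simp only [hf]
      rw [if_neg hxS]
      have h4 : (⟨v, ⟨Sum.inr α, i⟩⟩ : Σ v, Rw n L v) ∈ W h ↔
          (h = α.castSucc ∨ h = α.succ) ∧ (⟨v, ⟨Sum.inr α, i⟩⟩ : Σ v, Rw n L v) ∉ P1 α := by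
        rw [hW]
        simp only [mem_biUnion, hQ, mem_sdiff, hPl, mem_filter, mem_univ, true_and]
        constructor
        · rintro ⟨β, h3, ⟨-, h5, -⟩, h6⟩
          have h7 : α = β := by simpa using h5
          subst h7
          exact ⟨h3, h6⟩
        · rintro ⟨h3, h6⟩
          exact ⟨α, h3, ⟨hx, rfl, hxS⟩, h6⟩
      rw [h4]
      split_ifs with h2
      · constructor
        · intro h3
          have := gs_kind h3
          simp [kd] at this
        · rintro ⟨-, h3⟩
          exact absurd h2 h3
      · rw [gs_r2]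
        tauto
  -- missing counts
  have hmz : ∀ h : Fin n,
      (R.filter (fun x => (Sum.inl h : Blk n) ∈ gsMs n x.2.1 (f x.1 x.2))).card = z := by
    intro h
    have h1 : R.filter (fun x => (Sum.inl h : Blk n) ∈ gsMs n x.2.1 (f x.1 x.2))
        = S' (Sum.inl h) ∪ P1 h := by
      ext x
      simp only [hS', mem_filter, mem_union]
      constructor
      · rintro ⟨hx, h2⟩
        by_cases hxS : x ∈ Sp
        · left
          rw [hfS x hxS] at h2
          exact ⟨hx, hxS, h2⟩
        · right
          exact (hm1 x hx hxS h).1 h2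
      · rintro (⟨hx, hxS, h2⟩ | h2)
        · rw [hfS x hxS]
          exact ⟨hx, h2⟩
        · have h3 := hP1s h h2
          rw [hPl] at h3
          simp only [mem_filter] at h3
          exact ⟨h3.1, (hm1 x h3.1 h3.2.2 h).2 h2⟩
    have h2 : Disjoint (S' (Sum.inl h)) (P1 h) := by
      rw [Finset.disjoint_left]
      intro x hx hx'
      have h3 := hP1s h hx'
      rw [hPl] at h3
      simp only [hS', mem_filter] at h3 hx
      exact h3.2.2 hx.2.1
    rw [h1, Finset.card_union_of_disjoint h2, hP1c]
    have := hS'card (Sum.inl h)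
    omega
  have hmτ : ∀ h : Fin (n + 1),
      (R.filter (fun x => (Sum.inr h : Blk n) ∈ gsMs n x.2.1 (f x.1 x.2))).card = τ := by
    intro h
    have hWsub : ∀ x ∈ W h, x ∈ R ∧ x ∉ Sp ∧ ∃ α, x.2.1 = Sum.inr α := by
      intro x hx
      rw [hW] at hx
      simp only [mem_biUnion, hQ, mem_sdiff, hPl, mem_filter] at hx
      obtain ⟨β, -, ⟨h3, h4, h5⟩, -⟩ := hx
      exact ⟨h3, h5, β, h4⟩
    have h1 : R.filter (fun x => (Sum.inr h : Blk n) ∈ gsMs n x.2.1 (f x.1 x.2))
        = S' (Sum.inr h) ∪ (P2 h ∪ W h) := by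
      ext x
      simp only [hS', mem_filter, mem_union]
      constructor
      · rintro ⟨hx, h2⟩
        by_cases hxS : x ∈ Sp
        · left
          rw [hfS x hxS] at h2
          exact ⟨hx, hxS, h2⟩
        · right
          exact (hm2 x hx hxS h).1 h2
      · rintro (⟨hx, hxS, h2⟩ | h2)
        · rw [hfS x hxS]
          exact ⟨hx, h2⟩
        · have h3 : x ∈ R ∧ x ∉ Sp := by
            rcases h2 with h2 | h2
            · have h3 := hP2s h h2
              rw [hPl] at h3
              simp only [mem_filter] at h3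
              exact ⟨h3.1, h3.2.2⟩
            · exact ⟨(hWsub x h2).1, (hWsub x h2).2.1⟩
          exact ⟨h3.1, (hm2 x h3.1 h3.2 h).2 h2⟩
    have h2 : Disjoint (P2 h) (W h) := by
      rw [Finset.disjoint_left]
      intro x hx hx'
      have h3 := hP2s h hx
      rw [hPl] at h3
      simp only [mem_filter] at h3
      obtain ⟨-, -, β, h4⟩ := hWsub x hx'
      rw [h3.2.1] at h4
      simp at h4
    have h3 : Disjoint (S' (Sum.inr h)) (P2 h ∪ W h) := by
      rw [Finset.disjoint_left]
      intro x hx hx'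
      simp only [hS', mem_filter] at hx
      rw [mem_union] at hx'
      rcases hx' with h4 | h4
      · have h3 := hP2s h h4
        rw [hPl] at h3
        simp only [mem_filter] at h3
        exact h3.2.2 hx.2.1
      · exact (hWsub x h4).2.1 hx.2.1
    rw [h1, Finset.card_union_of_disjoint h3, Finset.card_union_of_disjoint h2, hP2c]
    have h5 := hS'card (Sum.inr h)
    have h6 := hWcard h
    omega
  -- numbers of rows
  have hN1 : (R.filter (fun x => (kd x.2.1 : Bool) = false)).card = (n + 1) * u + t1 := by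
    have h1 : R.filter (fun x => (kd x.2.1 : Bool) = false)
        = (univ : Finset (Fin (n + 1))).biUnion
          (fun ρ => R.filter (fun x => x.2.1 = Sum.inl ρ)) := by
      ext x
      simp only [mem_filter, mem_biUnion, mem_univ, true_and]
      constructor
      · rintro ⟨hx, h2⟩
        rcases hc : x.2.1 with ρ | α
        · exact ⟨ρ, hx, rfl⟩
        · rw [hc] at h2
          simp [kd] at h2
      · rintro ⟨ρ, hx, h2⟩
        rw [h2]
        exact ⟨hx, rfl⟩
    rw [h1, Finset.card_biUnion]
    · rw [Finset.sum_congr rfl (fun ρ _ => (hrow (Sum.inl ρ)).trans (hL1 ρ))]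
      rw [Fin.sum_univ_succ]
      simp
      ring
    · intro ρ _ ρ' _ hne
      rw [Function.onFun, Finset.disjoint_left]
      intro x hx hx'
      simp only [mem_filter] at hx hx'
      apply hne
      have := hx.2.symm.trans hx'.2
      simpa using this
  have hN2 : (R.filter (fun x => (kd x.2.1 : Bool) = true)).card = n * w + t2 := by
    have h1 : R.filter (fun x => (kd x.2.1 : Bool) = true)
        = (univ : Finset (Fin n)).biUnion
          (fun ρ => R.filter (fun x => x.2.1 = Sum.inr ρ)) := by
      ext x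
      simp only [mem_filter, mem_biUnion, mem_univ, true_and]
      constructor
      · rintro ⟨hx, h2⟩
        rcases hc : x.2.1 with ρ | α
        · rw [hc] at h2
          simp [kd] at h2
        · exact ⟨α, hx, rfl⟩
      · rintro ⟨ρ, hx, h2⟩
        rw [h2]
        exact ⟨hx, rfl⟩
    rw [h1, Finset.card_biUnion]
    · rw [Finset.sum_congr rfl (fun ρ _ => (hrow (Sum.inr ρ)).trans (hL2 ρ))]
      obtain ⟨m, rfl⟩ : ∃ m, n = m + 1 := ⟨n - 1, by omega⟩
      rw [Fin.sum_univ_succ]
      simp
      ring
    · intro ρ _ ρ' _ hne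
      rw [Function.onFun, Finset.disjoint_left]
      intro x hx hx'
      simp only [mem_filter] at hx hx'
      apply hne
      have := hx.2.symm.trans hx'.2
      simpa using this
  -- conclusion
  intro d
  have hfin := gs_count n _ _ q1 q2 z τ R (fun x => x.2.1) (fun x => kd (f x.1 x.2))
    (fun x => gsMs n x.2.1 (f x.1 x.2)) (fun x _ d hd => gs_kind hd)
    (fun x _ => gs_card_ms n hn x.2.1 (f x.1 x.2)) hN1 hN2 hmz hmτ hτ (by omega) hr d
  have h1 : ∑ v ∈ a, (univ.filter (fun i : Rw n L v => d ∈ alw n i.1 (f v i))).card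
      = (R.filter (fun x => (kd d : Bool) = kd (f x.1 x.2) ∧
          d ∉ gsMs n x.2.1 (f x.1 x.2))).card := by
    rw [← Finset.card_sigma]
    congr 1
    ext ⟨v, i⟩
    simp only [mem_sigma, mem_filter, mem_univ, true_and, and_true, hR]
    rw [gs_mem_alw]
  rw [h1, hfin]
  cases (kd d : Bool) <;> rfl

end Pool.Agent.Lib.MP_6f811f_co
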