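import Pool.Agent.Lib.MP_6f811f_co.RefPair

/-!
Integer weights close to prescribed ones.
-/

set_option autoImplicit false

namespace Pool.Agent.Lib.MP_6f811f_co

open Finset

/-- Integer weights with prescribed total, close to the ideal ones. -/
theorem exists_weights {V : Type} [Fintype V] [DecidableEq V] {A : Set (Finset V)}
    {l : V → ℕ} {r : ℕ} (hr : 0 < r) (hl : ∀ a ∈ A, ∑ v ∈ a, l v = r)
    (hlr : ∀ v, l v ≤ r) {b : Finset V} (hb : ∀ a ∈ A, (a ∩ b).card = 1) (r1 : ℕ) :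
    ∃ L : V → ℕ, (∀ a ∈ A, ∑ v ∈ a, L v = r1) ∧
      (∀ v, |(L v : ℝ) - r1 * (l v / r)| ≤ (r : ℕ)) := by
  refine ⟨fun v => r1 / r * l v + if v ∈ b then r1 % r else 0, ?_, ?_⟩
  · intro a ha
    rw [Finset.sum_add_distrib, ← Finset.mul_sum, hl a ha, ← Finset.sum_filter,
      Finset.sum_const]
    have h1 : (a.filter (fun v => v ∈ b)).card = 1 := by
      rw [Finset.filter_mem_eq_inter]
      exact hb a ha
    rw [h1, one_smul, mul_comm]
    exact Nat.div_add_mod r1 r
  · intro v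
    have hr' : (0 : ℝ) < r := by exact_mod_cast hr
    have h1 : (r1 : ℝ) = r * (r1 / r : ℕ) + (r1 % r : ℕ) := by
      exact_mod_cast (Nat.div_add_mod r1 r).symm
    have h2 : ((r1 % r : ℕ) : ℝ) ≤ r := by exact_mod_cast (Nat.mod_lt r1 hr).le
    have h3 : (0 : ℝ) ≤ ((r1 % r : ℕ) : ℝ) := Nat.cast_nonneg _
    have h4 : (l v : ℝ) / r ≤ 1 := by
      rw [div_le_one hr']
      exact_mod_cast hlr v
    have h5 : (0 : ℝ) ≤ (l v : ℝ) / r := by positivity
    have h6 : (r1 : ℝ) * (l v / r) = (r1 / r : ℕ) * l v + (r1 % r : ℕ) * (l v / r) := by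
      rw [h1]
      field_simp
    push_cast
    rw [h6]
    have h7 : ((r1 % r : ℕ) : ℝ) * (l v / r) ≤ r := by nlinarith
    have h8 : 0 ≤ ((r1 % r : ℕ) : ℝ) * (l v / r) := by positivity
    by_cases hv : v ∈ b
    · simp only [hv, if_true]
      rw [abs_le]
      constructor <;> linarith
    · simp only [hv, if_false]
      rw [abs_le]
      constructor <;> linarith

end Pool.Agent.Lib.MP_6f811f_co
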