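import Pool.Agent.Lib.MP_6f811f_co.RefComp
import Pool.Agent.Lib.MP_6f811f_co.GenW
import Pool.Agent.Lib.MP_6f811f_co.GenHall
import Pool.Agent.Lib.MP_6f811f_co.GenSel
import Pool.Agent.Lib.MP_6f811f_co.GenPar
import Pool.Agent.Lib.MP_6f811f_co.GenAlw
import Pool.Agent.Lib.MP_6f811f_co.GenCore

/-!
The disproof of the Gyarfas-Lehel conjecture for all large `r`: assembly.
-/

set_option autoImplicit false

namespace Pool.Agent.Lib.MP_6f811f_co

open Finset

/-- With no hit cells Hall's condition holds on the side of `B`. -/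
theorem noBad {V : Type} [Fintype V] [DecidableEq V] {I J : V → Type} [∀ v, Fintype (I v)]
    [∀ v, Fintype (J v)] [∀ v, DecidableEq (I v)] [∀ v, DecidableEq (J v)] {D : Type} [Fintype D]
    [DecidableEq D] {N : Bool → ℕ} {kc : (v : V) → J v → Bool} {kb : D → Bool}
    {al : (v : V) → I v → J v → Finset D} {p : (v : V) → I v → ℕ}
    (hN : ∀ κ, (univ.filter (fun d => kb d = κ)).card = N κ)
    (al_kind : ∀ v i j, ∀ d ∈ al v i j, kb d = kc v j)
    (al_card : ∀ v i j, (al v i j).card = p v i)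
    (p_lo : ∀ v i κ, N κ ≤ p v i + 2)
    (miss : ∀ v i d, (univ.filter (fun j => kc v j = kb d ∧ d ∉ al v i j)).card ≤ 2)
    (hbig : ∀ κ, 2 * Fintype.card V + 2 ≤ N κ) (b : Finset V) (g : (v : V) → I v) :
    ¬ BadB N kc kb al (fun _ _ _ _ => 0) b g := by
  classical
  rintro ⟨κ, Q, Y, ⟨d, hd⟩, hQ, hY, hcard, hbad⟩
  have hQN : Q.card ≤ N κ := by
    rw [← hN κ]
    apply Finset.card_le_card
    intro d hd
    exact Finset.mem_filter.2 ⟨Finset.mem_univ _, hQ d hd⟩
  have hmis : ∀ x ∈ Y, ∀ d ∈ Q, d ∉ al x.1 (g x.1) x.2 := by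
    intro x hx d hd
    rcases hbad x hx d hd with h | h
    · exact h
    · exact absurd rfl h
  have hY2 : Y.card ≤ 2 * Fintype.card V := by
    have h1 : Y ⊆ b.sigma (fun v => univ.filter (fun j => kc v j = kb d ∧ d ∉ al v (g v) j)) := by
      intro x hx
      rw [Finset.mem_sigma, Finset.mem_filter]
      exact ⟨(hY x hx).1, Finset.mem_univ _, (hY x hx).2.trans (hQ d hd).symm, hmis x hx d hd⟩
    refine (Finset.card_le_card h1).trans ?_
    rw [Finset.card_sigma]
    calc ∑ v ∈ b, (univ.filter (fun j => kc v j = kb d ∧ d ∉ al v (g v) j)).card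
        ≤ ∑ _v ∈ b, 2 := Finset.sum_le_sum (fun v _ => miss v (g v) d)
      _ = b.card * 2 := by rw [Finset.sum_const, smul_eq_mul]
      _ ≤ _ := by
        have := Finset.card_le_univ b
        omega
  have hYpos : 0 < Y.card := by omega
  obtain ⟨x, hx⟩ := Finset.card_pos.1 hYpos
  have hQ2 : Q.card + p x.1 (g x.1) ≤ N κ := by
    rw [← al_card x.1 (g x.1) x.2, ← hN κ, ← Finset.card_union_of_disjoint]
    · apply Finset.card_le_card
      intro d' hd'
      rw [Finset.mem_filter]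
      refine ⟨Finset.mem_univ _, ?_⟩
      rcases Finset.mem_union.1 hd' with h | h
      · exact hQ d' h
      · exact (al_kind _ _ _ _ h).trans (hY x hx).2
    · rw [Finset.disjoint_left]
      intro d' hd'
      exact hmis x hx d' hd'
  have h3 := p_lo x.1 (g x.1) κ
  have h4 := hbig κ
  omega

theorem kd_card (n : ℕ) (κ : Bool) :
    (univ.filter (fun d : Blk n => kd d = κ)).card = bif κ then n + 1 else n := by
  rw [Finset.card_eq_sum_ones, Finset.sum_filter, Fintype.sum_sum_type]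
  cases κ <;> simp [kd]

theorem kd_card' (m1 m2 : ℕ) (κ : Bool) :
    (univ.filter (fun d : Fin m1 ⊕ Fin m2 => kd d = κ)).card = bif κ then m2 else m1 := by
  rw [Finset.card_eq_sum_ones, Finset.sum_filter, Fintype.sum_sum_type]
  cases κ <;> simp [kd]

theorem kd_sum (m1 m2 q1 q2 : ℕ) :
    ∑ d : Fin m1 ⊕ Fin m2, (bif kd d then q2 else q1) = m1 * q1 + m2 * q2 := by
  rw [Fintype.sum_sum_type]
  simp [kd]

theorem aux_tau {x r s : ℝ} (hx : 1 ≤ x) (hr : 0 < r) (hs : 1 ≤ s) :
    1 / (r * s) ≤ x / r := by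
  rw [div_le_div_iff₀ (by positivity) hr]
  have h1 : 1 ≤ x * s := one_le_mul_of_one_le_of_one_le hx hs
  nlinarith

theorem aux_delta {c δ τ : ℝ} (hc : 1 ≤ c) (hδ : 0 < δ) (h : 1000 * c ^ 2 * δ ≤ τ ^ 2)
    (h0 : 0 < τ) (h1 : τ ≤ 1) : 1000 * δ ≤ τ := by
  have h2 : (1 : ℝ) ≤ c ^ 2 := one_le_pow₀ hc
  have h3 : 1000 * δ ≤ τ ^ 2 := by nlinarith
  nlinarith

theorem aux_I {n r s x y δ ra : ℝ} (hn : 0 < n) (hx : 0 ≤ x) (h1 : s * x - (2 * n + 1) * ra ≤ y)
    (h2 : r ≤ n * s) (h3 : n * (2 * n + 1) * ra ≤ δ * r) : (x - δ) * r ≤ n * y := by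
  have h4 := mul_le_mul_of_nonneg_left h1 hn.le
  have h5 := mul_le_mul_of_nonneg_right h2 hx
  nlinarith

theorem aux_pos {a δ x : ℝ} (hδ : 0 < δ) (h0 : 0 ≤ a) (h : a + 1 ≤ δ * x) : 0 < x := by
  by_contra hcon
  push Not at hcon
  nlinarith

theorem aux_Q {n x s δ q1 q2 M1 M2 : ℝ} (hq1 : 0 ≤ q1) (hq2 : 0 ≤ q2) (h1 : n * x - s ≤ M1)
    (h2 : (n + 1) * x - s ≤ M2) (h3 : s * (q1 + q2) ≤ δ * (n * q1 + (n + 1) * q2)) :
    (x - δ) * (n * q1 + (n + 1) * q2) ≤ M1 * q1 + M2 * q2 := by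
  have h6 := mul_le_mul_of_nonneg_right h1 hq1
  have h7 := mul_le_mul_of_nonneg_right h2 hq2
  nlinarith

theorem aux_q {n q1 q2 r : ℕ} (h : n * q1 + (n + 1) * q2 = r) : n * (q1 + q2) ≤ r := by
  rw [← h]
  nlinarith

theorem aux_N {n a b r : ℕ} (h : n * a + (n - 1) * b = r) : r ≤ n * (a + b) := by
  have : (n - 1) * b ≤ n * b := Nat.mul_le_mul_right _ (by omega)
  rw [← h, mul_add]
  omega

/-- For every large `r` some complete bipartite graph needs `2r - 1` trees. -/
theorem exists_large_gen : ∃ r₀ : ℕ, ∀ r : ℕ, r₀ ≤ r →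
    0 < r ∧ ∃ n m : ℕ, 1 ≤ n ∧ 1 ≤ m ∧ 2 * r - 1 ≤ tc r (K n m) := by
  classical
  obtain ⟨V, _, _, A, B, l, m, ra, sa, hP, hS⟩ := exists_starStar
  have := hP.ne
  obtain ⟨v0⟩ := hP.ne
  obtain ⟨hr, hs, _, _⟩ := Half.rs_pos hP
  obtain ⟨a0, ha0, hv0a⟩ := hP.hA.span v0
  obtain ⟨b0, hb0, hv0b⟩ := hP.hB.span v0
  have lle : ∀ v, l v ≤ ra := hP.hA.l_le
  have mle : ∀ v, m v ≤ sa := hP.hB.l_le
  have hrR : (0 : ℝ) < ra := by exact_mod_cast hr
  have hsR : (0 : ℝ) < sa := by exact_mod_cast hs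
  have hr1 : (1 : ℝ) ≤ ra := by exact_mod_cast hr
  have hs1 : (1 : ℝ) ≤ sa := by exact_mod_cast hs
  have hcard : (1 : ℝ) ≤ Fintype.card V := by
    have : 0 < Fintype.card V := Fintype.card_pos_iff.2 ⟨v0⟩
    exact_mod_cast this
  set τ : ℝ := 1 / ((ra : ℝ) * sa) with hτ
  have τ0 : 0 < τ := by positivity
  have hrs1 : (1 : ℝ) ≤ (ra : ℝ) * sa := one_le_mul_of_one_le_of_one_le hr1 hs1
  have τ1 : τ ≤ 1 := by
    rw [hτ, div_le_one (by positivity)]
    exact hrs1
  set δ : ℝ := τ ^ 2 / (1000 * (Fintype.card V : ℝ) ^ 2) with hδ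
  have δ0 : 0 < δ := by positivity
  have hδτ : 1000 * (Fintype.card V : ℝ) ^ 2 * δ ≤ τ ^ 2 := by
    rw [hδ]
    have : (1000 * (Fintype.card V : ℝ) ^ 2) ≠ 0 := by positivity
    field_simp
    exact le_refl _
  have hδτ' : 1000 * δ ≤ τ := aux_delta hcard δ0 hδτ τ0 τ1
  have lamτ : ∀ v, τ ≤ (l v : ℝ) / ra := by
    intro v
    have h1 : (1 : ℝ) ≤ l v := by exact_mod_cast hP.hA.lpos v
    rw [hτ]
    exact aux_tau h1 hrR hs1
  have muτ : ∀ v, τ ≤ (m v : ℝ) / sa := by
    intro v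
    have h1 : (1 : ℝ) ≤ m v := by exact_mod_cast hP.hB.lpos v
    rw [hτ, mul_comm (ra : ℝ) sa]
    exact aux_tau h1 hsR hr1
  have lam1 : ∀ v, (l v : ℝ) / ra ≤ 1 := by
    intro v
    rw [div_le_one hrR]
    exact_mod_cast lle v
  have mu1 : ∀ v, (m v : ℝ) / sa ≤ 1 := by
    intro v
    rw [div_le_one hsR]
    exact_mod_cast mle v
  -- the constant `n`
  obtain ⟨n1, hn1⟩ := exists_nat_ge ((2 * (Fintype.card V : ℝ) + 4) / δ)
  obtain ⟨n2, hn2⟩ := exists_nat_ge (2 * (Fintype.card V : ℝ) / δ ^ 2)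
  obtain ⟨n3, hn3⟩ := exists_nat_ge ((sa : ℝ) / δ)
  set n : ℕ := n1 + n2 + n3 + 2 * Fintype.card V + 2 with hn
  have nb1 : 2 * (Fintype.card V : ℝ) + 4 ≤ δ * n := by
    have h1 : (n1 : ℝ) ≤ n := by exact_mod_cast (by omega : n1 ≤ n)
    have h2 := hn1.trans h1
    rw [div_le_iff₀ δ0] at h2
    linarith
  have nb2 : 2 * (Fintype.card V : ℝ) ≤ δ ^ 2 * n := by
    have h1 : (n2 : ℝ) ≤ n := by exact_mod_cast (by omega : n2 ≤ n)
    have h2 := hn2.trans h1
    rw [div_le_iff₀ (by positivity)] at h2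
    linarith
  have nb3 : (sa : ℝ) ≤ δ * n := by
    have h1 : (n3 : ℝ) ≤ n := by exact_mod_cast (by omega : n3 ≤ n)
    have h2 := hn3.trans h1
    rw [div_le_iff₀ δ0] at h2
    linarith
  have hn2' : 2 ≤ n := by omega
  have n0 : (0 : ℝ) < n := by
    have : 0 < n := by omega
    exact_mod_cast this
  -- columns
  have hcapA : ∀ b ∈ B, (b ∩ a0).card = 1 := fun b hb => by
    rw [Finset.inter_comm]
    exact hP.ex a0 ha0 b hb
  obtain ⟨M1, hM1, hM1a⟩ := exists_weights hs hP.hB.sum_l mle hcapA n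
  obtain ⟨M2, hM2, hM2a⟩ := exists_weights hs hP.hB.sum_l mle hcapA (n + 1)
  have hM1ge : ∀ v, ((m v : ℝ) / sa - δ) * n ≤ M1 v := by
    intro v
    have h1 := (abs_le.1 (hM1a v)).1
    linarith
  have hM2ge' : ∀ v, ((n : ℝ) + 1) * ((m v : ℝ) / sa) - sa ≤ M2 v := by
    intro v
    have h1 := (abs_le.1 (hM2a v)).1
    push_cast at h1
    linarith
  have hM2ge : ∀ v, ((m v : ℝ) / sa - δ) * n ≤ M2 v := by
    intro v
    have h1 := hM2ge' v
    have h2 := muτ v
    linarith
  have hM1le : ∀ v, M1 v ≤ n := by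
    intro v
    obtain ⟨b, hb, hv⟩ := hP.hB.span v
    rw [← hM1 b hb]
    exact Finset.single_le_sum (f := M1) (fun _ _ => Nat.zero_le _) hv
  have hM2le : ∀ v, M2 v ≤ n + 1 := by
    intro v
    obtain ⟨b, hb, hv⟩ := hP.hB.span v
    rw [← hM2 b hb]
    exact Finset.single_le_sum (f := M2) (fun _ _ => Nat.zero_le _) hv
  have hpos : ∀ v, 0 < ((m v : ℝ) / sa - δ) * n := by
    intro v
    have := muτ v
    apply mul_pos _ n0
    linarith
  have hM1pos : ∀ v, 0 < M1 v := fun v => by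
    have := (hpos v).trans_le (hM1ge v)
    exact_mod_cast this
  have hM2pos : ∀ v, 0 < M2 v := fun v => by
    have := (hpos v).trans_le (hM2ge v)
    exact_mod_cast this
  -- the constant `C`
  obtain ⟨C1, hC1⟩ := exists_nat_ge (2 / δ)
  obtain ⟨C2, hC2⟩ := exists_nat_ge (2 * (n : ℝ) / (δ * τ))
  set C : ℕ := C1 + C2 with hC
  have hCδ : 2 ≤ δ * C := by
    have h1 : (C1 : ℝ) ≤ C := by exact_mod_cast (by omega : C1 ≤ C)
    have h2 := hC1.trans h1
    rw [div_le_iff₀ δ0] at h2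
    linarith
  have hCn : 2 * (n : ℝ) ≤ δ * τ * C := by
    have h1 : (C2 : ℝ) ≤ C := by exact_mod_cast (by omega : C2 ≤ C)
    have h2 := hC2.trans h1
    rw [div_le_iff₀ (by positivity)] at h2
    linarith
  obtain ⟨r0, hr0⟩ := exists_params n hn2' C
  obtain ⟨r1, hr1'⟩ := exists_nat_ge (((n : ℝ) * (2 * n + 1) * ra) / δ)
  refine ⟨r0 + r1 + 1, ?_⟩
  intro r hrr
  obtain ⟨u, w, t1, t2, q1, q2, G, K, hq, hNr, ht2, hKw, hp1, hp2, hG, hCq1, hCq2, hCG, hK⟩ :=
    hr0 r (by omega)
  have hrpos : 0 < r := by omega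
  have hrposR : (0 : ℝ) < r := by exact_mod_cast hrpos
  refine ⟨hrpos, ?_⟩
  have hrbig : (n : ℝ) * (2 * n + 1) * ra ≤ δ * r := by
    have h1 : (r1 : ℝ) ≤ r := by exact_mod_cast (by omega : r1 ≤ r)
    have h2 := hr1'.trans h1
    rw [div_le_iff₀ δ0] at h2
    linarith
  -- rows
  let Nc : Cls n → ℕ := Sum.elim (fun ρ => if (ρ : ℕ) = 0 then u + t1 else u)
    (fun α => if (α : ℕ) = 0 then w + t2 else w)
  have hL : ∀ c : Cls n, ∃ L : V → ℕ, (∀ a ∈ A, ∑ v ∈ a, L v = Nc c) ∧
      (∀ v, |(L v : ℝ) - Nc c * (l v / ra)| ≤ (ra : ℕ)) := fun c =>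
    exists_weights hr hP.hA.sum_l lle (fun a ha => hP.ex a ha b0 hb0) (Nc c)
  choose L hL hLa using hL
  have hNc1 : ∑ ρ : Fin (n + 1), Nc (Sum.inl ρ) = (n + 1) * u + t1 := by
    rw [Fin.sum_univ_succ]
    simp only [Nc, Sum.elim_inl, Fin.val_zero, if_true, Fin.val_succ]
    simp
    ring
  have hNc2 : ∑ α : Fin n, Nc (Sum.inr α) = n * w + t2 := by
    obtain ⟨n', hn'⟩ : ∃ n', n = n' + 1 := ⟨n - 1, by omega⟩
    have h1 : ∀ k : ℕ, ∑ α : Fin (k + 1), (if (α : ℕ) = 0 then w + t2 else w) =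
        (k + 1) * w + t2 := by
      intro k
      rw [Fin.sum_univ_succ]
      simp only [Fin.val_zero, if_true, Fin.val_succ]
      simp
      ring
    have h2 : ∀ k : ℕ, n = k + 1 → ∑ α : Fin n, (if (α : ℕ) = 0 then w + t2 else w) =
        n * w + t2 := by
      intro k hk
      rw [hk]
      exact h1 k
    exact h2 n' hn'
  have hq1 : n * (q1 + q2) ≤ r := aux_q hq
  have hq1R : (n : ℝ) * (q1 + q2) ≤ r := by exact_mod_cast hq1
  have hqR : (n : ℝ) * q1 + (n + 1) * q2 = r := by exact_mod_cast hq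
  have hIcard : ∀ v, (Fintype.card (Rw n L v) : ℝ) = ∑ c, (L c v : ℝ) := by
    intro v
    rw [Fintype.card_sigma]
    push_cast
    simp
  have hIge : ∀ v, ((l v : ℝ) / ra - δ) * r ≤ n * (Fintype.card (Rw n L v) : ℝ) := by
    intro v
    rw [hIcard]
    have h1 : ∀ c, (Nc c : ℝ) * (l v / ra) - ra ≤ L c v := by
      intro c
      have := (abs_le.1 (hLa c v)).1
      linarith
    have h2 : ∑ c, ((Nc c : ℝ) * (l v / ra) - ra) ≤ ∑ c, (L c v : ℝ) :=
      Finset.sum_le_sum (fun c _ => h1 c)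
    rw [Finset.sum_sub_distrib, ← Finset.sum_mul, Finset.sum_const, Finset.card_univ,
      nsmul_eq_mul] at h2
    have h3 : Fintype.card (Cls n) = 2 * n + 1 := by
      rw [Fintype.card_sum, Fintype.card_fin, Fintype.card_fin]
      omega
    have h4 : r ≤ n * ∑ c, Nc c := by
      rw [Fintype.sum_sum_type, hNc1, hNc2]
      exact aux_N hNr
    have h4R : (r : ℝ) ≤ n * ∑ c, (Nc c : ℝ) := by exact_mod_cast h4
    rw [h3] at h2
    push_cast at h2
    have h6 : 0 ≤ (l v : ℝ) / ra := by positivity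
    exact aux_I n0 h6 h2 h4R hrbig
  have hIbig : ∀ v, ((2 * (n : ℝ) + 1) * G + 1) ≤ δ * Fintype.card (Rw n L v) := by
    intro v
    have h1 := hIge v
    have h2 : (C : ℝ) * ((2 * n + 1) * G + 1) ≤ r := by exact_mod_cast hCG
    have h3 : τ / 2 * r ≤ n * (Fintype.card (Rw n L v) : ℝ) := by
      refine le_trans ?_ h1
      apply mul_le_mul_of_nonneg_right _ hrposR.le
      have := lamτ v
      linarith
    have h4 : 2 * (n : ℝ) * ((2 * n + 1) * G + 1) ≤ 2 * n * (δ * Fintype.card (Rw n L v)) := by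
      calc 2 * (n : ℝ) * ((2 * n + 1) * G + 1) ≤ (δ * τ * C) * ((2 * n + 1) * G + 1) :=
            mul_le_mul_of_nonneg_right hCn (by positivity)
        _ = (δ * τ) * (C * ((2 * n + 1) * G + 1)) := by ring
        _ ≤ (δ * τ) * r := mul_le_mul_of_nonneg_left h2 (by positivity)
        _ = 2 * δ * (τ / 2 * r) := by ring
        _ ≤ 2 * δ * (n * (Fintype.card (Rw n L v) : ℝ)) :=
            mul_le_mul_of_nonneg_left h3 (by positivity)
        _ = _ := by ring
    exact le_of_mul_le_mul_left h4 (by positivity)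
  -- notation
  let q : Bool → ℕ := fun κ => bif κ then q2 else q1
  let N : Bool → ℕ := fun κ => bif κ then n + 1 else n
  let kc : (v : V) → Cl M1 M2 v → Bool := fun v j => kd j
  let al : (v : V) → Rw n L v → Cl M1 M2 v → Finset (Blk n) := fun v i j => alw n i.1 j
  let p : (v : V) → Rw n L v → ℕ := fun v i => pc n i.1
  have hsel : ∀ a ∈ A, ∀ (Sp : Finset (Σ v, Rw n L v)) (f0 : (v : V) → Rw n L v → Cl M1 M2 v),
      Sp.card ≤ K → ∃ f : (v : V) → Rw n L v → Cl M1 M2 v,
        (∀ x ∈ Sp, f x.1 x.2 = f0 x.1 x.2) ∧ Balanced q (kd : Blk n → Bool) al a f := by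
    intro a ha Sp f0 hSp
    exact selection n hn2' a L M1 M2 hM1pos hM2pos u w t1 t2 q1 q2 K
      (fun ρ => hL (Sum.inl ρ) a ha) (fun α => hL (Sum.inr α) a ha) ht2 (hq.trans hNr.symm)
      hKw hp1 hp2 Sp f0 hSp
  have hNcard : ∀ κ, (univ.filter (fun d : Blk n => kd d = κ)).card = N κ := kd_card n
  have hsumMk : ∀ b ∈ B, ∀ κ, ∑ v ∈ b, (univ.filter (fun j : Cl M1 M2 v => kc v j = κ)).card =
      N κ := by
    intro b hb κ
    rw [Finset.sum_congr rfl (fun v _ => kd_card' (M1 v) (M2 v) κ)]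
    cases κ
    · exact hM1 b hb
    · exact hM2 b hb
  have hkind : ∀ v i j, ∀ d ∈ al v i j, kd d = kc v j := fun v i j d hd => alw_kind n i.1 j d hd
  have hacard : ∀ v i j, (al v i j).card = p v i := fun v i j => alw_card n hn2' i.1 j
  have hplo : ∀ v i κ, N κ ≤ p v i + 2 := by
    intro v i κ
    have h1 : n - 1 ≤ p v i := by
      show n - 1 ≤ pc n i.1
      rcases i.1 with c | c <;> simp [pc]
    have h2 : N κ ≤ n + 1 := by
      cases κ
      · show n ≤ n + 1
        omega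
      · show n + 1 ≤ n + 1
        omega
    omega
  have hmiss : ∀ v i (d : Blk n), (univ.filter (fun j => kc v j = kd d ∧ d ∉ al v i j)).card ≤ 2 :=
    fun v i d => alw_miss n hn2' (hM1le v) (hM2le v) i.1 d
  have hIne : ∀ v, Nonempty (Rw n L v) := by
    intro v
    have h1 := hIbig v
    have h2 : (0 : ℝ) ≤ (2 * (n : ℝ) + 1) * G := by positivity
    have h3 : (0 : ℝ) < Fintype.card (Rw n L v) := aux_pos δ0 h2 h1
    exact Fintype.card_pos_iff.1 (by exact_mod_cast h3)
  have hqsum : ∑ d : Blk n, q (kd d) = r := by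
    rw [← hq]
    exact kd_sum n (n + 1) q1 q2
  let i0 : (v : V) → Rw n L v := fun v => Classical.choice (hIne v)
  refine hall_gen r hrpos hP.ex N q kc (kd : Blk n → Bool) al hqsum hNcard hsumMk hkind ?_ ?_ ?_
  · obtain ⟨f, _, hf⟩ := hsel a0 ha0 ∅ (fun v _ => Sum.inl ⟨0, hM1pos v⟩) (by simp)
    exact ⟨a0, ha0, f, hf⟩
  · refine ⟨b0, hb0, i0, noBad hNcard hkind hacard hplo hmiss ?_ b0 i0⟩
    intro κ
    cases κ
    · show _ ≤ n
      omega
    · show _ ≤ n + 1
      omega
  · intro e hkA hkB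
    by_contra hcon
    have H : GData A B (fun v => (l v : ℝ) / ra) (fun v => (m v : ℝ) / sa) τ δ n r G K N q kc
        (kd : Blk n → Bool) al p e := by
      refine
        { τ0 := τ0
          τ1 := τ1
          δ0 := δ0
          hδ := hδτ
          lam1 := lam1
          mu1 := mu1
          lamτ := lamτ
          muτ := muτ
          sumlam := ?_
          summu := ?_
          ex := hP.ex
          spanA := hP.hA.span
          spanB := hP.hB.span
          twoA := hP.hA.two_le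
          twoB := hP.hB.two_le
          ss := ?_
          nbig1 := nb1
          nbig2 := nb2
          Nlo := ?_
          Nhi := ?_
          cardD := hNcard
          sumMk := hsumMk
          hM := ?_
          sumQ := ?_
          hQ := ?_
          sumP := ?_
          hL := hIge
          Ibig := ?_
          qbig := ?_
          Gbig := hG
          hK := ?_
          al_kind := hkind
          al_card := hacard
          p_lo := hplo
          p_hi := ?_
          miss := hmiss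
          sel := hsel
          killA := hkA
          killB := hkB
          hc := ?_ }
      · intro a ha
        rw [← Finset.sum_div]
        have : ∑ v ∈ a, (l v : ℝ) = ra := by exact_mod_cast hP.hA.sum_l a ha
        rw [this, div_self hrR.ne']
      · intro b hb
        rw [← Finset.sum_div]
        have : ∑ v ∈ b, (m v : ℝ) = sa := by exact_mod_cast hP.hB.sum_l b hb
        rw [this, div_self hsR.ne']
      · intro R S Z hR hSS
        rcases hS R S Z hR hSS with h | h
        · left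
          have h1 : 2 * ((ra : ℝ) * sa) + 1 ≤ ra * ∑ v ∈ R, (m v : ℝ) +
              sa * ∑ v ∈ S, (l v : ℝ) + ∑ v ∈ Z, (l v : ℝ) * m v := by exact_mod_cast h
          have h2 : ∑ v ∈ R, (m v : ℝ) / sa + ∑ v ∈ S, (l v : ℝ) / ra +
              ∑ v ∈ Z, (l v : ℝ) / ra * ((m v : ℝ) / sa) =
              (ra * ∑ v ∈ R, (m v : ℝ) + sa * ∑ v ∈ S, (l v : ℝ) +
              ∑ v ∈ Z, (l v : ℝ) * m v) / (ra * sa) := by
            rw [← Finset.sum_div, ← Finset.sum_div]
            have : ∑ v ∈ Z, (l v : ℝ) / ra * ((m v : ℝ) / sa) =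
                (∑ v ∈ Z, (l v : ℝ) * m v) / (ra * sa) := by
              rw [Finset.sum_div]
              apply Finset.sum_congr rfl
              intro v _
              field_simp
            rw [this]
            field_simp
          rw [h2, le_div_iff₀ (by positivity), hτ]
          have h3 : (2 + 1 / ((ra : ℝ) * sa)) * (ra * sa) = 2 * ((ra : ℝ) * sa) + 1 := by
            field_simp
          rw [h3]
          exact h1
        · exact Or.inr h
      · intro κ
        cases κ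
        · show n ≤ n
          omega
        · show n ≤ n + 1
          omega
      · intro κ
        cases κ
        · show n ≤ n + 1
          omega
        · show n + 1 ≤ n + 1
          omega
      · intro v κ
        show ((m v : ℝ) / sa - δ) * n ≤
          ((univ.filter (fun d : Fin (M1 v) ⊕ Fin (M2 v) => kd d = κ)).card : ℝ)
        rw [kd_card']
        cases κ
        · exact hM1ge v
        · exact hM2ge v
      · intro b hb
        show ∑ v ∈ b, ∑ j : Fin (M1 v) ⊕ Fin (M2 v), (bif kd j then q2 else q1) = r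
        rw [Finset.sum_congr rfl (fun v _ => kd_sum (M1 v) (M2 v) q1 q2), Finset.sum_add_distrib,
          ← Finset.sum_mul, ← Finset.sum_mul, hM1 b hb, hM2 b hb]
        exact hq
      · intro v
        have h1 : ∑ j : Fin (M1 v) ⊕ Fin (M2 v), ((bif kd j then q2 else q1 : ℕ) : ℝ) =
            (M1 v : ℝ) * q1 + M2 v * q2 := by
          exact_mod_cast kd_sum (M1 v) (M2 v) q1 q2
        show ((m v : ℝ) / sa - δ) * r ≤
          ∑ j : Fin (M1 v) ⊕ Fin (M2 v), ((bif kd j then q2 else q1 : ℕ) : ℝ)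
        rw [h1]
        have h2 := (abs_le.1 (hM1a v)).1
        have h2' : (n : ℝ) * ((m v : ℝ) / sa) - sa ≤ M1 v := by linarith
        have h3 := hM2ge' v
        have h4 : (0 : ℝ) ≤ q1 := Nat.cast_nonneg _
        have h5 : (0 : ℝ) ≤ q2 := Nat.cast_nonneg _
        have h8 : (sa : ℝ) * (q1 + q2) ≤ δ * r := by
          have h9 := mul_le_mul_of_nonneg_right nb3 (add_nonneg h4 h5)
          have h10 := mul_le_mul_of_nonneg_left hq1R δ0.le
          linarith
        rw [← hqR] at h8 ⊢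
        exact aux_Q h4 h5 h2' h3 h8
      · intro a ha
        show ∑ v ∈ a, ∑ i : Rw n L v, pc n i.1 = r
        have h1 : ∀ v, ∑ i : Rw n L v, pc n i.1 = ∑ c, L c v * pc n c := by
          intro v
          rw [Fintype.sum_sigma]
          apply Finset.sum_congr rfl
          intro c _
          simp
        rw [Finset.sum_congr rfl (fun v _ => h1 v), Finset.sum_comm,
          Finset.sum_congr rfl (fun c _ => (Finset.sum_mul _ _ _).symm),
          Finset.sum_congr rfl (fun c _ => by rw [hL c a ha]), Fintype.sum_sum_type]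
        simp only [pc]
        rw [← Finset.sum_mul, ← Finset.sum_mul, hNc1, hNc2, ← hNr]
        ring
      · intro v
        have h1 := hIbig v
        have h2 : Fintype.card (Blk n) = 2 * n + 1 := by
          rw [Fintype.card_sum, Fintype.card_fin, Fintype.card_fin]
          omega
        rw [h2]
        push_cast
        linarith
      · intro κ
        have h1 : ∀ q' : ℕ, C * r ≤ q' * G → 2 * (r : ℝ) ≤ δ * q' * G := by
          intro q' h
          have h2 : (C : ℝ) * r ≤ q' * G := by exact_mod_cast h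
          have h3 := mul_le_mul_of_nonneg_left h2 δ0.le
          have h4 := mul_le_mul_of_nonneg_right hCδ hrposR.le
          linarith
        cases κ
        · exact h1 q1 hCq1
        · exact h1 q2 hCq2
      · intro b hb
        have h2 : Fintype.card (Blk n) = 2 * n + 1 := by
          rw [Fintype.card_sum, Fintype.card_fin, Fintype.card_fin]
          omega
        rw [h2]
        exact hK b hb
      · intro v i
        show pc n i.1 ≤ n
        rcases i.1 with c | c <;> simp [pc]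
      · omega
    exact H.false_of v0

/-- For every large `r`, `tc_r(K_{n,m}) = 2r - 1` for all large `n`, `m`. -/
theorem tc_eq_gen : ∃ r₀ : ℕ, ∀ r : ℕ, r₀ ≤ r →
    ∃ N : ℕ, ∀ n m : ℕ, N ≤ n → N ≤ m → tc r (K n m) = 2 * r - 1 := by
  obtain ⟨r₀, hr₀⟩ := exists_large_gen
  refine ⟨r₀, fun r h1 => ?_⟩
  obtain ⟨h0, n0, m0, hn0, hm0, hle⟩ := hr₀ r h1
  refine ⟨max n0 m0, fun n m hn hm => le_antisymm (tc_le_two_mul_sub_one (by omega) (by omega))
    (hle.trans (tc_mono hn0 hm0 ((le_max_left _ _).trans hn) ((le_max_right _ _).trans hm)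
      ⟨0, h0⟩))⟩

end Pool.Agent.Lib.MP_6f811f_co
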