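import Pool.Agent.Lib.MP_6f811f_co.Field

/-!
Small families of injections that cannot be hit by few cells.
-/

set_option autoImplicit false

namespace Pool.Agent.Lib.MP_6f811f_co

open Finset

section count
variable {β ρ : Type} [Fintype β] [DecidableEq β] [Fintype ρ] [DecidableEq ρ]

/-- Maps that are injective on `J`, send `J` into `R`, avoid the cells `T`, and are equal to `r₀`
outside `J`. -/
def avoiders (T : Finset (ρ × β)) (r₀ : ρ) (R : Finset ρ) (J : Finset β) : Finset (β → ρ) :=
  univ.filter (fun φ => (∀ j ∈ J, φ j ∈ R ∧ (φ j, j) ∉ T) ∧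
    (∀ j ∈ J, ∀ j' ∈ J, φ j = φ j' → j = j') ∧ ∀ j, j ∉ J → φ j = r₀)

/-- Rows of column `j` inside `R` with a cell of `T`. -/
def colT (T : Finset (ρ × β)) (R : Finset ρ) (j : β) : Finset ρ := R.filter (fun i => (i, j) ∈ T)

/-- The excess `∑ (|T_j ∩ R| - 1)`. -/
def exc (T : Finset (ρ × β)) (R : Finset ρ) (J : Finset β) : ℕ :=
  ∑ j ∈ J, ((colT T R j).card - 1)

theorem avoiders_step (T : Finset (ρ × β)) (r₀ : ρ) (R : Finset ρ) (J : Finset β) (j : β)
    (hj : j ∈ J) :
    ∑ i ∈ R \ colT T R j, (avoiders T r₀ (R.erase i) (J.erase j)).card ≤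
      (avoiders T r₀ R J).card := by
  classical
  rw [← card_sigma]
  apply card_le_card_of_injOn (fun p => Function.update p.2 j p.1)
  · rintro ⟨i, φ⟩ hp
    simp only [coe_sigma, Set.mem_sigma_iff, mem_coe, mem_sdiff, colT, mem_filter, avoiders,
      mem_univ, true_and, mem_erase] at hp ⊢
    obtain ⟨⟨hiR, hiT⟩, h1, h2, h3⟩ := hp
    have hiT' : (i, j) ∉ T := fun h => hiT ⟨hiR, h⟩
    refine ⟨?_, ?_, ?_⟩
    · intro k hk
      by_cases hkj : k = j
      · subst hkj
        simp only [Function.update_self]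
        exact ⟨hiR, hiT'⟩
      · rw [Function.update_of_ne hkj]
        exact ⟨(h1 k ⟨hkj, hk⟩).1.2, (h1 k ⟨hkj, hk⟩).2⟩
    · intro k hk k' hk' h
      by_cases hkj : k = j
      · by_cases hkj' : k' = j
        · rw [hkj, hkj']
        · subst hkj
          rw [Function.update_self, Function.update_of_ne hkj'] at h
          exact absurd h.symm (h1 k' ⟨hkj', hk'⟩).1.1
      · by_cases hkj' : k' = j
        · subst hkj'
          rw [Function.update_self, Function.update_of_ne hkj] at h
          exact absurd h (h1 k ⟨hkj, hk⟩).1.1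
        · rw [Function.update_of_ne hkj, Function.update_of_ne hkj'] at h
          exact h2 k ⟨hkj, hk⟩ k' ⟨hkj', hk'⟩ h
    · intro k hk
      have hkj : k ≠ j := fun h => hk (h ▸ hj)
      rw [Function.update_of_ne hkj]
      exact h3 k (fun h => hk h.2)
  · rintro ⟨i, φ⟩ hp ⟨i', φ'⟩ hp' h
    simp only [coe_sigma, Set.mem_sigma_iff, mem_coe, avoiders, mem_filter, mem_univ,
      true_and, mem_erase] at hp hp' h
    have hi : i = i' := by
      have := congrFun h j
      simpa using this
    subst hi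
    have hφ : φ = φ' := by
      funext k
      by_cases hkj : k = j
      · subst hkj
        rw [hp.2.2.2 k (by simp), hp'.2.2.2 k (by simp)]
      · have := congrFun h k
        rwa [Function.update_of_ne hkj, Function.update_of_ne hkj] at this
    rw [hφ]

omit [Fintype β] [Fintype ρ] in
theorem exc_erase_le (T : Finset (ρ × β)) (R : Finset ρ) (J : Finset β) (i : ρ) (j : β)
    (hj : j ∈ J) :
    exc T (R.erase i) (J.erase j) + ((colT T R j).card - 1) ≤ exc T R J := by
  classical
  have h1 : exc T (R.erase i) (J.erase j) ≤ exc T R (J.erase j) := by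
    unfold exc
    apply sum_le_sum
    intro k _
    apply Nat.sub_le_sub_right
    apply card_le_card
    unfold colT
    exact filter_subset_filter _ (erase_subset _ _)
  have h2 : exc T R (J.erase j) + ((colT T R j).card - 1) = exc T R J := by
    unfold exc
    exact sum_erase_add _ _ hj
  omega

/-- Lower bound for the number of injections avoiding the cells of `T`. -/
theorem card_avoiders (T : Finset (ρ × β)) (r₀ : ρ) :
    ∀ (s : ℕ) (R : Finset ρ) (J : Finset β), J.card = s + 1 → R.card = s + 2 →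
      (s + 1 - exc T R J) * s.factorial ≤ (avoiders T r₀ R J).card := by
  intro s
  induction s with
  | zero =>
    intro R J hJ hR
    obtain ⟨j, rfl⟩ := card_eq_one.1 hJ
    have hstep := avoiders_step T r₀ R {j} j (mem_singleton_self j)
    have h1 : ∀ i ∈ R \ colT T R j,
        1 ≤ (avoiders T r₀ (R.erase i) (({j} : Finset β).erase j)).card := by
      intro i _
      apply card_pos.2
      refine ⟨fun _ => r₀, ?_⟩
      simp [avoiders]
    have h2 : (R \ colT T R j).card ≤
        ∑ i ∈ R \ colT T R j, (avoiders T r₀ (R.erase i) (({j} : Finset β).erase j)).card := by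
      rw [card_eq_sum_ones]
      exact sum_le_sum h1
    have h3 : (R \ colT T R j).card = R.card - (colT T R j).card := by
      apply card_sdiff_of_subset
      exact filter_subset _ _
    have h4 : exc T R {j} = (colT T R j).card - 1 := by simp [exc]
    rw [h4, Nat.factorial_zero]
    omega
  | succ s ih =>
    intro R J hJ hR
    by_cases hheavy : ∃ j ∈ J, 2 ≤ (colT T R j).card
    · obtain ⟨j, hj, hm⟩ := hheavy
      have hstep := avoiders_step T r₀ R J j hj
      set m := (colT T R j).card with hmdef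
      set e := exc T R J with hedef
      by_cases he : s + 2 ≤ e
      · have : s + 1 + 1 - e = 0 := by omega
        rw [this, zero_mul]
        exact Nat.zero_le _
      · push Not at he
        have h1 : ∀ i ∈ R \ colT T R j, (s + 1 - (e - (m - 1))) * s.factorial ≤
            (avoiders T r₀ (R.erase i) (J.erase j)).card := by
          intro i hi
          have hiR : i ∈ R := (mem_sdiff.1 hi).1
          refine le_trans ?_ (ih (R.erase i) (J.erase j) (by rw [card_erase_of_mem hj]; omega)
            (by rw [card_erase_of_mem hiR]; omega))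
          apply Nat.mul_le_mul_right
          have := exc_erase_le T R J i j hj
          omega
        have h2 := card_nsmul_le_sum _ _ _ h1
        have h3 : (R \ colT T R j).card = R.card - m := by
          apply card_sdiff_of_subset
          exact filter_subset _ _
        rw [h3, hR, smul_eq_mul] at h2
        refine le_trans ?_ (h2.trans hstep)
        have hme : m - 1 ≤ e := by
          have := exc_erase_le T R J r₀ j hj
          omega
        obtain ⟨m', hm'⟩ : ∃ m', m = m' + 2 := ⟨m - 2, by omega⟩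
        obtain ⟨d, hd⟩ : ∃ d, e = m' + 1 + d := ⟨e - (m' + 1), by omega⟩
        obtain ⟨t, ht⟩ : ∃ t, s + 1 = m' + d + t := ⟨s + 1 - (m' + d), by omega⟩
        have e1 : s + 1 + 1 - e = t := by omega
        have e2 : s + 1 - (e - (m - 1)) = m' + t := by omega
        have e3 : s + 1 + 2 - m = d + t := by omega
        rw [e1, e2, e3, Nat.factorial_succ, ht, ← mul_assoc, ← mul_assoc]
        apply Nat.mul_le_mul_right
        nlinarith [Nat.zero_le (m' * d)]
    · push Not at hheavy
      have he : exc T R J = 0 := by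
        unfold exc
        apply sum_eq_zero
        intro j hj
        have := hheavy j hj
        omega
      obtain ⟨j, hj⟩ : J.Nonempty := by
        apply card_pos.1
        omega
      have hstep := avoiders_step T r₀ R J j hj
      have h1 : ∀ i ∈ R \ colT T R j, (s + 1) * s.factorial ≤
          (avoiders T r₀ (R.erase i) (J.erase j)).card := by
        intro i hi
        have hiR : i ∈ R := (mem_sdiff.1 hi).1
        refine le_trans ?_ (ih (R.erase i) (J.erase j) (by rw [card_erase_of_mem hj]; omega)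
          (by rw [card_erase_of_mem hiR]; omega))
        apply Nat.mul_le_mul_right
        have := exc_erase_le T R J i j hj
        omega
      have h2 := card_nsmul_le_sum _ _ _ h1
      have h3 : (R \ colT T R j).card = R.card - (colT T R j).card := by
        apply card_sdiff_of_subset
        exact filter_subset _ _
      rw [h3, hR, smul_eq_mul] at h2
      refine le_trans ?_ (h2.trans hstep)
      rw [he, Nat.factorial_succ]
      have := hheavy j hj
      have h4 : s + 1 + 1 ≤ s + 1 + 2 - (colT T R j).card := by omega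
      exact Nat.mul_le_mul (by omega) le_rfl

end count

/-- The set of cells hits the map `φ`. -/
def Hits {r : ℕ} (T : Finset (Fin r × Fin (r - 1))) (φ : Fin (r - 1) → Fin r) : Prop :=
  ∃ j, (φ j, j) ∈ T

/-- Existence of a family of `n` injections `[r-1] → [r]` that is not hit by any `2r-3` cells
meeting every column. -/
theorem exists_family {r n : ℕ} (hr : 2 ≤ r)
    (hn : (r * (r - 1)).choose (2 * r - 3) * (r * (r - 1) - 1) ^ n < (r * (r - 1)) ^ n) :
    ∃ b : Fin n → Fin (r - 1) → Fin r, (∀ x, Function.Injective (b x)) ∧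
      ∀ T : Finset (Fin r × Fin (r - 1)), T.card = 2 * r - 3 → (∀ j, ∃ i, (i, j) ∈ T) →
        ∃ x, ¬ Hits T (b x) := by
  classical
  obtain ⟨s, rfl⟩ : ∃ s, r = s + 2 := ⟨r - 2, by omega⟩
  let Φ : Finset (Fin (s + 2 - 1) → Fin (s + 2)) := univ.filter Function.Injective
  have hΦ : Φ.card = (s + 2) * (s + 1) * s.factorial := by
    have h1 : Φ.card = Fintype.card (Fin (s + 2 - 1) ↪ Fin (s + 2)) := by
      rw [← Fintype.card_coe]
      apply Fintype.card_congr
      exact
        { toFun := fun φ => ⟨φ.1, (mem_filter.1 φ.2).2⟩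
          invFun := fun φ => ⟨φ, mem_filter.2 ⟨mem_univ _, φ.injective⟩⟩
          left_inv := fun φ => rfl
          right_inv := fun φ => rfl }
    rw [h1, Fintype.card_embedding_eq, Fintype.card_fin, Fintype.card_fin]
    have h2 : (s + 2).descFactorial (s + 2 - 1) = (s + 2).factorial := by
      have := Nat.factorial_mul_descFactorial (n := s + 2) (k := s + 2 - 1) (by omega)
      have h3 : s + 2 - (s + 2 - 1) = 1 := by omega
      rw [h3, Nat.factorial_one, one_mul] at this
      exact this
    rw [h2, Nat.factorial_succ, Nat.factorial_succ, mul_assoc]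
  let 𝒯 : Finset (Finset (Fin (s + 2) × Fin (s + 2 - 1))) :=
    (univ.powersetCard (2 * (s + 2) - 3)).filter (fun T => ∀ j, ∃ i, (i, j) ∈ T)
  have h𝒯 : 𝒯.card ≤ ((s + 2) * (s + 1)).choose (2 * (s + 2) - 3) := by
    refine (card_filter_le _ _).trans ?_
    rw [card_powersetCard]
    apply le_of_eq
    congr 1
    simp
  have hbad : ∀ T ∈ 𝒯, (Φ.filter (fun φ => Hits T φ)).card ≤
      ((s + 2) * (s + 1) - 1) * s.factorial := by
    intro T hT
    obtain ⟨hT1, hT2⟩ := mem_filter.1 hT
    have hTc : T.card = 2 * (s + 2) - 3 := (mem_powersetCard.1 hT1).2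
    have hsub : avoiders T 0 univ univ ⊆ Φ.filter (fun φ => ¬ Hits T φ) := by
      intro φ hφ
      simp only [avoiders, mem_filter, mem_univ, true_and, true_imp_iff, not_true_eq_false,
        false_imp_iff, implies_true, and_true] at hφ
      rw [mem_filter, mem_filter]
      refine ⟨⟨mem_univ _, fun j j' h => hφ.2 j j' h⟩, ?_⟩
      rintro ⟨j, hj⟩
      exact hφ.1 j hj
    have hcount := card_avoiders T 0 s univ univ (by simp) (by simp)
    have hsum : ∑ j : Fin (s + 2 - 1), (colT T univ j).card = T.card := by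
      rw [card_eq_sum_card_fiberwise (f := Prod.snd) (t := univ) (fun _ _ => mem_univ _)]
      apply sum_congr rfl
      intro j _
      apply card_bij (fun i _ => (i, j))
      · intro i hi
        simp only [colT, mem_filter, mem_univ, true_and] at hi ⊢
        exact ⟨hi, trivial⟩
      · intro i _ i' _ h
        exact (Prod.mk.inj h).1
      · rintro ⟨i, j'⟩ h
        simp only [mem_filter] at h
        obtain ⟨h1, h2⟩ := h
        subst h2
        exact ⟨i, by simp [colT, h1], rfl⟩
    have hexc : exc T univ univ + (s + 1) = 2 * (s + 2) - 3 := by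
      rw [← hTc, ← hsum]
      have h1 : ∀ j : Fin (s + 2 - 1), (colT T univ j).card - 1 + 1 = (colT T univ j).card := by
        intro j
        obtain ⟨i, hi⟩ := hT2 j
        have : 0 < (colT T univ j).card := card_pos.2 ⟨i, by simp [colT, hi]⟩
        omega
      have h2 : exc T univ univ + ∑ j : Fin (s + 2 - 1), 1 =
          ∑ j : Fin (s + 2 - 1), (colT T univ j).card := by
        unfold exc
        rw [← sum_add_distrib]
        exact sum_congr rfl (fun j _ => h1 j)
      rw [← h2]
      simp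
    have h1 : s + 1 - exc T univ univ = 1 := by omega
    rw [h1, one_mul] at hcount
    have h2 := hcount.trans (card_le_card hsub)
    have h3 := card_filter_add_card_filter_not (s := Φ) (fun φ => Hits T φ)
    rw [hΦ] at h3
    have h4 : ((s + 2) * (s + 1) - 1) * s.factorial + s.factorial =
        (s + 2) * (s + 1) * s.factorial := by
      obtain ⟨N, hN⟩ : ∃ N, (s + 2) * (s + 1) = N + 1 := ⟨(s + 2) * (s + 1) - 1, by
        have : 0 < (s + 2) * (s + 1) := by positivity
        omega⟩
      rw [hN, Nat.add_sub_cancel]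
      ring
    omega
  by_contra hcon
  push Not at hcon
  have hcover : Fintype.piFinset (fun _ : Fin n => Φ) ⊆
      𝒯.biUnion (fun T => Fintype.piFinset (fun _ : Fin n => Φ.filter (fun φ => Hits T φ))) := by
    intro b hb
    rw [Fintype.mem_piFinset] at hb
    obtain ⟨T, hT1, hT2, hT3⟩ := hcon b (fun x => (mem_filter.1 (hb x)).2)
    rw [mem_biUnion]
    refine ⟨T, mem_filter.2 ⟨mem_powersetCard.2 ⟨subset_univ _, hT1⟩, hT2⟩, ?_⟩
    rw [Fintype.mem_piFinset]
    intro x
    exact mem_filter.2 ⟨hb x, hT3 x⟩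
  have h1 := card_le_card hcover
  have h2 := h1.trans card_biUnion_le
  have h3 : ∑ T ∈ 𝒯, (Fintype.piFinset
      (fun _ : Fin n => Φ.filter (fun φ => Hits T φ))).card ≤
      𝒯.card * (((s + 2) * (s + 1) - 1) * s.factorial) ^ n := by
    rw [← smul_eq_mul]
    apply sum_le_card_nsmul
    intro T hT
    rw [Fintype.card_piFinset_const]
    exact Nat.pow_le_pow_left (hbad T hT) n
  rw [Fintype.card_piFinset_const, hΦ, mul_pow] at h2
  have h4 := h2.trans h3
  have h5 := h4.trans (Nat.mul_le_mul_right _ h𝒯)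
  rw [Nat.mul_pow ((s + 2) * (s + 1) - 1) s.factorial n, ← mul_assoc] at h5
  have h6 := Nat.le_of_mul_le_mul_right h5 (Nat.pow_pos (Nat.factorial_pos s))
  exact absurd h6 (not_le.2 hn)

/-- Lower bound `2r - 2` for all `r`, under a counting condition on `n`. -/
theorem random_lower {r n m : ℕ} (hr : 2 ≤ r) (hm : r - 1 ≤ m)
    (hn : (r * (r - 1)).choose (2 * r - 3) * (r * (r - 1) - 1) ^ n < (r * (r - 1)) ^ n) :
    2 * r - 2 ≤ tc r (K m n) := by
  classical
  obtain ⟨b, hinj, hb⟩ := exists_family hr hn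
  have : Nonempty (Fin (r - 1)) := ⟨⟨0, by omega⟩⟩
  obtain ⟨α, hα⟩ := exists_surj (X := Fin (r - 1)) (n := m) (by simpa using hm)
  let j₀ : Fin (r - 1) := ⟨0, by omega⟩
  let f : Fin r → Fin m → Fin (r - 1) ⊕ Fin n := fun _ a => Sum.inl (α a)
  let g : Fin r → Fin n → Fin (r - 1) ⊕ Fin n := fun i x =>
    if h : ∃ j, b x j = i then Sum.inl h.choose else Sum.inr x
  refine le_tc_of_labels ⟨0, by omega⟩ f g ?_ ?_
  · intro a x
    refine ⟨b x (α a), ?_⟩
    have h : ∃ j, b x j = b x (α a) := ⟨_, rfl⟩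
    simp only [f, g]
    rw [dif_pos h]
    congr 1
    exact (hinj x h.choose_spec).symm
  · intro T hT
    by_contra hcon
    push Not at hcon
    obtain ⟨hA, hB⟩ := hcon
    let ψ : Fin r × (Fin (r - 1) ⊕ Fin n) → Fin r × Fin (r - 1) := fun p =>
      match p.2 with
      | Sum.inl j => (p.1, j)
      | Sum.inr x => (b x j₀, j₀)
    obtain ⟨T', hT', hcard⟩ := exists_superset_card_eq (s := T.image ψ) (n := 2 * r - 3)
      (by
        have := (card_image_le (s := T) (f := ψ)).trans_lt hT
        omega)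
      (by
        rw [Fintype.card_prod, Fintype.card_fin, Fintype.card_fin]
        obtain ⟨s, rfl⟩ : ∃ s, r = s + 2 := ⟨r - 2, by omega⟩
        have h1 : s + 2 - 1 = s + 1 := by omega
        rw [h1]
        have h2 : 2 * (s + 2) - 3 = 2 * s + 1 := by omega
        rw [h2]
        nlinarith)
    obtain ⟨x, hx⟩ := hb T' hcard (by
      intro j
      obtain ⟨a, rfl⟩ := hα j
      obtain ⟨i, hi⟩ := hA a
      exact ⟨i, hT' (mem_image_of_mem ψ hi)⟩)
    apply hx
    obtain ⟨i, hi⟩ := hB x
    have h1 := hT' (mem_image_of_mem ψ hi)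
    by_cases h : ∃ j, b x j = i
    · simp only [g] at h1
      rw [dif_pos h] at h1
      refine ⟨h.choose, ?_⟩
      rw [h.choose_spec]
      exact h1
    · simp only [g] at h1
      rw [dif_neg h] at h1
      exact ⟨j₀, h1⟩

/-- The counting condition holds for `n ≥ 4 r³ log r`. -/
theorem count_cond {r n : ℕ} (hr : 2 ≤ r) (hn : 4 * (r : ℝ) ^ 3 * Real.log r ≤ n) :
    (r * (r - 1)).choose (2 * r - 3) * (r * (r - 1) - 1) ^ n < (r * (r - 1)) ^ n := by
  obtain ⟨s, rfl⟩ : ∃ s, r = s + 2 := ⟨r - 2, by omega⟩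
  have h1 : s + 2 - 1 = s + 1 := by omega
  rw [h1]
  obtain ⟨N, hN⟩ : ∃ N : ℕ, N = (s + 2) * (s + 1) := ⟨_, rfl⟩
  rw [← hN]
  have hNpos : 0 < N := by rw [hN]; positivity
  have hN2 : 2 ≤ N := by rw [hN]; nlinarith
  have hch : N.choose (2 * (s + 2) - 3) ≤ N ^ (2 * (s + 2) - 3) := Nat.choose_le_pow _ _
  have hNr : (0 : ℝ) < (N : ℝ) := by exact_mod_cast hNpos
  have hlogr : 0 < Real.log ((s + 2 : ℕ) : ℝ) := by
    apply Real.log_pos
    have : (1 : ℝ) < ((s + 2 : ℕ) : ℝ) := by exact_mod_cast (by omega : 1 < s + 2)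
    exact this
  have key : (N : ℝ) ^ (2 * (s + 2) - 3) * ((N : ℝ) - 1) ^ n < (N : ℝ) ^ n := by
    have h2 : (N : ℝ) - 1 ≤ N * Real.exp (-(1 / N)) := by
      have h3 := Real.add_one_le_exp (-(1 / (N : ℝ)))
      have h4 : (N : ℝ) * (-(1 / N) + 1) ≤ N * Real.exp (-(1 / N)) :=
        mul_le_mul_of_nonneg_left h3 hNr.le
      have h5 : (N : ℝ) * (-(1 / N) + 1) = N - 1 := by
        field_simp
        ring
      linarith
    have hN1 : (0 : ℝ) ≤ (N : ℝ) - 1 := by
      have : (2 : ℝ) ≤ (N : ℝ) := by exact_mod_cast hN2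
      linarith
    have h3 : ((N : ℝ) - 1) ^ n ≤ (N : ℝ) ^ n * Real.exp (-(n / N)) := by
      refine (pow_le_pow_left₀ hN1 h2 n).trans (le_of_eq ?_)
      rw [mul_pow, ← Real.exp_nat_mul]
      congr 2
      ring
    have h4 : (N : ℝ) ^ (2 * (s + 2) - 3) * Real.exp (-(n / N)) < 1 := by
      have h5 : (N : ℝ) ^ (2 * (s + 2) - 3) =
          Real.exp (((2 * (s + 2) - 3 : ℕ) : ℝ) * Real.log N) := by
        rw [← Real.log_pow, Real.exp_log (by positivity)]
      rw [h5, ← Real.exp_add, Real.exp_lt_one_iff]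
      have h6 : Real.log N < 2 * Real.log ((s + 2 : ℕ) : ℝ) := by
        have h7 : (N : ℝ) < ((s + 2 : ℕ) : ℝ) ^ 2 := by
          have : N < (s + 2) ^ 2 := by rw [hN]; nlinarith
          exact_mod_cast this
        have h8 := Real.log_lt_log hNr h7
        rw [Real.log_pow] at h8
        exact_mod_cast h8
      have h9 : ((2 * (s + 2) - 3 : ℕ) : ℝ) ≤ 2 * ((s + 2 : ℕ) : ℝ) := by
        have : 2 * (s + 2) - 3 ≤ 2 * (s + 2) := by omega
        exact_mod_cast this
      have h10 : (0 : ℝ) < ((2 * (s + 2) - 3 : ℕ) : ℝ) := by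
        have : 0 < 2 * (s + 2) - 3 := by omega
        exact_mod_cast this
      have h11 : ((2 * (s + 2) - 3 : ℕ) : ℝ) * Real.log N <
          4 * ((s + 2 : ℕ) : ℝ) * Real.log ((s + 2 : ℕ) : ℝ) := by
        have h12 : ((2 * (s + 2) - 3 : ℕ) : ℝ) * Real.log N <
            ((2 * (s + 2) - 3 : ℕ) : ℝ) * (2 * Real.log ((s + 2 : ℕ) : ℝ)) :=
          mul_lt_mul_of_pos_left h6 h10
        have h13 : ((2 * (s + 2) - 3 : ℕ) : ℝ) * (2 * Real.log ((s + 2 : ℕ) : ℝ)) ≤
            2 * ((s + 2 : ℕ) : ℝ) * (2 * Real.log ((s + 2 : ℕ) : ℝ)) :=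
          mul_le_mul_of_nonneg_right h9 (by linarith)
        linarith
      have h14 : 4 * ((s + 2 : ℕ) : ℝ) * Real.log ((s + 2 : ℕ) : ℝ) ≤ n / N := by
        rw [le_div_iff₀ hNr]
        refine le_trans ?_ hn
        have h15 : (N : ℝ) ≤ ((s + 2 : ℕ) : ℝ) ^ 2 := by
          have : N ≤ (s + 2) ^ 2 := by rw [hN]; nlinarith
          exact_mod_cast this
        calc 4 * ((s + 2 : ℕ) : ℝ) * Real.log ((s + 2 : ℕ) : ℝ) * N
            ≤ 4 * ((s + 2 : ℕ) : ℝ) * Real.log ((s + 2 : ℕ) : ℝ) * ((s + 2 : ℕ) : ℝ) ^ 2 :=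
              mul_le_mul_of_nonneg_left h15 (by positivity)
          _ = 4 * ((s + 2 : ℕ) : ℝ) ^ 3 * Real.log ((s + 2 : ℕ) : ℝ) := by ring
      linarith
    calc (N : ℝ) ^ (2 * (s + 2) - 3) * ((N : ℝ) - 1) ^ n
        ≤ (N : ℝ) ^ (2 * (s + 2) - 3) * ((N : ℝ) ^ n * Real.exp (-(n / N))) :=
          mul_le_mul_of_nonneg_left h3 (by positivity)
      _ = (N : ℝ) ^ n * ((N : ℝ) ^ (2 * (s + 2) - 3) * Real.exp (-(n / N))) := by ring
      _ < (N : ℝ) ^ n * 1 := mul_lt_mul_of_pos_left h4 (by positivity)
      _ = (N : ℝ) ^ n := mul_one _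
  have key' : N ^ (2 * (s + 2) - 3) * (N - 1) ^ n < N ^ n := by
    have h2 : (((N - 1 : ℕ) : ℝ)) = (N : ℝ) - 1 := by
      rw [Nat.cast_sub (by omega)]
      simp
    rw [← h2] at key
    exact_mod_cast key
  exact (Nat.mul_le_mul_right _ hch).trans_lt key'

end Pool.Agent.Lib.MP_6f811f_co
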