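import Pool.Agent.Lib.MP_6f811f_co.RefPair

/-!
The base pair: 15 points, 7 sets in `A`, 8 sets in `B`, type `(13, 11)`, total weight `144`.
-/

set_option autoImplicit false

namespace Pool.Agent.Lib.MP_6f811f_co

open Finset

/-- The family `A` of the base pair. -/
def baseA : Finset (Finset (Fin 15)) := {{1,3,6,9,11},{2,3,5,8},{0,5,7,11,13},{6,7,8,9,13},
  {0,6,10,14},{4,10,12,14},{1,4,13,14}}

/-- The family `B` of the base pair. -/
def baseB : Finset (Finset (Fin 15)) := {{0,2,4,9},{1,2,7,10},{3,7,14},{3,10,13},{4,5,6},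
  {5,9,14},{0,1,8,12},{8,11,14}}

def baseL : Fin 15 → ℕ := ![3,3,4,3,3,3,2,3,3,3,3,2,2,2,5]

def baseM : Fin 15 → ℕ := ![3,3,2,3,3,3,5,3,3,3,3,3,2,5,5]

/-- Pruned search over all subsets; the leaves are tested with `fin`. -/
def goSearch (s : ℕ) (fin : ℕ → ℕ → ℕ → Bool) : List (ℕ × ℕ × ℕ) → ℕ → ℕ → ℕ → Bool
  | [], u, x, w => fin u x w
  | (g, b, m) :: L, u, x, w => goSearch s fin L u x w &&
      (Nat.blt s (w + m) || goSearch s fin L (Nat.land u g) (Nat.lor x b) (w + m))

/-- Weight of the points that lie in an unhit member. -/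
def kSum : List (ℕ × ℕ) → ℕ → ℕ
  | [], _ => 0
  | (f, k) :: L, u => (bif Nat.beq (Nat.land f u) 0 then 0 else k) + kSum L u

/-- The test at a leaf. -/
def leaf (r s : ℕ) (K : List (ℕ × ℕ)) (Bm : List ℕ) (u x w : ℕ) : Bool :=
  Nat.ble (r * s) (r * w + kSum K u) &&
    (Nat.blt (r * s) (r * w + kSum K u) || Bm.any (fun y => Nat.beq y x))

theorem goSearch_spec (s : ℕ) (fin : ℕ → ℕ → ℕ → Bool) (g b m : Fin 15 → ℕ)
    (p : Fin 15 → Bool) (L : List (Fin 15)) : ∀ (u x w : ℕ),
    goSearch s fin (L.map (fun v => (g v, b v, m v))) u x w = true →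
    s < w + ((L.filter p).map m).sum ∨
      fin ((L.filter p).foldl (fun u v => u &&& g v) u)
        ((L.filter p).foldl (fun x v => x ||| b v) x) (w + ((L.filter p).map m).sum) = true := by
  induction L with
  | nil =>
    intro u x w h
    right
    simpa [goSearch] using h
  | cons v L ih =>
    intro u x w h
    simp only [List.map_cons, goSearch, Bool.and_eq_true, Bool.or_eq_true] at h
    obtain ⟨h1, h2⟩ := h
    by_cases hp : p v = true
    · rw [List.filter_cons_of_pos hp]
      simp only [List.map_cons, List.sum_cons, List.foldl_cons]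
      rcases h2 with h2 | h2
      · left
        have h3 : s < w + m v := by simpa [Nat.blt_eq] using h2
        omega
      · have h3 := ih _ _ _ h2
        rw [← add_assoc]
        exact h3
    · rw [List.filter_cons_of_neg hp]
      exact ih u x w h1

theorem testBit_foldl_and (g : Fin 15 → ℕ) (j : ℕ) (L : List (Fin 15)) : ∀ u : ℕ,
    (L.foldl (fun u v => u &&& g v) u).testBit j = true ↔
      u.testBit j = true ∧ ∀ v ∈ L, (g v).testBit j = true := by
  induction L with
  | nil => intro u; simp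
  | cons v L ih =>
    intro u
    rw [List.foldl_cons, ih]
    simp [Nat.testBit_and, and_assoc]

theorem testBit_foldl_or (b : Fin 15 → ℕ) (j : ℕ) (L : List (Fin 15)) : ∀ x : ℕ,
    (L.foldl (fun x v => x ||| b v) x).testBit j = true ↔
      x.testBit j = true ∨ ∃ v ∈ L, (b v).testBit j = true := by
  induction L with
  | nil => intro x; simp
  | cons v L ih =>
    intro x
    rw [List.foldl_cons, ih]
    simp [Nat.testBit_or, or_assoc]

theorem kSum_eq (f k : Fin 15 → ℕ) (u : ℕ) (L : List (Fin 15)) :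
    kSum (L.map (fun v => (f v, k v))) u
      = (L.map (fun v => if (f v &&& u) = 0 then 0 else k v)).sum := by
  induction L with
  | nil => rfl
  | cons v L ih =>
    simp only [List.map_cons, kSum, List.sum_cons, ih]
    congr 1
    by_cases h : (f v &&& u) = 0
    · have h' : Nat.beq (Nat.land (f v) u) 0 = true := by
        rw [Nat.beq_eq]; exact h
      rw [h', if_pos h]; rfl
    · have h' : Nat.beq (Nat.land (f v) u) 0 = false := by
        rw [Bool.eq_false_iff]
        intro hh
        rw [Nat.beq_eq] at hh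
        exact h hh
      rw [h', if_neg h]; rfl

/-- Correctness of the search: one half of the conditions on a pair. -/
theorem half_of_search (As : List (Finset (Fin 15))) (A B : Finset (Finset (Fin 15)))
    (hA : ∀ a, a ∈ A ↔ a ∈ As) (l m : Fin 15 → ℕ) (r s : ℕ)
    (hl : ∀ v, 0 < l v) (hm : ∀ v, 0 < m v) (hsum : ∀ a ∈ A, ∑ v ∈ a, l v = r)
    (hspan : ∀ v, ∃ a ∈ A, v ∈ a) (htwo : ∀ a ∈ A, 2 ≤ a.card)
    (f g : Fin 15 → ℕ) (n : ℕ) (hn : As.length = n)
    (hf : ∀ v, ∀ j (hj : j < n), (f v).testBit j = decide (v ∈ As[j]))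
    (hg : ∀ v, ∀ j (hj : j < n), (g v).testBit j = !decide (v ∈ As[j]))
    (Bm : List ℕ) (hB : ∀ y ∈ Bm, ∃ b ∈ B, ∀ v : Fin 15, y.testBit v = decide (v ∈ b))
    (hBA : ∀ b ∈ B, ∀ a ∈ A, (a ∩ b).Nonempty)
    (D : List (ℕ × ℕ × ℕ)) (hD : D = (List.finRange 15).map (fun v => (g v, 2 ^ v.val, m v)))
    (K : List (ℕ × ℕ)) (hK : K = (List.finRange 15).map (fun v => (f v, l v * m v)))
    (hgo : goSearch s (leaf r s K Bm) D (2 ^ n - 1) 0 0 = true) :
    Half (A : Set (Finset (Fin 15))) (B : Set (Finset (Fin 15))) l m r s := by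
  classical
  subst hn
  -- the main claim
  have key : ∀ R : Finset (Fin 15),
      r * s < r * ∑ v ∈ R, m v ∨
      (r * s ≤ r * ∑ v ∈ R, m v
          + ∑ v ∈ univ.filter (fun v => ∃ a ∈ A, v ∈ a ∧ ¬ (a ∩ R).Nonempty), l v * m v ∧
        (r * ∑ v ∈ R, m v
          + ∑ v ∈ univ.filter (fun v => ∃ a ∈ A, v ∈ a ∧ ¬ (a ∩ R).Nonempty), l v * m v ≤ r * s →
          R ∈ B)) := by
    intro R
    have h := goSearch_spec s (leaf r s K Bm) g (fun v => 2 ^ v.val) m (fun v => decide (v ∈ R))
      (List.finRange 15) (2 ^ As.length - 1) 0 0 (by rw [← hD]; exact hgo)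
    set LR := (List.finRange 15).filter (fun v => decide (v ∈ R)) with hLR
    have hmem : ∀ v, v ∈ LR ↔ v ∈ R := by
      intro v
      simp [hLR]
    have hnd : LR.Nodup := (List.nodup_finRange 15).filter _
    have hLRR : LR.toFinset = R := by
      ext v; simp [hmem]
    have hs : (LR.map m).sum = ∑ v ∈ R, m v := by
      rw [← hLRR, List.sum_toFinset _ hnd]
    rw [zero_add, hs] at h
    rcases h with h | h
    · left
      rcases Nat.eq_zero_or_pos r with hr | hr
      · exfalso
        obtain ⟨a, ha, -⟩ := hspan 0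
        have h1 := hsum a ha
        have h2 := htwo a ha
        have h3 : 0 < ∑ v ∈ a, l v := by
          apply Finset.sum_pos (fun v _ => hl v)
          rw [← Finset.card_pos]; omega
        omega
      · exact Nat.mul_lt_mul_of_pos_left h hr
    · right
      simp only [leaf, Bool.and_eq_true, Bool.or_eq_true] at h
      obtain ⟨h1, h2⟩ := h
      set u := LR.foldl (fun u v => u &&& g v) (2 ^ As.length - 1) with hu
      set x := LR.foldl (fun x v => x ||| 2 ^ v.val) 0 with hx
      have hubit : ∀ j, u.testBit j = true ↔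
          ∃ hj : j < As.length, ¬ (As[j] ∩ R).Nonempty := by
        intro j
        rw [hu, testBit_foldl_and]
        simp only [Nat.testBit_two_pow_sub_one, decide_eq_true_eq]
        constructor
        · rintro ⟨hj, hall⟩
          refine ⟨hj, ?_⟩
          rintro ⟨v, hv⟩
          rw [Finset.mem_inter] at hv
          have h3 := hall v ((hmem v).2 hv.2)
          rw [hg v j hj] at h3
          simp [hv.1] at h3
        · rintro ⟨hj, hne⟩
          refine ⟨hj, ?_⟩
          intro v hv
          rw [hg v j hj]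
          simp only [Bool.not_eq_true', decide_eq_false_iff_not]
          intro hva
          exact hne ⟨v, Finset.mem_inter.2 ⟨hva, (hmem v).1 hv⟩⟩
      have hkey : ∀ v, (f v &&& u) ≠ 0 ↔ ∃ a ∈ A, v ∈ a ∧ ¬ (a ∩ R).Nonempty := by
        intro v
        constructor
        · intro hne
          obtain ⟨j, hj⟩ : ∃ j, (f v &&& u).testBit j = true := by
            by_contra hcon
            apply hne
            apply Nat.eq_of_testBit_eq
            intro i
            rw [Nat.zero_testBit]
            rw [Bool.eq_false_iff]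
            intro hi
            exact hcon ⟨i, hi⟩
          rw [Nat.testBit_and, Bool.and_eq_true] at hj
          obtain ⟨hj1, hj2⟩ := hj
          obtain ⟨hjn, hjR⟩ := (hubit j).1 hj2
          rw [hf v j hjn] at hj1
          refine ⟨As[j], (hA _).2 (List.getElem_mem hjn), by simpa using hj1, hjR⟩
        · rintro ⟨a, ha, hva, haR⟩ h0
          obtain ⟨j, hjn, rfl⟩ := List.mem_iff_getElem.1 ((hA a).1 ha)
          have h3 : (f v &&& u).testBit j = true := by
            rw [Nat.testBit_and, Bool.and_eq_true]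
            refine ⟨?_, (hubit j).2 ⟨hjn, haR⟩⟩
            rw [hf v j hjn]
            simpa using hva
          rw [h0] at h3
          simp at h3
      have hksum : kSum K u
          = ∑ v ∈ univ.filter (fun v => ∃ a ∈ A, v ∈ a ∧ ¬ (a ∩ R).Nonempty), l v * m v := by
        rw [hK, kSum_eq, ← Fin.sum_univ_def, Finset.sum_filter]
        apply Finset.sum_congr rfl
        intro v _
        by_cases hv : (f v &&& u) = 0
        · rw [if_pos hv, if_neg]
          intro h3
          exact (hkey v).2 h3 hv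
        · rw [if_neg hv, if_pos ((hkey v).1 hv)]
      rw [hksum] at h1 h2
      refine ⟨by simpa [Nat.ble_eq] using h1, ?_⟩
      intro hle
      rcases h2 with h2 | h2
      · exfalso
        rw [Nat.blt_eq] at h2
        omega
      · rw [List.any_eq_true] at h2
        obtain ⟨y, hy, hyx⟩ := h2
        rw [Nat.beq_eq] at hyx
        obtain ⟨b, hb, hbv⟩ := hB y hy
        have hRb : R = b := by
          ext v
          have h3 : x.testBit v.val = true ↔ v ∈ R := by
            rw [hx, testBit_foldl_or]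
            simp only [Nat.zero_testBit, Bool.false_eq_true, false_or, Nat.testBit_two_pow,
              decide_eq_true_eq]
            constructor
            · rintro ⟨w, hw, hwv⟩
              have : w = v := Fin.ext hwv
              rw [← this]
              exact (hmem w).1 hw
            · intro hv
              exact ⟨v, (hmem v).2 hv, rfl⟩
          rw [← h3, ← hyx, hbv v]
          simp
        rw [hRb]
        exact hb
  have hmin : ∀ R Z : Finset (Fin 15), Kills (A : Set (Finset (Fin 15))) R Z →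
      univ.filter (fun v => ∃ a ∈ A, v ∈ a ∧ ¬ (a ∩ R).Nonempty) ⊆ Z := by
    intro R Z hkill v hv
    rw [Finset.mem_filter] at hv
    obtain ⟨-, a, ha, hva, haR⟩ := hv
    rcases hkill a (by simpa using ha) with h1 | h1
    · exact absurd h1 haR
    · exact h1 hva
  refine ⟨hl, hm, ?_, ?_, ?_, ?_, ?_⟩
  · intro a ha; exact hsum a (by simpa using ha)
  · intro v
    obtain ⟨a, ha, hva⟩ := hspan v
    exact ⟨a, by simpa using ha, hva⟩
  · intro a ha; exact htwo a (by simpa using ha)
  · intro R Z hkill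
    have h0 := Finset.sum_le_sum_of_subset (f := fun v => l v * m v) (hmin R Z hkill)
    rcases key R with h1 | ⟨h1, -⟩
    · omega
    · have h0' : ∑ v ∈ univ.filter (fun v => ∃ a ∈ A, v ∈ a ∧ ¬ (a ∩ R).Nonempty), l v * m v
          ≤ ∑ v ∈ Z, l v * m v := h0
      omega
  · intro R Z hkill hle
    have h0' : ∑ v ∈ univ.filter (fun v => ∃ a ∈ A, v ∈ a ∧ ¬ (a ∩ R).Nonempty), l v * m v
          ≤ ∑ v ∈ Z, l v * m v := Finset.sum_le_sum_of_subset (hmin R Z hkill)
    rcases key R with h1 | ⟨h1, h2⟩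
    · omega
    · have hRB : R ∈ B := h2 (by omega)
      refine ⟨by simpa using hRB, ?_⟩
      by_contra hZ
      have hTe : univ.filter (fun v => ∃ a ∈ A, v ∈ a ∧ ¬ (a ∩ R).Nonempty) = ∅ := by
        rw [Finset.filter_eq_empty_iff]
        rintro v - ⟨a, ha, -, haR⟩
        exact haR (hBA R hRB a ha)
      rw [hTe, Finset.sum_empty] at h1
      obtain ⟨z, hz⟩ := Finset.nonempty_iff_ne_empty.2 hZ
      have h3 : 0 < ∑ v ∈ Z, l v * m v :=
        Finset.sum_pos (fun v _ => Nat.mul_pos (hl v) (hm v)) ⟨z, hz⟩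
      omega

def baseAList : List (Finset (Fin 15)) := [{1,3,6,9,11},{2,3,5,8},{0,5,7,11,13},{6,7,8,9,13},
  {0,6,10,14},{4,10,12,14},{1,4,13,14}]

def baseBList : List (Finset (Fin 15)) := [{0,2,4,9},{1,2,7,10},{3,7,14},{3,10,13},{4,5,6},
  {5,9,14},{0,1,8,12},{8,11,14}]

def fA : Fin 15 → ℕ := ![20, 65, 2, 3, 96, 6, 25, 12, 10, 9, 48, 5, 32, 76, 112]
def gA : Fin 15 → ℕ := ![107, 62, 125, 124, 31, 121, 102, 115, 117, 118, 79, 122, 95, 51, 15]
def fB : Fin 15 → ℕ := ![65, 66, 3, 12, 17, 48, 16, 6, 192, 33, 10, 128, 64, 8, 164]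
def gB : Fin 15 → ℕ := ![190, 189, 252, 243, 238, 207, 239, 249, 63, 222, 245, 127, 191, 247, 91]

def dA : List (ℕ × ℕ × ℕ) := [(107,1,3),(62,2,3),(125,4,2),(124,8,3),(31,16,3),(121,32,3),
  (102,64,5),(115,128,3),(117,256,3),(118,512,3),(79,1024,3),(122,2048,3),(95,4096,2),
  (51,8192,5),(15,16384,5)]

def dB : List (ℕ × ℕ × ℕ) := [(190,1,3),(189,2,3),(252,4,4),(243,8,3),(238,16,3),(207,32,3),
  (239,64,2),(249,128,3),(63,256,3),(222,512,3),(245,1024,3),(127,2048,2),(191,4096,2),
  (247,8192,2),(91,16384,5)]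

def kA : List (ℕ × ℕ) := [(20,9),(65,9),(2,8),(3,9),(96,9),(6,9),(25,10),(12,9),(10,9),(9,9),
  (48,9),(5,6),(32,4),(76,10),(112,25)]

def kB : List (ℕ × ℕ) := [(65,9),(66,9),(3,8),(12,9),(17,9),(48,9),(16,10),(6,9),(192,9),(33,9),
  (10,9),(128,6),(64,4),(8,10),(164,25)]

theorem searchA : goSearch 11 (leaf 13 11 kA [533, 1158, 16520, 9224, 112, 16928, 4355, 18688])
    dA (2 ^ 7 - 1) 0 0 = true := by
  decide +kernel

theorem searchB : goSearch 13 (leaf 11 13 kB [2634, 300, 10401, 9152, 17473, 21520, 24594])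
    dB (2 ^ 8 - 1) 0 0 = true := by
  decide +kernel

theorem mem_baseA (a : Finset (Fin 15)) : a ∈ baseA ↔ a ∈ baseAList := by
  simp [baseA, baseAList]

theorem mem_baseB (a : Finset (Fin 15)) : a ∈ baseB ↔ a ∈ baseBList := by
  simp [baseB, baseBList]

theorem base_exList : ∀ a ∈ baseAList, ∀ b ∈ baseBList, (a ∩ b).card = 1 := by
  intro a ha b hb
  simp only [baseAList, List.mem_cons, List.not_mem_nil, or_false] at ha
  simp only [baseBList, List.mem_cons, List.not_mem_nil, or_false] at hb
  rcases ha with rfl | rfl | rfl | rfl | rfl | rfl | rfl <;>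
    rcases hb with rfl | rfl | rfl | rfl | rfl | rfl | rfl | rfl <;> decide +kernel

theorem base_ex : ∀ a ∈ baseA, ∀ b ∈ baseB, (a ∩ b).card = 1 := by
  intro a ha b hb
  exact base_exList a ((mem_baseA a).1 ha) b ((mem_baseB b).1 hb)

theorem sumA : ∀ a ∈ baseAList, ∑ v ∈ a, baseL v = 13 := by
  intro a ha
  simp only [baseAList, List.mem_cons, List.not_mem_nil, or_false] at ha
  rcases ha with rfl | rfl | rfl | rfl | rfl | rfl | rfl <;> decide +kernel
theorem sumB : ∀ a ∈ baseBList, ∑ v ∈ a, baseM v = 11 := by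
  intro a ha
  simp only [baseBList, List.mem_cons, List.not_mem_nil, or_false] at ha
  rcases ha with rfl | rfl | rfl | rfl | rfl | rfl | rfl | rfl <;> decide +kernel
theorem cardA : ∀ a ∈ baseAList, 2 ≤ a.card := by
  intro a ha
  simp only [baseAList, List.mem_cons, List.not_mem_nil, or_false] at ha
  rcases ha with rfl | rfl | rfl | rfl | rfl | rfl | rfl <;> decide +kernel
theorem cardB : ∀ a ∈ baseBList, 2 ≤ a.card := by
  intro a ha
  simp only [baseBList, List.mem_cons, List.not_mem_nil, or_false] at ha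
  rcases ha with rfl | rfl | rfl | rfl | rfl | rfl | rfl | rfl <;> decide +kernel
theorem spanA : ∀ v, ∃ a ∈ baseAList, v ∈ a := by decide +kernel
theorem spanB : ∀ v, ∃ a ∈ baseBList, v ∈ a := by decide +kernel

theorem fA_spec : ∀ v : Fin 15, ∀ j (hj : j < 7), (fA v).testBit j
    = decide (v ∈ baseAList[j]'(by simpa [baseAList] using hj)) := by decide +kernel
theorem gA_spec : ∀ v : Fin 15, ∀ j (hj : j < 7), (gA v).testBit j
    = !decide (v ∈ baseAList[j]'(by simpa [baseAList] using hj)) := by decide +kernel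
theorem fB_spec : ∀ v : Fin 15, ∀ j (hj : j < 8), (fB v).testBit j
    = decide (v ∈ baseBList[j]'(by simpa [baseBList] using hj)) := by decide +kernel
theorem gB_spec : ∀ v : Fin 15, ∀ j (hj : j < 8), (gB v).testBit j
    = !decide (v ∈ baseBList[j]'(by simpa [baseBList] using hj)) := by decide +kernel

theorem maskB : ∀ y ∈ [533, 1158, 16520, 9224, 112, 16928, 4355, 18688],
    ∃ b ∈ baseBList, ∀ v : Fin 15, Nat.testBit y v = decide (v ∈ b) := by decide +kernel
theorem maskA : ∀ y ∈ [2634, 300, 10401, 9152, 17473, 21520, 24594],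
    ∃ b ∈ baseAList, ∀ v : Fin 15, Nat.testBit y v = decide (v ∈ b) := by decide +kernel

theorem dA_eq : dA = (List.finRange 15).map (fun v => (gA v, 2 ^ v.val, baseM v)) := by
  decide +kernel
theorem dB_eq : dB = (List.finRange 15).map (fun v => (gB v, 2 ^ v.val, baseL v)) := by
  decide +kernel
theorem kA_eq : kA = (List.finRange 15).map (fun v => (fA v, baseL v * baseM v)) := by
  decide +kernel
theorem kB_eq : kB = (List.finRange 15).map (fun v => (fB v, baseM v * baseL v)) := by
  decide +kernel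

theorem base_hA : Half (baseA : Set (Finset (Fin 15))) (baseB : Set (Finset (Fin 15)))
    baseL baseM 13 11 := by
  refine half_of_search baseAList baseA baseB mem_baseA baseL baseM 13 11 (by decide) (by decide)
    (fun a ha => sumA a ((mem_baseA a).1 ha)) ?_ (fun a ha => cardA a ((mem_baseA a).1 ha))
    fA gA 7 rfl fA_spec gA_spec [533, 1158, 16520, 9224, 112, 16928, 4355, 18688] ?_ ?_
    dA dA_eq kA kA_eq searchA
  · intro v
    obtain ⟨a, ha, hv⟩ := spanA v
    exact ⟨a, (mem_baseA a).2 ha, hv⟩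
  · intro y hy
    obtain ⟨b, hb, hv⟩ := maskB y hy
    exact ⟨b, (mem_baseB b).2 hb, hv⟩
  · intro b hb a ha
    rw [← Finset.card_pos, base_ex a ha b hb]
    exact Nat.one_pos

theorem base_hB : Half (baseB : Set (Finset (Fin 15))) (baseA : Set (Finset (Fin 15)))
    baseM baseL 11 13 := by
  refine half_of_search baseBList baseB baseA mem_baseB baseM baseL 11 13 (by decide) (by decide)
    (fun a ha => sumB a ((mem_baseB a).1 ha)) ?_ (fun a ha => cardB a ((mem_baseB a).1 ha))
    fB gB 8 rfl fB_spec gB_spec [2634, 300, 10401, 9152, 17473, 21520, 24594] ?_ ?_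
    dB dB_eq kB kB_eq searchB
  · intro v
    obtain ⟨a, ha, hv⟩ := spanB v
    exact ⟨a, (mem_baseB a).2 ha, hv⟩
  · intro y hy
    obtain ⟨b, hb, hv⟩ := maskA y hy
    exact ⟨b, (mem_baseA b).2 hb, hv⟩
  · intro b hb a ha
    rw [← Finset.card_pos, Finset.inter_comm, base_ex b hb a ha]
    exact Nat.one_pos

theorem base_isPair : IsPair (baseA : Set (Finset (Fin 15))) (baseB : Set (Finset (Fin 15)))
    baseL baseM 13 11 := by
  refine ⟨?_, ⟨0⟩, base_hA, base_hB⟩
  intro a ha b hb
  exact base_ex a (by simpa using ha) b (by simpa using hb)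

theorem base_total : ∑ v, baseL v * baseM v = 144 := by
  decide +kernel

end Pool.Agent.Lib.MP_6f811f_co
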