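import Pool.Agent.Lib.MP_6f811f_co.RefBase

/-!
Composition of reduced pairs; existence of a pair with the property `StarStar`.
-/

set_option autoImplicit false
set_option linter.unusedSectionVars false

namespace Pool.Agent.Lib.MP_6f811f_co

open Finset

variable {V V1 V2 : Type} [Fintype V] [DecidableEq V] [Fintype V1] [DecidableEq V1] [Fintype V2]
  [DecidableEq V2]

/-- The set of all `(x, y)` with `x ∈ a`, `y ∈ f x`. -/
def cross (a : Finset V1) (f : V1 → Finset V2) : Finset (V1 × V2) :=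
  univ.filter (fun p => p.1 ∈ a ∧ p.2 ∈ f p.1)

theorem mem_cross {a : Finset V1} {f : V1 → Finset V2} {p : V1 × V2} :
    p ∈ cross a f ↔ p.1 ∈ a ∧ p.2 ∈ f p.1 := by
  simp [cross]

/-- The composition of two families. -/
def compF (A1 : Set (Finset V1)) (A2 : Set (Finset V2)) : Set (Finset (V1 × V2)) :=
  {c | ∃ a ∈ A1, ∃ f : V1 → Finset V2, (∀ x, f x ∈ A2) ∧ c = cross a f}

/-- The slice of a set at `x`. -/
def slice (R : Finset (V1 × V2)) (x : V1) : Finset V2 := univ.filter (fun y => (x, y) ∈ R)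

theorem mem_slice {R : Finset (V1 × V2)} {x : V1} {y : V2} : y ∈ slice R x ↔ (x, y) ∈ R := by
  simp [slice]

theorem sum_slice {M : Type} [CommSemiring M] (R : Finset (V1 × V2)) (w1 : V1 → M) (w2 : V2 → M) :
    ∑ p ∈ R, w1 p.1 * w2 p.2 = ∑ x, w1 x * ∑ y ∈ slice R x, w2 y := by
  classical
  have h1 : ∑ p ∈ R, w1 p.1 * w2 p.2 = ∑ p : V1 × V2, if p ∈ R then w1 p.1 * w2 p.2 else 0 := by
    rw [← Finset.sum_filter]
    simp
  rw [h1, Fintype.sum_prod_type]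
  apply Finset.sum_congr rfl
  intro x _
  rw [slice, Finset.sum_filter, Finset.mul_sum]
  apply Finset.sum_congr rfl
  intro y _
  split_ifs <;> simp

theorem sum_cross {M : Type} [CommSemiring M] (a : Finset V1) (f : V1 → Finset V2) (w1 : V1 → M)
    (w2 : V2 → M) :
    ∑ p ∈ cross a f, w1 p.1 * w2 p.2 = ∑ x ∈ a, w1 x * ∑ y ∈ f x, w2 y := by
  classical
  rw [sum_slice]
  have h1 : ∀ x, slice (cross a f) x = if x ∈ a then f x else ∅ := by
    intro x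
    ext y
    rw [mem_slice, mem_cross]
    by_cases hx : x ∈ a <;> simp [hx]
  rw [← Finset.sum_filter_add_sum_filter_not univ (fun x => x ∈ a)]
  have h2 : ∑ x ∈ univ.filter (fun x => ¬ x ∈ a), w1 x * ∑ y ∈ slice (cross a f) x, w2 y = 0 := by
    apply Finset.sum_eq_zero
    intro x hx
    rw [Finset.mem_filter] at hx
    rw [h1, if_neg hx.2]
    simp
  rw [h2, add_zero]
  have h3 : univ.filter (fun x => x ∈ a) = a := by
    ext x
    simp
  rw [h3]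
  apply Finset.sum_congr rfl
  intro x hx
  rw [h1, if_pos hx]

open Classical in
/-- The points whose slice of `R` meets all members of `A2`. -/
noncomputable def blk (A2 : Set (Finset V2)) (R : Finset (V1 × V2)) : Finset V1 :=
  univ.filter (fun x => ∀ a ∈ A2, (a ∩ slice R x).Nonempty)

open Classical in
/-- The points outside `blk` at which the slices of `R`, `Z` kill `A2`. -/
noncomputable def zet (A2 : Set (Finset V2)) (R Z : Finset (V1 × V2)) : Finset V1 :=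
  univ.filter (fun x => x ∉ blk A2 R ∧ Kills A2 (slice R x) (slice Z x))

theorem mem_blk {A2 : Set (Finset V2)} {R : Finset (V1 × V2)} {x : V1} :
    x ∈ blk A2 R ↔ ∀ a ∈ A2, (a ∩ slice R x).Nonempty := by
  simp [blk]

theorem mem_zet {A2 : Set (Finset V2)} {R Z : Finset (V1 × V2)} {x : V1} :
    x ∈ zet A2 R Z ↔ x ∉ blk A2 R ∧ Kills A2 (slice R x) (slice Z x) := by
  simp [zet]

theorem kills_of_mem_blk {A2 : Set (Finset V2)} {R : Finset (V1 × V2)} {x : V1}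
    (h : x ∈ blk A2 R) : Kills A2 (slice R x) ∅ := fun a ha => Or.inl (mem_blk.1 h a ha)

theorem kills_comp {A1 : Set (Finset V1)} {A2 : Set (Finset V2)} {R Z : Finset (V1 × V2)}
    (hne : A2.Nonempty) (h : Kills (compF A1 A2) R Z) : Kills A1 (blk A2 R) (zet A2 R Z) := by
  classical
  intro a1 ha1
  by_cases h1 : (a1 ∩ blk A2 R).Nonempty
  · exact Or.inl h1
  right
  have hnot : ∀ x ∈ a1, x ∉ blk A2 R := by
    intro x hx hxb
    exact h1 ⟨x, Finset.mem_inter.2 ⟨hx, hxb⟩⟩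
  obtain ⟨a0, ha0⟩ := hne
  have hg : ∀ x : V1, ∃ g ∈ A2, x ∉ blk A2 R → ¬ (g ∩ slice R x).Nonempty := by
    intro x
    by_cases hx : x ∈ blk A2 R
    · exact ⟨a0, ha0, fun h => absurd hx h⟩
    · have h2 := hx
      rw [mem_blk] at h2
      push Not at h2
      obtain ⟨g, hg, hg2⟩ := h2
      exact ⟨g, hg, fun _ => by rw [hg2]; simp⟩
  choose g hgA hgR using hg
  intro x0 hx0
  rw [mem_zet]
  refine ⟨hnot x0 hx0, ?_⟩
  intro a2 ha2
  by_cases h2 : (a2 ∩ slice R x0).Nonempty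
  · exact Or.inl h2
  right
  have hf : ∀ x, Function.update g x0 a2 x ∈ A2 := by
    intro x
    by_cases hx : x = x0
    · subst hx
      simpa using ha2
    · rw [Function.update_of_ne hx]
      exact hgA x
  rcases h _ ⟨a1, ha1, Function.update g x0 a2, hf, rfl⟩ with h3 | h3
  · exfalso
    obtain ⟨⟨x, y⟩, hxy⟩ := h3
    rw [Finset.mem_inter, mem_cross] at hxy
    obtain ⟨⟨hx, hy⟩, hR⟩ := hxy
    simp only at hx hy
    by_cases hxx : x = x0
    · subst hxx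
      rw [Function.update_self] at hy
      exact h2 ⟨y, Finset.mem_inter.2 ⟨hy, mem_slice.2 hR⟩⟩
    · rw [Function.update_of_ne hxx] at hy
      exact hgR x (hnot x hx) ⟨y, Finset.mem_inter.2 ⟨hy, mem_slice.2 hR⟩⟩
  · intro y hy
    rw [mem_slice]
    apply h3
    rw [mem_cross]
    refine ⟨hx0, ?_⟩
    simpa using hy

theorem Half.l_le {A B : Set (Finset V)} {l m : V → ℕ} {r s : ℕ} (h : Half A B l m r s) (v : V) :
    l v ≤ r := by
  obtain ⟨a, ha, hv⟩ := h.span v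
  rw [← h.sum_l a ha]
  exact Finset.single_le_sum (f := l) (fun _ _ => Nat.zero_le _) hv

theorem Half.r_pos [Nonempty V] {A B : Set (Finset V)} {l m : V → ℕ} {r s : ℕ}
    (h : Half A B l m r s) : 0 < r := by
  obtain ⟨v⟩ := (inferInstance : Nonempty V)
  exact (h.lpos v).trans_le (h.l_le v)

theorem Half.ne [Nonempty V] {A B : Set (Finset V)} {l m : V → ℕ} {r s : ℕ}
    (h : Half A B l m r s) : A.Nonempty := by
  obtain ⟨v⟩ := (inferInstance : Nonempty V)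
  obtain ⟨a, ha, _⟩ := h.span v
  exact ⟨a, ha⟩

/-- The pointwise estimate for one side. -/
theorem pt_one {A1 B1 : Set (Finset V1)} {A2 B2 : Set (Finset V2)} {l1 m1 : V1 → ℕ}
    {l2 m2 : V2 → ℕ} {r1 s1 r2 s2 : ℕ} (h1 : Half A1 B1 l1 m1 r1 s1)
    (h2 : Half A2 B2 l2 m2 r2 s2) (R Z : Finset (V1 × V2)) (x : V1) :
    r2 * s2 * ((if x ∈ blk A2 R then r1 * m1 x else 0) +
      (if x ∈ zet A2 R Z then l1 x * m1 x else 0)) ≤
    (r1 * m1 x) * (r2 * ∑ y ∈ slice R x, m2 y) +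
      (l1 x * m1 x) * ∑ y ∈ slice Z x, l2 y * m2 y := by
  by_cases hx : x ∈ blk A2 R
  · have hz : x ∉ zet A2 R Z := fun h => (mem_zet.1 h).1 hx
    rw [if_pos hx, if_neg hz, add_zero]
    have h3 := h2.c1 _ _ (kills_of_mem_blk hx)
    rw [Finset.sum_empty, add_zero] at h3
    calc r2 * s2 * (r1 * m1 x) = (r1 * m1 x) * (r2 * s2) := by ring
      _ ≤ (r1 * m1 x) * (r2 * ∑ y ∈ slice R x, m2 y) := Nat.mul_le_mul_left _ h3
      _ ≤ _ := Nat.le_add_right _ _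
  · rw [if_neg hx, zero_add]
    by_cases hz : x ∈ zet A2 R Z
    · rw [if_pos hz]
      have h3 := h2.c1 _ _ (mem_zet.1 hz).2
      have h4 : l1 x * m1 x ≤ r1 * m1 x := Nat.mul_le_mul_right _ (h1.l_le x)
      calc r2 * s2 * (l1 x * m1 x) = (l1 x * m1 x) * (r2 * s2) := by ring
        _ ≤ (l1 x * m1 x) * (r2 * ∑ y ∈ slice R x, m2 y + ∑ y ∈ slice Z x, l2 y * m2 y) :=
          Nat.mul_le_mul_left _ h3
        _ = (l1 x * m1 x) * (r2 * ∑ y ∈ slice R x, m2 y) +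
            (l1 x * m1 x) * ∑ y ∈ slice Z x, l2 y * m2 y := by ring
        _ ≤ _ := Nat.add_le_add_right (Nat.mul_le_mul_right _ h4) _
    · rw [if_neg hz, mul_zero]
      exact Nat.zero_le _

theorem sum_k (l1 m1 : V1 → ℕ) (l2 m2 : V2 → ℕ) (Z : Finset (V1 × V2)) :
    ∑ p ∈ Z, (l1 p.1 * l2 p.2) * (m1 p.1 * m2 p.2) =
      ∑ x, (l1 x * m1 x) * ∑ y ∈ slice Z x, l2 y * m2 y := by
  rw [← sum_slice Z (fun x => l1 x * m1 x) (fun y => l2 y * m2 y)]
  apply Finset.sum_congr rfl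
  intro p _
  ring

theorem total_eq (r1 r2 : ℕ) (l1 m1 : V1 → ℕ) (l2 m2 : V2 → ℕ) (R Z : Finset (V1 × V2)) :
    r1 * r2 * ∑ p ∈ R, m1 p.1 * m2 p.2 + ∑ p ∈ Z, (l1 p.1 * l2 p.2) * (m1 p.1 * m2 p.2) =
      ∑ x, ((r1 * m1 x) * (r2 * ∑ y ∈ slice R x, m2 y) +
        (l1 x * m1 x) * ∑ y ∈ slice Z x, l2 y * m2 y) := by
  rw [Finset.sum_add_distrib, sum_k, sum_slice]
  congr 1
  rw [Finset.mul_sum]
  apply Finset.sum_congr rfl
  intro x _
  ring

theorem sum_ind (a : Finset V1) (w : V1 → ℕ) : ∑ x, (if x ∈ a then w x else 0) = ∑ x ∈ a, w x := by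
  rw [← Finset.sum_filter]
  congr 1
  ext x
  simp

theorem half_comp {A1 B1 : Set (Finset V1)} {A2 B2 : Set (Finset V2)} {l1 m1 : V1 → ℕ}
    {l2 m2 : V2 → ℕ} {r1 s1 r2 s2 : ℕ} (h1 : Half A1 B1 l1 m1 r1 s1)
    (h2 : Half A2 B2 l2 m2 r2 s2) (hA2 : A2.Nonempty) (hB2 : B2.Nonempty)
    (hr2 : 0 < r2) (hs2 : 0 < s2) :
    Half (compF A1 A2) (compF B1 B2) (fun p => l1 p.1 * l2 p.2) (fun p => m1 p.1 * m2 p.2)
      (r1 * r2) (s1 * s2) := by
  classical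
  have key : ∀ R Z : Finset (V1 × V2), r2 * s2 * (r1 * ∑ x ∈ blk A2 R, m1 x +
      ∑ x ∈ zet A2 R Z, l1 x * m1 x) = ∑ x, r2 * s2 * ((if x ∈ blk A2 R then r1 * m1 x else 0) +
      (if x ∈ zet A2 R Z then l1 x * m1 x else 0)) := by
    intro R Z
    rw [← Finset.mul_sum, Finset.sum_add_distrib, sum_ind, sum_ind, ← Finset.mul_sum]
  refine ⟨fun p => Nat.mul_pos (h1.lpos _) (h2.lpos _), fun p => Nat.mul_pos (h1.mpos _)
    (h2.mpos _), ?_, ?_, ?_, ?_, ?_⟩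
  · rintro c ⟨a, ha, f, hf, rfl⟩
    rw [sum_cross]
    rw [Finset.sum_congr rfl (fun x _ => by rw [h2.sum_l _ (hf x)]), ← Finset.sum_mul,
      h1.sum_l a ha]
  · rintro ⟨x, y⟩
    obtain ⟨a, ha, hx⟩ := h1.span x
    obtain ⟨a2, ha2, hy⟩ := h2.span y
    exact ⟨_, ⟨a, ha, fun _ => a2, fun _ => ha2, rfl⟩, mem_cross.2 ⟨hx, hy⟩⟩
  · rintro c ⟨a, ha, f, hf, rfl⟩
    refine (h1.two_le a ha).trans ?_
    have h3 : a ⊆ (cross a f).image Prod.fst := by
      intro x hx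
      have h4 : 0 < (f x).card := lt_of_lt_of_le (by norm_num) (h2.two_le _ (hf x))
      obtain ⟨y, hy⟩ := Finset.card_pos.1 h4
      exact Finset.mem_image.2 ⟨(x, y), mem_cross.2 ⟨hx, hy⟩, rfl⟩
    exact (Finset.card_le_card h3).trans Finset.card_image_le
  · intro R Z hK
    have h3 := h1.c1 _ _ (kills_comp hA2 hK)
    rw [total_eq]
    calc r1 * r2 * (s1 * s2) = r2 * s2 * (r1 * s1) := by ring
      _ ≤ r2 * s2 * (r1 * ∑ x ∈ blk A2 R, m1 x + ∑ x ∈ zet A2 R Z, l1 x * m1 x) :=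
        Nat.mul_le_mul_left _ h3
      _ = _ := key R Z
      _ ≤ _ := Finset.sum_le_sum (fun x _ => pt_one h1 h2 R Z x)
  · intro R Z hK hle
    have h3 := h1.c1 _ _ (kills_comp hA2 hK)
    rw [total_eq] at hle
    have h4 : r2 * s2 * (r1 * ∑ x ∈ blk A2 R, m1 x + ∑ x ∈ zet A2 R Z, l1 x * m1 x) ≤
        r2 * s2 * (r1 * s1) := by
      calc _ = _ := key R Z
        _ ≤ _ := Finset.sum_le_sum (fun x _ => pt_one h1 h2 R Z x)
        _ ≤ r1 * r2 * (s1 * s2) := hle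
        _ = _ := by ring
    have h5 : r1 * ∑ x ∈ blk A2 R, m1 x + ∑ x ∈ zet A2 R Z, l1 x * m1 x ≤ r1 * s1 :=
      Nat.le_of_mul_le_mul_left h4 (Nat.mul_pos hr2 hs2)
    obtain ⟨hR1, hZ1⟩ := h1.eq _ _ (kills_comp hA2 hK) h5
    -- pointwise equality
    have h6 : ∀ x, (r1 * m1 x) * (r2 * ∑ y ∈ slice R x, m2 y) +
        (l1 x * m1 x) * ∑ y ∈ slice Z x, l2 y * m2 y ≤
        r2 * s2 * ((if x ∈ blk A2 R then r1 * m1 x else 0) +
          (if x ∈ zet A2 R Z then l1 x * m1 x else 0)) := by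
      intro x
      by_contra hlt
      push Not at hlt
      have h7 := Finset.sum_lt_sum (fun x _ => pt_one h1 h2 R Z x) ⟨x, Finset.mem_univ x, hlt⟩
      rw [← key R Z] at h7
      have h8 : r2 * s2 * (r1 * s1) ≤
          r2 * s2 * (r1 * ∑ x ∈ blk A2 R, m1 x + ∑ x ∈ zet A2 R Z, l1 x * m1 x) :=
        Nat.mul_le_mul_left _ h3
      have h9 : r1 * r2 * (s1 * s2) = r2 * s2 * (r1 * s1) := by ring
      omega
    have hr1 : ∀ x : V1, 0 < r1 := fun x => (h1.lpos x).trans_le (h1.l_le x)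
    have hzero : ∀ x, x ∉ blk A2 R → slice R x = ∅ ∧ slice Z x = ∅ := by
      intro x hx
      have h7 := h6 x
      rw [if_neg hx, hZ1] at h7
      simp only [Finset.notMem_empty, if_false, add_zero, mul_zero, Nat.le_zero,
        Nat.add_eq_zero_iff, mul_eq_zero, Finset.sum_eq_zero_iff] at h7
      have p1 := hr1 x
      have p2 := h1.mpos x
      have p3 := h1.lpos x
      constructor
      · rw [Finset.eq_empty_iff_forall_notMem]
        intro y hy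
        have p4 := h2.mpos y
        rcases h7.1 with h8 | h8
        · omega
        · rcases h8 with h8 | h8
          · omega
          · have := h8 y hy
            omega
      · rw [Finset.eq_empty_iff_forall_notMem]
        intro y hy
        have p4 := h2.mpos y
        have p5 := h2.lpos y
        rcases h7.2 with h8 | h8
        · omega
        · have := h8 y hy
          omega
    have hone : ∀ x ∈ blk A2 R, slice R x ∈ B2 ∧ slice Z x = ∅ := by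
      intro x hx
      have hz : x ∉ zet A2 R Z := fun h => (mem_zet.1 h).1 hx
      have h7 := h6 x
      rw [if_pos hx, if_neg hz, add_zero] at h7
      have h8 := h2.c1 _ _ (kills_of_mem_blk hx)
      rw [Finset.sum_empty, add_zero] at h8
      have p1 : 0 < r1 * m1 x := Nat.mul_pos (hr1 x) (h1.mpos x)
      have h9 : (r1 * m1 x) * (r2 * ∑ y ∈ slice R x, m2 y) ≤ (r1 * m1 x) * (r2 * s2) := by
        calc _ ≤ _ := Nat.le_add_right _ ((l1 x * m1 x) * ∑ y ∈ slice Z x, l2 y * m2 y)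
          _ ≤ _ := h7
          _ = _ := by ring
      have h10 := Nat.le_of_mul_le_mul_left h9 p1
      refine ⟨(h2.eq _ _ (kills_of_mem_blk hx) (by rw [Finset.sum_empty, add_zero]; exact h10)).1,
        ?_⟩
      have h11 : r1 * m1 x * (r2 * s2) ≤ (r1 * m1 x) * (r2 * ∑ y ∈ slice R x, m2 y) :=
        Nat.mul_le_mul_left _ h8
      have h12 : r2 * s2 * (r1 * m1 x) = r1 * m1 x * (r2 * s2) := by ring
      have h13 : (l1 x * m1 x) * ∑ y ∈ slice Z x, l2 y * m2 y = 0 := by omega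
      rw [Finset.eq_empty_iff_forall_notMem]
      intro y hy
      have p2 := Nat.mul_pos (h1.lpos x) (h1.mpos x)
      have p3 := Nat.mul_pos (h2.lpos y) (h2.mpos y)
      rcases Nat.mul_eq_zero.1 h13 with h14 | h14
      · omega
      · rw [Finset.sum_eq_zero_iff] at h14
        have := h14 y hy
        omega
    obtain ⟨b2, hb2⟩ := hB2
    constructor
    · refine ⟨blk A2 R, hR1, fun x => if x ∈ blk A2 R then slice R x else b2, ?_, ?_⟩
      · intro x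
        show (if x ∈ blk A2 R then slice R x else b2) ∈ B2
        split_ifs with hx
        · exact (hone x hx).1
        · exact hb2
      · ext ⟨x, y⟩
        rw [mem_cross]
        simp only
        by_cases hx : x ∈ blk A2 R
        · rw [if_pos hx, mem_slice]
          simp [hx]
        · have := (hzero x hx).1
          constructor
          · intro h
            have h7 : y ∈ slice R x := mem_slice.2 h
            rw [this] at h7
            simp at h7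
          · rintro ⟨h, _⟩
            exact absurd h hx
    · rw [Finset.eq_empty_iff_forall_notMem]
      rintro ⟨x, y⟩ h
      have h7 : y ∈ slice Z x := mem_slice.2 h
      by_cases hx : x ∈ blk A2 R
      · rw [(hone x hx).2] at h7
        simp at h7
      · rw [(hzero x hx).2] at h7
        simp at h7

theorem Half.rs_pos {A B : Set (Finset V)} {l m : V → ℕ} {r s : ℕ} (hP : IsPair A B l m r s) :
    0 < r ∧ 0 < s ∧ A.Nonempty ∧ B.Nonempty := by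
  have := hP.ne
  exact ⟨hP.hA.r_pos, hP.hB.r_pos, hP.hA.ne, hP.hB.ne⟩

theorem pair_comp {A1 B1 : Set (Finset V1)} {A2 B2 : Set (Finset V2)} {l1 m1 : V1 → ℕ}
    {l2 m2 : V2 → ℕ} {r1 s1 r2 s2 : ℕ} (h1 : IsPair A1 B1 l1 m1 r1 s1)
    (h2 : IsPair A2 B2 l2 m2 r2 s2) :
    IsPair (compF A1 A2) (compF B1 B2) (fun p => l1 p.1 * l2 p.2) (fun p => m1 p.1 * m2 p.2)
      (r1 * r2) (s1 * s2) := by
  obtain ⟨hr2, hs2, hA2, hB2⟩ := Half.rs_pos h2
  have n1 := h1.ne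
  have n2 := h2.ne
  refine ⟨?_, inferInstance, half_comp h1.hA h2.hA hA2 hB2 hr2 hs2, half_comp h1.hB h2.hB hB2 hA2 hs2 hr2⟩
  rintro c ⟨a, ha, f, hf, rfl⟩ c' ⟨b, hb, g, hg, rfl⟩
  obtain ⟨x, hx⟩ := Finset.card_eq_one.1 (h1.ex a ha b hb)
  obtain ⟨y, hy⟩ := Finset.card_eq_one.1 (h2.ex _ (hf x) _ (hg x))
  rw [Finset.card_eq_one]
  refine ⟨(x, y), ?_⟩
  ext ⟨x', y'⟩
  rw [Finset.mem_inter, mem_cross, mem_cross, Finset.mem_singleton]
  simp only [Prod.mk.injEq]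
  constructor
  · rintro ⟨⟨h3, h4⟩, h5, h6⟩
    have h7 : x' ∈ a ∩ b := Finset.mem_inter.2 ⟨h3, h5⟩
    rw [hx, Finset.mem_singleton] at h7
    subst h7
    have h8 : y' ∈ f x' ∩ g x' := Finset.mem_inter.2 ⟨h4, h6⟩
    rw [hy, Finset.mem_singleton] at h8
    exact ⟨rfl, h8⟩
  · rintro ⟨rfl, rfl⟩
    have h7 : x' ∈ a ∩ b := by rw [hx]; simp
    have h8 : y' ∈ f x' ∩ g x' := by rw [hy]; simp
    rw [Finset.mem_inter] at h7 h8
    exact ⟨⟨h7.1, h8.1⟩, h7.2, h8.2⟩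

/-- The pointwise estimate for both sides. -/
theorem pt_two {A1 B1 : Set (Finset V1)} {A2 B2 : Set (Finset V2)} {l1 m1 : V1 → ℕ}
    {l2 m2 : V2 → ℕ} {r1 s1 r2 s2 : ℕ} (h1 : IsPair A1 B1 l1 m1 r1 s1)
    (h2 : IsPair A2 B2 l2 m2 r2 s2) {β : ℝ} (hβ : Star A2 B2 l2 m2 r2 s2 β)
    (R S Z : Finset (V1 × V2)) (x : V1) :
    ((r2 : ℝ) * s2) * ((if x ∈ blk A2 R then (r1 : ℝ) * m1 x else 0) +
      (if x ∈ blk B2 S then (s1 : ℝ) * l1 x else 0) +
      (if x ∈ zet A2 R Z then (l1 x : ℝ) * m1 x else 0) +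
      (if x ∈ zet B2 S Z then (l1 x : ℝ) * m1 x else 0) -
      (2 - β) * (if x ∈ zet A2 R Z ∩ zet B2 S Z then (l1 x : ℝ) * m1 x else 0)) ≤
    ((r1 : ℝ) * m1 x) * (r2 * ∑ y ∈ slice R x, (m2 y : ℝ)) +
      ((s1 : ℝ) * l1 x) * (s2 * ∑ y ∈ slice S x, (l2 y : ℝ)) +
      ((l1 x : ℝ) * m1 x) * ∑ y ∈ slice Z x, (l2 y : ℝ) * m2 y := by
  set a := (r2 : ℝ) * ∑ y ∈ slice R x, (m2 y : ℝ) with ha
  set b := (s2 : ℝ) * ∑ y ∈ slice S x, (l2 y : ℝ) with hb
  set c := ∑ y ∈ slice Z x, (l2 y : ℝ) * m2 y with hc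
  set k := (l1 x : ℝ) * m1 x with hk
  have a0 : 0 ≤ a := by positivity
  have b0 : 0 ≤ b := by positivity
  have c0 : 0 ≤ c := by positivity
  have k0 : 0 ≤ k := by positivity
  have kA : k ≤ (r1 : ℝ) * m1 x := by
    have : (l1 x : ℝ) ≤ r1 := by exact_mod_cast h1.hA.l_le x
    exact mul_le_mul_of_nonneg_right this (Nat.cast_nonneg _)
  have kB : k ≤ (s1 : ℝ) * l1 x := by
    have : (m1 x : ℝ) ≤ s1 := by exact_mod_cast h1.hB.l_le x
    rw [hk, mul_comm]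
    exact mul_le_mul_of_nonneg_right this (Nat.cast_nonneg _)
  have eA : Kills A2 (slice R x) (slice Z x) → (r2 : ℝ) * s2 ≤ a + c := by
    intro h
    have := h2.hA.c1 _ _ h
    rw [ha, hc]
    exact_mod_cast this
  have eB : Kills B2 (slice S x) (slice Z x) → (r2 : ℝ) * s2 ≤ b + c := by
    intro h
    have := h2.hB.c1 _ _ h
    rw [hb, hc]
    have h3 : (s2 : ℝ) * r2 ≤ s2 * ∑ y ∈ slice S x, (l2 y : ℝ) +
        ∑ y ∈ slice Z x, (m2 y : ℝ) * l2 y := by exact_mod_cast this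
    have h4 : ∑ y ∈ slice Z x, (m2 y : ℝ) * l2 y = ∑ y ∈ slice Z x, (l2 y : ℝ) * m2 y :=
      Finset.sum_congr rfl (fun _ _ => mul_comm _ _)
    rw [h4] at h3
    linarith
  have eA' : x ∈ blk A2 R → (r2 : ℝ) * s2 ≤ a := by
    intro h
    have := h2.hA.c1 _ _ (kills_of_mem_blk h)
    rw [Finset.sum_empty, add_zero] at this
    rw [ha]
    exact_mod_cast this
  have eB' : x ∈ blk B2 S → (r2 : ℝ) * s2 ≤ b := by
    intro h
    have := h2.hB.c1 _ _ (kills_of_mem_blk h)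
    rw [Finset.sum_empty, add_zero] at this
    rw [hb]
    have h3 : (s2 : ℝ) * r2 ≤ s2 * ∑ y ∈ slice S x, (l2 y : ℝ) := by exact_mod_cast this
    linarith
  have eS : Kills A2 (slice R x) (slice Z x) → Kills B2 (slice S x) (slice Z x) →
      β * ((r2 : ℝ) * s2) ≤ a + b + c := fun h h' => hβ _ _ _ h h'
  have p0 : 0 ≤ (r2 : ℝ) * s2 := by positivity
  have q1 : 0 ≤ (r1 : ℝ) * m1 x := by positivity
  have q2 : 0 ≤ (s1 : ℝ) * l1 x := by positivity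
  have hzA : x ∈ zet A2 R Z → x ∉ blk A2 R := fun h => (mem_zet.1 h).1
  have hzB : x ∈ zet B2 S Z → x ∉ blk B2 S := fun h => (mem_zet.1 h).1
  generalize (r2 : ℝ) * s2 = P at *
  generalize (r1 : ℝ) * m1 x = Q1 at *
  generalize (s1 : ℝ) * l1 x = Q2 at *
  by_cases x1 : x ∈ blk A2 R
  · have z1 : x ∉ zet A2 R Z := fun h => hzA h x1
    have g1 := eA' x1
    have z3 : x ∉ zet A2 R Z ∩ zet B2 S Z := fun h => z1 (Finset.mem_inter.1 h).1
    by_cases x2 : x ∈ blk B2 S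
    · have z2 : x ∉ zet B2 S Z := fun h => hzB h x2
      have g2 := eB' x2
      simp only [x1, x2, z1, z2, z3, if_true, if_false]
      nlinarith [mul_le_mul_of_nonneg_left g1 q1, mul_le_mul_of_nonneg_left g2 q2,
        mul_nonneg k0 c0]
    · by_cases z2 : x ∈ zet B2 S Z
      · have g2 := eB (mem_zet.1 z2).2
        simp only [x1, x2, z1, z2, z3, if_true, if_false]
        nlinarith [mul_le_mul_of_nonneg_left g1 q1, mul_le_mul_of_nonneg_left g2 k0,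
          mul_le_mul_of_nonneg_right kB b0]
      · simp only [x1, x2, z1, z2, z3, if_true, if_false]
        nlinarith [mul_le_mul_of_nonneg_left g1 q1, mul_nonneg k0 c0, mul_nonneg q2 b0]
  · by_cases x2 : x ∈ blk B2 S
    · have z2 : x ∉ zet B2 S Z := fun h => hzB h x2
      have g2 := eB' x2
      have z3 : x ∉ zet A2 R Z ∩ zet B2 S Z := fun h => z2 (Finset.mem_inter.1 h).2
      by_cases z1 : x ∈ zet A2 R Z
      · have g1 := eA (mem_zet.1 z1).2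
        simp only [x1, x2, z1, z2, z3, if_true, if_false]
        nlinarith [mul_le_mul_of_nonneg_left g1 k0, mul_le_mul_of_nonneg_left g2 q2,
          mul_le_mul_of_nonneg_right kA a0]
      · simp only [x1, x2, z1, z2, z3, if_true, if_false]
        nlinarith [mul_le_mul_of_nonneg_left g2 q2, mul_nonneg k0 c0, mul_nonneg q1 a0]
    · by_cases z1 : x ∈ zet A2 R Z
      · by_cases z2 : x ∈ zet B2 S Z
        · have z3 : x ∈ zet A2 R Z ∩ zet B2 S Z := Finset.mem_inter.2 ⟨z1, z2⟩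
          have g := eS (mem_zet.1 z1).2 (mem_zet.1 z2).2
          simp only [x1, x2, z1, z2, z3, if_true, if_false]
          nlinarith [mul_le_mul_of_nonneg_left g k0, mul_le_mul_of_nonneg_right kA a0,
            mul_le_mul_of_nonneg_right kB b0]
        · have z3 : x ∉ zet A2 R Z ∩ zet B2 S Z := fun h => z2 (Finset.mem_inter.1 h).2
          have g := eA (mem_zet.1 z1).2
          simp only [x1, x2, z1, z2, z3, if_true, if_false]
          nlinarith [mul_le_mul_of_nonneg_left g k0, mul_le_mul_of_nonneg_right kA a0,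
            mul_nonneg q2 b0]
      · have z3 : x ∉ zet A2 R Z ∩ zet B2 S Z := fun h => z1 (Finset.mem_inter.1 h).1
        by_cases z2 : x ∈ zet B2 S Z
        · have g := eB (mem_zet.1 z2).2
          simp only [x1, x2, z1, z2, z3, if_true, if_false]
          nlinarith [mul_le_mul_of_nonneg_left g k0, mul_le_mul_of_nonneg_right kB b0,
            mul_nonneg q1 a0]
        · simp only [x1, x2, z1, z2, z3, if_false]
          nlinarith [mul_nonneg q1 a0, mul_nonneg q2 b0, mul_nonneg k0 c0]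

theorem sum_indR (a : Finset V1) (w : V1 → ℝ) :
    ∑ x, (if x ∈ a then w x else 0) = ∑ x ∈ a, w x := by
  rw [← Finset.sum_filter]
  congr 1
  ext x
  simp

/-- The total estimate for both sides. -/
theorem tot_two {A1 B1 : Set (Finset V1)} {A2 B2 : Set (Finset V2)} {l1 m1 : V1 → ℕ}
    {l2 m2 : V2 → ℕ} {r1 s1 r2 s2 : ℕ} (h1 : IsPair A1 B1 l1 m1 r1 s1)
    (h2 : IsPair A2 B2 l2 m2 r2 s2) {β : ℝ} (hβ : Star A2 B2 l2 m2 r2 s2 β)
    (R S Z : Finset (V1 × V2)) :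
    ((r2 : ℝ) * s2) * ((r1 : ℝ) * ∑ x ∈ blk A2 R, (m1 x : ℝ) + s1 * ∑ x ∈ blk B2 S, (l1 x : ℝ) +
      ∑ x ∈ zet A2 R Z, (l1 x : ℝ) * m1 x + ∑ x ∈ zet B2 S Z, (l1 x : ℝ) * m1 x -
      (2 - β) * ∑ x ∈ zet A2 R Z ∩ zet B2 S Z, (l1 x : ℝ) * m1 x) ≤
    ((r1 * r2 : ℕ) : ℝ) * ∑ p ∈ R, ((m1 p.1 * m2 p.2 : ℕ) : ℝ) +
      ((s1 * s2 : ℕ) : ℝ) * ∑ p ∈ S, ((l1 p.1 * l2 p.2 : ℕ) : ℝ) +
      ∑ p ∈ Z, ((l1 p.1 * l2 p.2 : ℕ) : ℝ) * ((m1 p.1 * m2 p.2 : ℕ) : ℝ) := by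
  have e1 : ((r1 * r2 : ℕ) : ℝ) * ∑ p ∈ R, ((m1 p.1 * m2 p.2 : ℕ) : ℝ) +
      ((s1 * s2 : ℕ) : ℝ) * ∑ p ∈ S, ((l1 p.1 * l2 p.2 : ℕ) : ℝ) +
      ∑ p ∈ Z, ((l1 p.1 * l2 p.2 : ℕ) : ℝ) * ((m1 p.1 * m2 p.2 : ℕ) : ℝ) =
      ∑ x, (((r1 : ℝ) * m1 x) * (r2 * ∑ y ∈ slice R x, (m2 y : ℝ)) +
      ((s1 : ℝ) * l1 x) * (s2 * ∑ y ∈ slice S x, (l2 y : ℝ)) +
      ((l1 x : ℝ) * m1 x) * ∑ y ∈ slice Z x, (l2 y : ℝ) * m2 y) := by
    have f1 : ∑ p ∈ R, ((m1 p.1 * m2 p.2 : ℕ) : ℝ) =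
        ∑ x, (m1 x : ℝ) * ∑ y ∈ slice R x, (m2 y : ℝ) := by
      rw [← sum_slice R (fun x => (m1 x : ℝ)) (fun y => (m2 y : ℝ))]
      simp
    have f2 : ∑ p ∈ S, ((l1 p.1 * l2 p.2 : ℕ) : ℝ) =
        ∑ x, (l1 x : ℝ) * ∑ y ∈ slice S x, (l2 y : ℝ) := by
      rw [← sum_slice S (fun x => (l1 x : ℝ)) (fun y => (l2 y : ℝ))]
      simp
    have f3 : ∑ p ∈ Z, ((l1 p.1 * l2 p.2 : ℕ) : ℝ) * ((m1 p.1 * m2 p.2 : ℕ) : ℝ) =
        ∑ x, ((l1 x : ℝ) * m1 x) * ∑ y ∈ slice Z x, (l2 y : ℝ) * m2 y := by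
      rw [← sum_slice Z (fun x => (l1 x : ℝ) * m1 x) (fun y => (l2 y : ℝ) * m2 y)]
      apply Finset.sum_congr rfl
      intro p _
      push_cast
      ring
    rw [f1, f2, f3, Finset.mul_sum, Finset.mul_sum, ← Finset.sum_add_distrib,
      ← Finset.sum_add_distrib]
    apply Finset.sum_congr rfl
    intro x _
    push_cast
    ring
  rw [e1]
  refine le_trans (le_of_eq ?_) (Finset.sum_le_sum (fun x _ => pt_two h1 h2 hβ R S Z x))
  rw [← Finset.mul_sum, Finset.sum_sub_distrib, Finset.sum_add_distrib, Finset.sum_add_distrib,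
    Finset.sum_add_distrib, ← Finset.mul_sum, sum_indR, sum_indR, sum_indR, sum_indR, sum_indR,
    Finset.mul_sum, Finset.mul_sum]

theorem star_comp {A1 B1 : Set (Finset V1)} {A2 B2 : Set (Finset V2)} {l1 m1 : V1 → ℕ}
    {l2 m2 : V2 → ℕ} {r1 s1 r2 s2 : ℕ} (h1 : IsPair A1 B1 l1 m1 r1 s1)
    (h2 : IsPair A2 B2 l2 m2 r2 s2) {β η : ℝ} (hη : Star A1 B1 l1 m1 r1 s1 (1 + η))
    (hβ : Star A2 B2 l2 m2 r2 s2 β) (b1 : 1 ≤ β) (b2 : β ≤ 2) :
    Star (compF A1 A2) (compF B1 B2) (fun p => l1 p.1 * l2 p.2) (fun p => m1 p.1 * m2 p.2)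
      (r1 * r2) (s1 * s2) (2 - (2 - β) * (1 - η)) := by
  intro R S Z hR hS
  obtain ⟨hr2, hs2, hA2, hB2⟩ := Half.rs_pos h2
  have k1 := kills_comp hA2 hR
  have k2 := kills_comp hB2 hS
  have c1 : (r1 : ℝ) * s1 ≤ (r1 : ℝ) * ∑ x ∈ blk A2 R, (m1 x : ℝ) +
      ∑ x ∈ zet A2 R Z, (l1 x : ℝ) * m1 x := by exact_mod_cast h1.hA.c1 _ _ k1
  have c2 : (r1 : ℝ) * s1 ≤ (s1 : ℝ) * ∑ x ∈ blk B2 S, (l1 x : ℝ) +
      ∑ x ∈ zet B2 S Z, (l1 x : ℝ) * m1 x := by
    have h3 : (s1 : ℝ) * r1 ≤ (s1 : ℝ) * ∑ x ∈ blk B2 S, (l1 x : ℝ) +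
      ∑ x ∈ zet B2 S Z, (m1 x : ℝ) * l1 x := by exact_mod_cast h1.hB.c1 _ _ k2
    have h4 : ∑ x ∈ zet B2 S Z, (m1 x : ℝ) * l1 x = ∑ x ∈ zet B2 S Z, (l1 x : ℝ) * m1 x :=
      Finset.sum_congr rfl (fun _ _ => mul_comm _ _)
    rw [h4] at h3
    linarith
  have mono : ∀ (F : Set (Finset V1)) (X Y Y' : Finset V1), Kills F X Y → Y ⊆ Y' →
      Kills F X Y' := by
    intro F X Y Y' h hY a ha
    rcases h a ha with h | h
    · exact Or.inl h
    · exact Or.inr (h.trans hY)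
  have c3 := hη (blk A2 R) (blk B2 S) (zet A2 R Z ∪ zet B2 S Z)
    (mono _ _ _ _ k1 Finset.subset_union_left) (mono _ _ _ _ k2 Finset.subset_union_right)
  have c4 := Finset.sum_union_inter (s₁ := zet A2 R Z) (s₂ := zet B2 S Z)
    (f := fun x => (l1 x : ℝ) * m1 x)
  have t := tot_two h1 h2 hβ R S Z
  refine le_trans ?_ t
  have p0 : 0 ≤ (r2 : ℝ) * s2 := by positivity
  have e : (2 - (2 - β) * (1 - η)) * (((r1 * r2 : ℕ) : ℝ) * ((s1 * s2 : ℕ) : ℝ)) =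
      ((r2 : ℝ) * s2) * ((2 - (2 - β) * (1 - η)) * ((r1 : ℝ) * s1)) := by
    push_cast
    ring
  rw [e]
  apply mul_le_mul_of_nonneg_left _ p0
  set X := (r1 : ℝ) * ∑ x ∈ blk A2 R, (m1 x : ℝ)
  set Y := (s1 : ℝ) * ∑ x ∈ blk B2 S, (l1 x : ℝ)
  set ZA := ∑ x ∈ zet A2 R Z, (l1 x : ℝ) * m1 x
  set ZB := ∑ x ∈ zet B2 S Z, (l1 x : ℝ) * m1 x
  set ZI := ∑ x ∈ zet A2 R Z ∩ zet B2 S Z, (l1 x : ℝ) * m1 x
  set ZU := ∑ x ∈ zet A2 R Z ∪ zet B2 S Z, (l1 x : ℝ) * m1 x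
  set P := (r1 : ℝ) * s1
  have c5 : (1 + η) * P ≤ X + Y + ZA + ZB - ZI := by linarith
  have c6 : 2 * P ≤ X + Y + ZA + ZB := by linarith
  nlinarith [mul_le_mul_of_nonneg_left c5 (sub_nonneg.2 b2),
    mul_le_mul_of_nonneg_left c6 (sub_nonneg.2 b1)]

theorem starStar_comp {A1 B1 : Set (Finset V1)} {A2 B2 : Set (Finset V2)} {l1 m1 : V1 → ℕ}
    {l2 m2 : V2 → ℕ} {r1 s1 r2 s2 : ℕ} (h1 : IsPair A1 B1 l1 m1 r1 s1)
    (h2 : IsPair A2 B2 l2 m2 r2 s2) {β : ℝ}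
    (hβ : Star A2 B2 l2 m2 r2 s2 β) (b2 : β ≤ 2)
    (hsmall : (2 - β) * ∑ v, (l1 v : ℝ) * m1 v < 1) :
    StarStar (compF A1 A2) (compF B1 B2) (fun p => l1 p.1 * l2 p.2) (fun p => m1 p.1 * m2 p.2)
      (r1 * r2) (s1 * s2) := by
  intro R S Z hR hS
  have hP := pair_comp h1 h2
  obtain ⟨hr2, hs2, hA2, hB2⟩ := Half.rs_pos h2
  have k1 := kills_comp hA2 hR
  have k2 := kills_comp hB2 hS
  have c1 := h1.hA.c1 _ _ k1
  have c2 := h1.hB.c1 _ _ k2
  have c2' : s1 * ∑ x ∈ blk B2 S, l1 x + ∑ x ∈ zet B2 S Z, m1 x * l1 x =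
      s1 * ∑ x ∈ blk B2 S, l1 x + ∑ x ∈ zet B2 S Z, l1 x * m1 x := by
    congr 1
    exact Finset.sum_congr rfl (fun _ _ => mul_comm _ _)
  by_contra hcon
  push Not at hcon
  obtain ⟨hlt, hext⟩ := hcon
  -- the outer sets are extremal
  have hsum : (r1 * ∑ x ∈ blk A2 R, m1 x + ∑ x ∈ zet A2 R Z, l1 x * m1 x) +
      (s1 * ∑ x ∈ blk B2 S, l1 x + ∑ x ∈ zet B2 S Z, m1 x * l1 x) ≤ 2 * (r1 * s1) := by
    by_contra hgt
    push Not at hgt
    have t := tot_two h1 h2 hβ R S Z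
    have hlt' : (r1 * r2 * ∑ p ∈ R, m1 p.1 * m2 p.2 + s1 * s2 * ∑ p ∈ S, l1 p.1 * l2 p.2 +
        ∑ p ∈ Z, (l1 p.1 * l2 p.2) * (m1 p.1 * m2 p.2)) ≤ 2 * (r1 * r2 * (s1 * s2)) := by
      try simp only at hlt
      omega
    have hltR : ((r1 * r2 : ℕ) : ℝ) * ∑ p ∈ R, ((m1 p.1 * m2 p.2 : ℕ) : ℝ) +
      ((s1 * s2 : ℕ) : ℝ) * ∑ p ∈ S, ((l1 p.1 * l2 p.2 : ℕ) : ℝ) +
      ∑ p ∈ Z, ((l1 p.1 * l2 p.2 : ℕ) : ℝ) * ((m1 p.1 * m2 p.2 : ℕ) : ℝ) ≤
        2 * ((r1 * r2 : ℕ) * ((s1 * s2 : ℕ) : ℝ)) := by exact_mod_cast hlt'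
    have t2 := t.trans hltR
    have e : 2 * (((r1 * r2 : ℕ) : ℝ) * ((s1 * s2 : ℕ) : ℝ)) =
        ((r2 : ℝ) * s2) * (2 * ((r1 : ℝ) * s1)) := by
      push_cast
      ring
    rw [e] at t2
    have p0 : 0 < (r2 : ℝ) * s2 := by
      have := hr2
      have := hs2
      positivity
    have t3 := le_of_mul_le_mul_left t2 p0
    rw [c2'] at hgt
    have hgtR : 2 * ((r1 : ℝ) * s1) + 1 ≤ ((r1 : ℝ) * ∑ x ∈ blk A2 R, (m1 x : ℝ) +
        ∑ x ∈ zet A2 R Z, (l1 x : ℝ) * m1 x) +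
        ((s1 : ℝ) * ∑ x ∈ blk B2 S, (l1 x : ℝ) + ∑ x ∈ zet B2 S Z, (l1 x : ℝ) * m1 x) := by
      have : 2 * (r1 * s1) + 1 ≤ (r1 * ∑ x ∈ blk A2 R, m1 x + ∑ x ∈ zet A2 R Z, l1 x * m1 x) +
        (s1 * ∑ x ∈ blk B2 S, l1 x + ∑ x ∈ zet B2 S Z, l1 x * m1 x) := hgt
      exact_mod_cast this
    have hI : ∑ x ∈ zet A2 R Z ∩ zet B2 S Z, (l1 x : ℝ) * m1 x ≤ ∑ v, (l1 v : ℝ) * m1 v := by
      apply Finset.sum_le_sum_of_subset_of_nonneg (Finset.subset_univ _)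
      intro i _ _
      positivity
    have hI2 := mul_le_mul_of_nonneg_left hI (sub_nonneg.2 b2)
    linarith
  have hb : s1 * r1 = r1 * s1 := mul_comm _ _
  obtain ⟨hR1, hZ1⟩ := h1.hA.eq _ _ k1 (by omega)
  obtain ⟨hS1, hZ2⟩ := h1.hB.eq _ _ k2 (by omega)
  rw [hZ1] at k1
  rw [hZ2] at k2
  have lift : ∀ (F1 : Set (Finset V1)) (F2 : Set (Finset V2)) (X : Finset (V1 × V2)),
      (∀ a ∈ F1, 2 ≤ a.card) → Kills F1 (blk F2 X) ∅ → Kills (compF F1 F2) X ∅ := by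
    rintro F1 F2 X hc hk c ⟨a, ha, f, hf, rfl⟩
    left
    have h3 : (a ∩ blk F2 X).Nonempty := by
      rcases hk a ha with h | h
      · exact h
      · have h4 := hc a ha
        rw [Finset.subset_empty.1 h] at h4
        simp at h4
    obtain ⟨x, hx⟩ := h3
    rw [Finset.mem_inter, mem_blk] at hx
    obtain ⟨y, hy⟩ := hx.2 _ (hf x)
    rw [Finset.mem_inter, mem_slice] at hy
    exact ⟨(x, y), Finset.mem_inter.2 ⟨mem_cross.2 ⟨hx.1, hy.1⟩, hy.2⟩⟩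
  have kR := lift _ _ _ h1.hA.two_le k1
  have kS := lift _ _ _ h1.hB.two_le k2
  have d1 := hP.hA.c1 _ _ kR
  have d2 := hP.hB.c1 _ _ kS
  rw [Finset.sum_empty, add_zero] at d1 d2
  have e1 : s1 * s2 * (r1 * r2) = r1 * r2 * (s1 * s2) := mul_comm _ _
  try simp only at hlt d1 d2
  have hz0 : ∑ v ∈ Z, l1 v.1 * l2 v.2 * (m1 v.1 * m2 v.2) = 0 := by omega
  have hRB : R ∈ compF B1 B2 := by
    refine (hP.hA.eq _ _ kR ?_).1
    rw [Finset.sum_empty, add_zero]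
    omega
  have hSA : S ∈ compF A1 A2 := by
    refine (hP.hB.eq _ _ kS ?_).1
    rw [Finset.sum_empty, add_zero]
    omega
  obtain ⟨p, hp⟩ := hext hRB hSA
  rw [Finset.sum_eq_zero_iff] at hz0
  have h3 := hz0 p hp
  have h4 := hP.hA.lpos p
  have h5 := hP.hA.mpos p

  have h6 := Nat.mul_pos h4 h5
  omega

theorem star_base {A B : Set (Finset V)} {l m : V → ℕ} {r s : ℕ} (hP : IsPair A B l m r s)
    (htot : r * s + 1 ≤ ∑ v, l v * m v) : Star A B l m r s (1 + 1 / ((r : ℝ) * s)) := by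
  intro R S Z hR hS
  obtain ⟨hr, hs, hA, hB⟩ := Half.rs_pos hP
  have p0 : 0 < (r : ℝ) * s := by
    have := hr
    have := hs
    positivity
  have e : (1 + 1 / ((r : ℝ) * s)) * ((r : ℝ) * s) = (r : ℝ) * s + 1 := by
    field_simp
  rw [e]
  have key : r * s + 1 ≤ r * ∑ v ∈ R, m v + s * ∑ v ∈ S, l v + ∑ v ∈ Z, l v * m v := by
    by_cases hS0 : S = ∅
    · subst hS0
      have hZ : Z = univ := by
        rw [Finset.eq_univ_iff_forall]
        intro v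
        obtain ⟨b, hb, hv⟩ := hP.hB.span v
        rcases hS b hb with h | h
        · simp at h
        · exact h hv
      rw [hZ, Finset.sum_empty, mul_zero, add_zero]
      exact htot.trans (Nat.le_add_left _ _)
    · obtain ⟨v, hv⟩ := Finset.nonempty_iff_ne_empty.2 hS0
      have h1 := hP.hA.c1 R Z hR
      have h2 : 0 < ∑ v ∈ S, l v := Finset.sum_pos (fun v _ => hP.hA.lpos v) ⟨v, hv⟩
      have h3 : 0 < s * ∑ v ∈ S, l v := Nat.mul_pos hs h2
      omega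
  exact_mod_cast key

theorem exists_star (k : ℕ) : ∃ (V : Type) (_ : Fintype V) (_ : DecidableEq V)
    (A B : Set (Finset V)) (l m : V → ℕ) (r s : ℕ),
    IsPair A B l m r s ∧ Star A B l m r s (2 - (1 - 1 / (143 : ℝ)) ^ (k + 1)) := by
  have hb : Star (baseA : Set (Finset (Fin 15))) (baseB : Set (Finset (Fin 15))) baseL baseM 13 11
      (1 + 1 / (143 : ℝ)) := by
    have := star_base base_isPair (by rw [base_total])
    norm_num at this
    norm_num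
    exact this
  induction k with
  | zero =>
    refine ⟨Fin 15, inferInstance, inferInstance, _, _, _, _, 13, 11, base_isPair, ?_⟩
    have e : (2 - (1 - 1 / (143 : ℝ)) ^ (0 + 1)) = 1 + 1 / (143 : ℝ) := by norm_num
    rw [e]
    exact hb
  | succ k ih =>
    obtain ⟨V, _, _, A, B, l, m, r, s, hP, hst⟩ := ih
    refine ⟨Fin 15 × V, inferInstance, inferInstance, _, _, _, _, _, _,
      pair_comp base_isPair hP, ?_⟩
    have h1 : (1 : ℝ) ≤ 2 - (1 - 1 / (143 : ℝ)) ^ (k + 1) := by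
      have : (1 - 1 / (143 : ℝ)) ^ (k + 1) ≤ 1 := pow_le_one₀ (by norm_num) (by norm_num)
      linarith
    have h2 : 2 - (1 - 1 / (143 : ℝ)) ^ (k + 1) ≤ 2 := by
      have : 0 ≤ (1 - 1 / (143 : ℝ)) ^ (k + 1) := pow_nonneg (by norm_num) _
      linarith
    have h3 := star_comp base_isPair hP hb hst h1 h2
    have e : 2 - (2 - (2 - (1 - 1 / (143 : ℝ)) ^ (k + 1))) * (1 - 1 / (143 : ℝ)) =
        2 - (1 - 1 / (143 : ℝ)) ^ (k + 1 + 1) := by ring
    rw [e] at h3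
    exact h3

theorem exists_starStar : ∃ (V : Type) (_ : Fintype V) (_ : DecidableEq V)
    (A B : Set (Finset V)) (l m : V → ℕ) (r s : ℕ),
    IsPair A B l m r s ∧ StarStar A B l m r s := by
  obtain ⟨k, hk⟩ := exists_pow_lt_of_lt_one (show (0 : ℝ) < 1 / 144 by norm_num)
    (show (1 - 1 / (143 : ℝ)) < 1 by norm_num)
  obtain ⟨V, _, _, A, B, l, m, r, s, hP, hst⟩ := exists_star k
  refine ⟨Fin 15 × V, inferInstance, inferInstance, _, _, _, _, _, _,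
      pair_comp base_isPair hP, starStar_comp base_isPair hP hst ?_ ?_⟩
  · have : 0 ≤ (1 - 1 / (143 : ℝ)) ^ (k + 1) := pow_nonneg (by norm_num) _
    linarith
  · have e : ∑ v, (baseL v : ℝ) * baseM v = 144 := by
      exact_mod_cast base_total
    rw [e]
    have h1 : (1 - 1 / (143 : ℝ)) ^ (k + 1) ≤ (1 - 1 / (143 : ℝ)) ^ k := by
      rw [pow_succ]
      have : 0 ≤ (1 - 1 / (143 : ℝ)) ^ k := pow_nonneg (by norm_num) _
      nlinarith
    linarith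

end Pool.Agent.Lib.MP_6f811f_co
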