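import Mathlib

/-!
Reduced pairs used in the disproof of the Gyarfas-Lehel conjecture: definitions.
-/

set_option autoImplicit false

namespace Pool.Agent.Lib.MP_6f811f_co

open Finset

variable {V : Type} [Fintype V] [DecidableEq V]

/-- Every member of `F` meets `R` or is contained in `Z`. -/
def Kills (F : Set (Finset V)) (R Z : Finset V) : Prop :=
  ∀ a ∈ F, (a ∩ R).Nonempty ∨ a ⊆ Z

/-- One half of the conditions on a reduced pair. -/
structure Half (A B : Set (Finset V)) (l m : V → ℕ) (r s : ℕ) : Prop where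
  lpos : ∀ v, 0 < l v
  mpos : ∀ v, 0 < m v
  sum_l : ∀ a ∈ A, ∑ v ∈ a, l v = r
  span : ∀ v, ∃ a ∈ A, v ∈ a
  two_le : ∀ a ∈ A, 2 ≤ a.card
  c1 : ∀ R Z : Finset V, Kills A R Z → r * s ≤ r * ∑ v ∈ R, m v + ∑ v ∈ Z, l v * m v
  eq : ∀ R Z : Finset V, Kills A R Z → r * ∑ v ∈ R, m v + ∑ v ∈ Z, l v * m v ≤ r * s →
    R ∈ B ∧ Z = ∅

/-- A reduced pair `(V, A, B, l, m)` of type `(r, s)`. -/
structure IsPair (A B : Set (Finset V)) (l m : V → ℕ) (r s : ℕ) : Prop where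
  ex : ∀ a ∈ A, ∀ b ∈ B, (a ∩ b).card = 1
  ne : Nonempty V
  hA : Half A B l m r s
  hB : Half B A m l s r

/-- Killing both families costs at least `β r s`. -/
def Star (A B : Set (Finset V)) (l m : V → ℕ) (r s : ℕ) (β : ℝ) : Prop :=
  ∀ R S Z : Finset V, Kills A R Z → Kills B S Z →
    β * ((r : ℝ) * s) ≤ (r : ℝ) * ∑ v ∈ R, (m v : ℝ) + s * ∑ v ∈ S, (l v : ℝ)
      + ∑ v ∈ Z, (l v : ℝ) * m v

/-- Killing both families costs more than `2 r s` except in the extremal case. -/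
def StarStar (A B : Set (Finset V)) (l m : V → ℕ) (r s : ℕ) : Prop :=
  ∀ R S Z : Finset V, Kills A R Z → Kills B S Z →
    2 * (r * s) + 1 ≤ r * ∑ v ∈ R, m v + s * ∑ v ∈ S, l v + ∑ v ∈ Z, l v * m v ∨
      (R ∈ B ∧ S ∈ A ∧ Z = ∅)

end Pool.Agent.Lib.MP_6f811f_co
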