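import Pool.Agent.Lib.MP_6f811f_co.Random

/-!
Small balanced complete bipartite graphs.
-/

set_option autoImplicit false

namespace Pool.Agent.Lib.MP_6f811f_co

open Finset

/-- Latin squares: `n ≤ tc_r(K_{n,n})` for `n ≤ r`. -/
theorem latin_lower {r n : ℕ} (h : n ≤ r) : n ≤ tc r (K n n) := by
  classical
  rcases Nat.eq_zero_or_pos n with rfl | hn
  · exact Nat.zero_le _
  have hr : 0 < r := lt_of_lt_of_le hn h
  have hmod : ∀ (i : Fin r) (b b' : Fin n), (i.1 + b.1) % r = (i.1 + b'.1) % r → b = b' := by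
    intro i b b' hb
    have h1 : b.1 ≡ b'.1 [MOD r] := Nat.ModEq.add_left_cancel' i.1 hb
    apply Fin.ext
    exact Nat.ModEq.eq_of_lt_of_lt h1 (lt_of_lt_of_le b.2 h) (lt_of_lt_of_le b'.2 h)
  refine le_tc_of_labels (L := ℕ) ⟨0, hr⟩ (fun _ a => a.1) (fun i b => (i.1 + b.1) % r) ?_ ?_
  · intro a b
    refine ⟨⟨(a.1 + (r - b.1)) % r, Nat.mod_lt _ hr⟩, ?_⟩
    simp only [Nat.mod_add_mod]
    have h1 : a.1 + (r - b.1) + b.1 = a.1 + r := by omega
    rw [h1, Nat.add_mod_right, Nat.mod_eq_of_lt (by omega)]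
  · intro T hT
    right
    by_contra hcon
    push Not at hcon
    choose i hi using hcon
    have hinj : Function.Injective (fun b : Fin n => (i b, ((i b).1 + b.1) % r)) := by
      intro b b' hb
      obtain ⟨h1, h2⟩ := Prod.mk.inj hb
      rw [h1] at h2
      exact hmod _ _ _ h2
    have h1 : (univ.image (fun b : Fin n => (i b, ((i b).1 + b.1) % r))).card ≤ T.card := by
      apply card_le_card
      intro p hp
      obtain ⟨b, _, rfl⟩ := mem_image.1 hp
      exact hi b
    rw [card_image_of_injective _ hinj, card_univ, Fintype.card_fin] at h1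
    omega

/-- For `r ≥ 3` and `n ≥ 2r`, more than `r` trees are needed. -/
theorem circulant_lower {r n m : ℕ} (hr : 3 ≤ r) (hm : 2 ≤ m) (hn : 2 * r ≤ n) :
    r + 1 ≤ tc r (K m n) := by
  classical
  obtain ⟨s, rfl⟩ : ∃ s, r = s + 3 := ⟨r - 3, by omega⟩
  have c1 : Fintype.card (Fin 2) ≤ m := by simpa using hm
  have c2 : Fintype.card (Fin (s + 3) × Fin 2) ≤ n := by
    rw [Fintype.card_prod, Fintype.card_fin, Fintype.card_fin]
    omega
  obtain ⟨α, hα⟩ := exists_surj c1
  obtain ⟨β, hβ⟩ := exists_surj c2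
  -- the position of the vertex of `b = (i, t)` in column `j`
  let pos : Fin (s + 3) × Fin 2 → Fin 2 → Fin (s + 3) := fun b j =>
    if j = 0 then b.1 else (if b.2 = 0 then b.1 + 1 else b.1 + 2)
  have h10 : (1 : Fin (s + 3)) ≠ 0 := by
    intro h
    have := congrArg Fin.val h
    simp at this
  have h20 : (2 : Fin (s + 3)) ≠ 0 := by
    intro h
    have := congrArg Fin.val h
    rw [Fin.val_two] at this
    simp at this
  have h12 : (1 : Fin (s + 3)) ≠ 2 := by
    intro h
    have := congrArg Fin.val h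
    rw [Fin.val_two, Fin.val_one] at this
    omega
  have hpos : ∀ b, pos b 0 ≠ pos b 1 := by
    intro b
    simp only [pos, if_true]
    rw [if_neg (by decide)]
    split_ifs
    · intro h
      exact h10 (left_eq_add.1 h)
    · intro h
      exact h20 (left_eq_add.1 h)
  have hposinj : ∀ b j j', pos b j = pos b j' → j = j' := by
    intro b j j' h
    fin_cases j <;> fin_cases j'
    · rfl
    · exact absurd h (hpos b)
    · exact absurd h.symm (hpos b)
    · rfl
  let f : Fin (s + 3) → Fin m → Fin 2 ⊕ (Fin (s + 3) × Fin 2) := fun _ a => Sum.inl (α a)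
  let g : Fin (s + 3) → Fin n → Fin 2 ⊕ (Fin (s + 3) × Fin 2) := fun i x =>
    if h : ∃ j, pos (β x) j = i then Sum.inl h.choose else Sum.inr (β x)
  refine le_tc_of_labels 0 f g ?_ ?_
  · intro a x
    refine ⟨pos (β x) (α a), ?_⟩
    have h : ∃ j, pos (β x) j = pos (β x) (α a) := ⟨_, rfl⟩
    simp only [f, g]
    rw [dif_pos h]
    congr 1
    exact (hposinj _ _ _ h.choose_spec).symm
  · intro T hT
    by_contra hcon
    push Not at hcon
    obtain ⟨hA, hB⟩ := hcon
    let ψ : Fin (s + 3) × (Fin 2 ⊕ (Fin (s + 3) × Fin 2)) → Fin (s + 3) × Fin 2 := fun p =>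
      match p.2 with
      | Sum.inl j => (p.1, j)
      | Sum.inr b => (pos b 0, 0)
    let T' := T.image ψ
    have hT' : T'.card ≤ s + 3 := card_image_le.trans (by omega)
    have hA' : ∀ j : Fin 2, ∃ i, (i, j) ∈ T' := by
      intro j
      obtain ⟨a, rfl⟩ := hα j
      obtain ⟨i, hi⟩ := hA a
      exact ⟨i, mem_image_of_mem ψ hi⟩
    have hB' : ∀ b, ∃ j, (pos b j, j) ∈ T' := by
      intro b
      obtain ⟨x, rfl⟩ := hβ b
      obtain ⟨i, hi⟩ := hB x
      have h1 := mem_image_of_mem ψ hi
      by_cases h : ∃ j, pos (β x) j = i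
      · simp only [g] at h1
        rw [dif_pos h] at h1
        refine ⟨h.choose, ?_⟩
        rw [h.choose_spec]
        exact h1
      · simp only [g] at h1
        rw [dif_neg h] at h1
        exact ⟨0, h1⟩
    let T0 : Finset (Fin (s + 3)) := univ.filter (fun i => (i, 0) ∈ T')
    let T1 : Finset (Fin (s + 3)) := univ.filter (fun i => (i, 1) ∈ T')
    have hsum : T0.card + T1.card ≤ T'.card := by
      have hdisj : Disjoint (T0.image (fun i => (i, (0 : Fin 2))))
          (T1.image (fun i => (i, (1 : Fin 2)))) := by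
        rw [disjoint_left]
        intro p hp hp'
        obtain ⟨i, _, rfl⟩ := mem_image.1 hp
        obtain ⟨i', _, h⟩ := mem_image.1 hp'
        exact absurd (Prod.mk.inj h).2 (by decide)
      rw [← card_image_of_injective T0 (f := fun i => (i, (0 : Fin 2)))
        (fun a b h => (Prod.mk.inj h).1), ← card_image_of_injective T1
        (f := fun i => (i, (1 : Fin 2))) (fun a b h => (Prod.mk.inj h).1),
        ← card_union_of_disjoint hdisj]
      apply card_le_card
      intro p hp
      rcases mem_union.1 hp with hp | hp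
      · obtain ⟨i, hi, rfl⟩ := mem_image.1 hp
        exact (mem_filter.1 hi).2
      · obtain ⟨i, hi, rfl⟩ := mem_image.1 hp
        exact (mem_filter.1 hi).2
    have hcompl : (T0ᶜ).card + T0.card = s + 3 := by
      rw [card_compl, Fintype.card_fin]
      have := card_le_univ T0
      rw [Fintype.card_fin] at this
      omega
    have hX1 : ∀ i ∈ T0ᶜ, i + 1 ∈ T1 ∧ i + 2 ∈ T1 := by
      intro i hi
      have hi' : (i, (0 : Fin 2)) ∉ T' := by
        intro h
        exact (mem_compl.1 hi) (mem_filter.2 ⟨mem_univ _, h⟩)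
      constructor
      · obtain ⟨j, hj⟩ := hB' (i, 0)
        fin_cases j
        · exact absurd hj hi'
        · exact mem_filter.2 ⟨mem_univ _, hj⟩
      · obtain ⟨j, hj⟩ := hB' (i, 1)
        fin_cases j
        · exact absurd hj hi'
        · exact mem_filter.2 ⟨mem_univ _, hj⟩
    have e1 : T0ᶜ.image (fun i => i + 1) = T1 := by
      apply eq_of_subset_of_card_le
      · intro p hp
        obtain ⟨i, hi, rfl⟩ := mem_image.1 hp
        exact (hX1 i hi).1
      · rw [card_image_of_injective _ (add_left_injective 1)]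
        omega
    have e2 : T0ᶜ.image (fun i => i + 2) = T1 := by
      apply eq_of_subset_of_card_le
      · intro p hp
        obtain ⟨i, hi, rfl⟩ := mem_image.1 hp
        exact (hX1 i hi).2
      · rw [card_image_of_injective _ (add_left_injective 2)]
        omega
    -- `T0ᶜ` is invariant under adding `1`
    have hinv : ∀ i ∈ T0ᶜ, i + 1 ∈ T0ᶜ := by
      intro i hi
      have h1 : i + 2 ∈ T1 := (hX1 i hi).2
      rw [← e1] at h1
      obtain ⟨k, hk, hk'⟩ := mem_image.1 h1
      have h2 : k = i + 1 := by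
        have h3 : k + 1 = i + 1 + 1 := by
          rw [hk', add_assoc]
          congr 1
        exact add_right_cancel h3
      rw [← h2]
      exact hk
    obtain ⟨i1, hi1⟩ := hA' 1
    have hT1ne : T1.Nonempty := ⟨i1, mem_filter.2 ⟨mem_univ _, hi1⟩⟩
    have hXne : (T0ᶜ).Nonempty := by
      obtain ⟨p, hp⟩ := hT1ne
      rw [← e1] at hp
      obtain ⟨k, hk, _⟩ := mem_image.1 hp
      exact ⟨k, hk⟩
    have hall : ∀ (k : ℕ) (i : Fin (s + 3)), i ∈ T0ᶜ → i + Fin.ofNat (s + 3) k ∈ T0ᶜ := by
      intro k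
      induction k with
      | zero =>
        intro i hi
        have : i + Fin.ofNat (s + 3) 0 = i := by
          apply Fin.ext
          simp [Fin.val_add]
        rw [this]
        exact hi
      | succ k ih =>
        intro i hi
        have h1 := hinv _ (ih i hi)
        have : i + Fin.ofNat (s + 3) (k + 1) = i + Fin.ofNat (s + 3) k + 1 := by
          apply Fin.ext
          simp [Fin.val_add, add_assoc]
        rw [this]
        exact h1
    obtain ⟨i0, hi0⟩ := hA' 0
    obtain ⟨x, hx⟩ := hXne
    have h1 := hall (i0 - x).1 x hx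
    have h2 : x + Fin.ofNat (s + 3) (i0 - x).1 = i0 := by
      have : Fin.ofNat (s + 3) (i0 - x).1 = i0 - x := by
        apply Fin.ext
        simp [Nat.mod_eq_of_lt (i0 - x).2]
      rw [this]
      exact add_sub_cancel x i0
    rw [h2] at h1
    exact (mem_compl.1 h1) (mem_filter.2 ⟨mem_univ _, hi0⟩)

end Pool.Agent.Lib.MP_6f811f_co
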